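import Pool.Agent.N282.PM.Stm

/-!
# Project PM (helper282), part AS (helper592): all `N`, almost surely
-/

set_option autoImplicit false

open MeasureTheory Filter Topology Classical

namespace Pool.Agent.N282.PM

/-- the inequality for one `N`, with the bound `B` -/
def as_Ineq (x : ℕ → ℝ) (N : ℕ) (A : ℝ) (B : ℕ → ℝ) : Prop :=
  ∀ S : Finset ℝ, (∀ t ∈ S, 0 ≤ t ∧ t ≤ (N : ℝ) ^ A) → Sep 1 S → ∀ a : ℕ → ℂ,
    ∑ t ∈ S, ‖DP x a N t‖ ^ 2 ≤ B S.card * ∑ n ∈ Finset.Icc 1 N, ‖a n‖ ^ 2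

lemma as_ph (t x : ℝ) : ‖ph t x‖ = 1 := by
  unfold ph
  have e : Complex.I * (t : ℂ) * (Real.log x : ℂ) = Complex.I * ((t * Real.log x : ℝ) : ℂ) := by
    push_cast
    ring
  rw [e, mul_comm, Complex.norm_exp_ofReal_mul_I]

lemma as_triv (x : ℕ → ℝ) (a : ℕ → ℂ) (N : ℕ) (t : ℝ) :
    ‖DP x a N t‖ ^ 2 ≤ N * ∑ n ∈ Finset.Icc 1 N, ‖a n‖ ^ 2 := by
  have h1 : ‖DP x a N t‖ ≤ ∑ n ∈ Finset.Icc 1 N, ‖a n‖ := by
    unfold DP
    refine (norm_sum_le _ _).trans (Finset.sum_le_sum fun n _ => ?_)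
    rw [norm_mul, as_ph, mul_one]
  have h2 : (∑ n ∈ Finset.Icc 1 N, ‖a n‖) ^ 2 ≤
      ((Finset.Icc 1 N).card : ℝ) * ∑ n ∈ Finset.Icc 1 N, ‖a n‖ ^ 2 := sq_sum_le_card_mul_sum_sq
  rw [Nat.card_Icc, Nat.add_sub_cancel] at h2
  exact (pow_le_pow_left₀ (norm_nonneg _) h1 2).trans h2

/-- one exponent -/
lemma as_one (h : S_MAIN) {Ω : Type} [mΩ : MeasurableSpace Ω] (P : Measure Ω)
    [hP : IsProbabilityMeasure P] (U : ℕ → Ω → ℝ) (y δ : ℕ → ℝ) (m : ℝ)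
    (hU : ∀ n, Measurable (U n)) (hi : ProbabilityTheory.iIndepFun U P)
    (hm : ∀ n, P.map (U n) = volume.restrict (Set.Icc 0 1)) (m1 : 1 ≤ m)
    (hs : ∀ N, Spread y m N) (hδ : ∀ n, 0 < δ n ∧ δ n ≤ 1)
    (hc : ∀ ε : ℝ, 0 < ε → ∃ c : ℝ, 0 < c ∧ ∀ n : ℕ, 1 ≤ n → c * (n : ℝ) ^ (-ε) ≤ δ n)
    (ε A : ℝ) (hε : 0 < ε) (hA : 1 < A) :
    ∀ᵐ ω ∂P, ∃ C : ℝ, 0 < C ∧ ∀ N : ℕ, 1 ≤ N →
      as_Ineq (pt y δ U ω) N A fun s => C * (N : ℝ) ^ ε * (N + s) := by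
  obtain ⟨C₀, hC₀, h0⟩ := h A (by linarith)
  obtain ⟨c, c0, hc1⟩ := hc (ε / 4) (by positivity)
  have c1 : c ≤ 1 := by
    have h1 := hc1 1 le_rfl
    rw [Nat.cast_one, Real.one_rpow, mul_one] at h1
    exact h1.trans (hδ 1).2
  set B : ℕ → Set Ω := fun N => if 2 ≤ N then {ω | ¬ as_Ineq (pt y δ U ω) N A fun s =>
    C₀ * m ^ 3 * (Real.log N) ^ 5 * (N / (c * (N : ℝ) ^ (-(ε / 4))) + s)} else ∅ with hB
  have hP1 : ∀ N, P (B N) ≤ ENNReal.ofReal ((N : ℝ) ^ (-A)) := by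
    intro N
    rw [hB]
    by_cases h2 : 2 ≤ N
    · simp only [if_pos h2]
      have hN : (0 : ℝ) < N := by positivity
      have k1 := h0 Ω mΩ P hP U y δ (c * (N : ℝ) ^ (-(ε / 4))) m N hU hi hm h2 (by positivity) m1
        (hs N) ?_
      · rw [← ENNReal.ofReal_toReal (measure_ne_top P _)]
        exact ENNReal.ofReal_le_ofReal k1
      · intro n hn
        rw [Finset.mem_Icc] at hn
        refine ⟨?_, (hδ n).2⟩
        refine le_trans ?_ (hc1 n hn.1)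
        refine mul_le_mul_of_nonneg_left ?_ c0.le
        have hn0 : (0 : ℝ) < n := by exact_mod_cast hn.1
        have hnN : (n : ℝ) ≤ N := by exact_mod_cast hn.2
        exact Real.rpow_le_rpow_of_nonpos hn0 hnN (by linarith)
    · simp only [if_neg h2, measure_empty]
      exact zero_le
  have hsum : ∑' N, P (B N) ≠ ⊤ := by
    have k1 : Summable fun N : ℕ => (N : ℝ) ^ (-A) := Real.summable_nat_rpow.2 (by linarith)
    exact ne_top_of_le_ne_top k1.tsum_ofReal_ne_top (ENNReal.tsum_le_tsum hP1)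
  filter_upwards [ae_eventually_notMem hsum] with ω hω
  obtain ⟨N₀, hN₀⟩ := eventually_atTop.1 hω
  set C₁ : ℝ := C₀ * m ^ 3 * (20 / ε) ^ 5 / c with hC₁
  have hC₁0 : 0 ≤ C₁ := by positivity
  refine ⟨(N₀ + 2 : ℕ) + C₁, by positivity, ?_⟩
  intro N hN S hS1 hS2 a
  have hN1 : (1 : ℝ) ≤ N := by exact_mod_cast hN
  have hN0 : (0 : ℝ) < N := by linarith
  have hNe : (1 : ℝ) ≤ (N : ℝ) ^ ε := Real.one_le_rpow hN1 hε.le
  have hs0 : (0 : ℝ) ≤ ∑ n ∈ Finset.Icc 1 N, ‖a n‖ ^ 2 := Finset.sum_nonneg fun _ _ => by positivity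
  have hS0 : (0 : ℝ) ≤ (S.card : ℝ) := by positivity
  by_cases hcase : N₀ + 2 ≤ N
  · have k1 := hN₀ N (by omega)
    rw [hB] at k1
    simp only [if_pos (by omega : 2 ≤ N), Set.mem_ofPred_eq, not_not] at k1
    refine (k1 S hS1 hS2 a).trans (mul_le_mul_of_nonneg_right ?_ hs0)
    set q := (N : ℝ) ^ (ε / 4) with hq
    have hq1 : 1 ≤ q := Real.one_le_rpow hN1 (by positivity)
    have e1 : (N : ℝ) ^ (-(ε / 4)) = q⁻¹ := Real.rpow_neg hN0.le _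
    have e2 : q ^ 4 = (N : ℝ) ^ ε := by
      rw [hq, ← Real.rpow_natCast, ← Real.rpow_mul hN0.le]
      congr 1
      push_cast
      ring
    have e3 : Real.log N ≤ (N : ℝ) ^ (ε / 20) / (ε / 20) :=
      Real.log_le_rpow_div hN0.le (by positivity)
    have e4 : ((N : ℝ) ^ (ε / 20)) ^ 5 = q := by
      rw [hq, ← Real.rpow_natCast, ← Real.rpow_mul hN0.le]
      congr 1
      push_cast
      ring
    have e5 : (Real.log N) ^ 5 ≤ (20 / ε) ^ 5 * q := by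
      have k2 := pow_le_pow_left₀ (Real.log_nonneg hN1) e3 5
      rw [div_pow, e4] at k2
      refine k2.trans (le_of_eq ?_)
      field_simp
    have e6 : (N : ℝ) / (c * (N : ℝ) ^ (-(ε / 4))) + S.card ≤ q / c * (N + S.card) := by
      rw [e1]
      have k2 : (N : ℝ) / (c * q⁻¹) = q / c * N := by field_simp
      rw [k2, mul_add]
      have k3 : 1 ≤ q / c := (one_le_div c0).2 (c1.trans hq1)
      nlinarith
    have e7 : C₀ * m ^ 3 * (Real.log N) ^ 5 * ((N : ℝ) / (c * (N : ℝ) ^ (-(ε / 4))) + S.card) ≤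
        C₀ * m ^ 3 * ((20 / ε) ^ 5 * q) * (q / c * (N + S.card)) := by
      refine mul_le_mul (mul_le_mul_of_nonneg_left e5 (by positivity)) e6 (by positivity) (by positivity)
    refine e7.trans ?_
    have e8 : C₀ * m ^ 3 * ((20 / ε) ^ 5 * q) * (q / c * (N + S.card)) =
        C₁ * q ^ 2 * (N + S.card) := by
      rw [hC₁]
      ring
    rw [e8]
    refine mul_le_mul_of_nonneg_right ?_ (by positivity)
    refine mul_le_mul ?_ ?_ (by positivity) (by positivity)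
    · have : (0 : ℝ) ≤ ((N₀ + 2 : ℕ) : ℝ) := by positivity
      linarith
    · rw [← e2]
      exact pow_le_pow_right₀ hq1 (by norm_num)
  · have k1 : (N : ℝ) ≤ ((N₀ + 2 : ℕ) : ℝ) := by
      exact_mod_cast (by omega : N ≤ N₀ + 2)
    have k2 : ∑ t ∈ S, ‖DP (pt y δ U ω) a N t‖ ^ 2 ≤ S.card * (N * ∑ n ∈ Finset.Icc 1 N, ‖a n‖ ^ 2) := by
      refine (Finset.sum_le_sum fun t _ => as_triv _ a N t).trans ?_
      rw [Finset.sum_const, nsmul_eq_mul]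
    refine k2.trans ?_
    rw [← mul_assoc]
    refine mul_le_mul_of_nonneg_right ?_ hs0
    have k3 : (S.card : ℝ) * N ≤ (((N₀ + 2 : ℕ) : ℝ) + C₁) * (N + S.card) := by
      have k4 : (N : ℝ) ≤ ((N₀ + 2 : ℕ) : ℝ) + C₁ := by linarith
      have k5 : (S.card : ℝ) * N ≤ (N + S.card) * (((N₀ + 2 : ℕ) : ℝ) + C₁) := by
        refine mul_le_mul ?_ k4 (by positivity) (by positivity)
        linarith
      linarith
    refine k3.trans ?_
    refine mul_le_mul_of_nonneg_right ?_ (by positivity)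
    exact le_mul_of_one_le_right (by positivity) hNe

/-- **All `N`, almost surely.** -/
theorem t_AS (h : S_MAIN) : S_AS := by
  intro Ω mΩ P hP U y δ m hU hi hm m1 hs hδ hc
  have h1 : ∀ k : ℕ, ∀ᵐ ω ∂P, ∃ C : ℝ, 0 < C ∧ ∀ N : ℕ, 1 ≤ N →
      as_Ineq (pt y δ U ω) N ((k : ℝ) + 2) fun s => C * (N : ℝ) ^ (1 / ((k : ℝ) + 1)) * (N + s) := by
    intro k
    refine as_one h P U y δ m hU hi hm m1 hs hδ hc _ _ (by positivity) ?_
    have : (0 : ℝ) ≤ k := by positivity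
    linarith
  filter_upwards [ae_all_iff.2 h1] with ω hω
  intro ε A hε hA
  obtain ⟨k₁, hk₁⟩ := exists_nat_gt (1 / ε)
  obtain ⟨k₂, hk₂⟩ := exists_nat_gt A
  set k := k₁ + k₂ with hk
  have hk1 : 1 / ε ≤ (k : ℝ) + 1 := by
    have : (k : ℝ) = k₁ + k₂ := by rw [hk]; push_cast; ring
    have h2 : (0 : ℝ) ≤ k₂ := by positivity
    linarith
  have hk2 : A ≤ (k : ℝ) + 2 := by
    have : (k : ℝ) = k₁ + k₂ := by rw [hk]; push_cast; ring
    have h2 : (0 : ℝ) ≤ k₁ := by positivity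
    linarith
  obtain ⟨C, hC, h2⟩ := hω k
  refine ⟨C, hC, ?_⟩
  intro N hN S hS1 hS2 a
  have hN1 : (1 : ℝ) ≤ N := by exact_mod_cast hN
  have h3 := h2 N hN S (fun t ht => ⟨(hS1 t ht).1, (hS1 t ht).2.trans
    (Real.rpow_le_rpow_of_exponent_le hN1 hk2)⟩) hS2 a
  refine h3.trans ?_
  refine mul_le_mul_of_nonneg_right ?_ (Finset.sum_nonneg fun _ _ => by positivity)
  refine mul_le_mul_of_nonneg_right ?_ (by positivity)
  refine mul_le_mul_of_nonneg_left ?_ hC.le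
  refine Real.rpow_le_rpow_of_exponent_le hN1 ?_
  rw [div_le_iff₀ (by positivity)]
  rw [div_le_iff₀ hε] at hk1
  linarith

end Pool.Agent.N282.PM
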