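import Pool.Agent.N282.PM.Stm

/-!
# Project PM: the mean square at the perturbed points (helper615 for helper282)
-/

set_option autoImplicit false

open MeasureTheory Filter Topology Classical

namespace Pool.Agent.N282.PM

/-- the square of the absolute value of the exponential sum -/
noncomputable def besG (S : Finset ℝ) (x : ℝ) : ℝ := ‖∑ t ∈ S, ph t x‖ ^ 2

lemma bes_nonneg (S : Finset ℝ) (x : ℝ) : 0 ≤ besG S x := by
  unfold besG
  positivity

lemma bes_norm_ph (t x : ℝ) : ‖ph t x‖ = 1 := by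
  unfold ph
  have : Complex.I * (t : ℂ) * (Real.log x : ℂ) = ((t * Real.log x : ℝ) : ℂ) * Complex.I := by
    push_cast
    ring
  rw [this, Complex.norm_exp_ofReal_mul_I]

lemma bes_measurable_ph (t : ℝ) : Measurable (ph t) := by
  unfold ph
  have h : Measurable fun x : ℝ => (Real.log x : ℂ) := Complex.measurable_ofReal.comp Real.measurable_log
  exact Complex.measurable_exp.comp (h.const_mul _)

lemma bes_measurable (S : Finset ℝ) : Measurable (besG S) := by
  unfold besG
  exact (Finset.measurable_fun_sum S fun t _ => bes_measurable_ph t).norm.pow_const 2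

lemma bes_bound (S : Finset ℝ) (x : ℝ) : besG S x ≤ (S.card : ℝ) ^ 2 := by
  unfold besG
  have h : ‖∑ t ∈ S, ph t x‖ ≤ (S.card : ℝ) := by
    calc ‖∑ t ∈ S, ph t x‖ ≤ ∑ t ∈ S, ‖ph t x‖ := norm_sum_le _ _
      _ = (S.card : ℝ) := by simp [bes_norm_ph]
  exact pow_le_pow_left₀ (norm_nonneg _) h 2

lemma bes_integrable (S : Finset ℝ) (a b : ℝ) : IntegrableOn (besG S) (Set.Ioc a b) := by
  refine Measure.integrableOn_of_bounded (M := (S.card : ℝ) ^ 2) ?_ (bes_measurable S).aestronglyMeasurable ?_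
  · rw [Real.volume_Ioc]
    exact ENNReal.ofReal_ne_top
  · refine Filter.Eventually.of_forall fun x => ?_
    rw [Real.norm_of_nonneg (bes_nonneg S x)]
    exact bes_bound S x

lemma bes_intervalIntegrable (S : Finset ℝ) (a b : ℝ) : IntervalIntegrable (besG S) volume a b :=
  ⟨bes_integrable S a b, bes_integrable S b a⟩

/-! ### step one: one point -/

lemma bes_one (S : Finset ℝ) (y δ δ0 : ℝ) (h0 : 0 < δ0) (h1 : δ0 ≤ δ) (h2 : δ ≤ 1) :
    ∫ u in (0 : ℝ)..1, besG S (y + δ * u) ≤ δ0⁻¹ * ∫ x in Set.Ioc y (y + 1), besG S x := by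
  have hδ : 0 < δ := h0.trans_le h1
  rw [intervalIntegral.integral_comp_add_mul (fun x => besG S x) hδ.ne' y, smul_eq_mul, mul_zero, add_zero,
    mul_one, intervalIntegral.integral_of_le (by linarith)]
  refine mul_le_mul (inv_anti₀ h0 h1) ?_ ?_ (inv_nonneg.2 h0.le)
  · refine setIntegral_mono_set (bes_integrable S _ _) (Filter.Eventually.of_forall fun x => bes_nonneg S x) ?_
    exact (Set.Ioc_subset_Ioc_right (by linarith)).eventuallyLE
  · exact setIntegral_nonneg measurableSet_Ioc fun x _ => bes_nonneg S x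

/-! ### step two: the sum over the points -/

lemma bes_points (S : Finset ℝ) (N : ℕ) (y : ℕ → ℝ) (m : ℝ) (hs : Spread y m N) :
    ∑ n ∈ Finset.Icc 1 N, ∫ x in Set.Ioc (y n) (y n + 1), besG S x ≤
      m * ∫ x in Set.Ioc 1 (m * N + 1), besG S x := by
  have e1 : ∀ n ∈ Finset.Icc 1 N, ∫ x in Set.Ioc (y n) (y n + 1), besG S x =
      ∫ x in Set.Ioc 1 (m * N + 1), (Set.Ioc (y n) (y n + 1)).indicator (besG S) x := by
    intro n hn
    rw [setIntegral_indicator measurableSet_Ioc]
    congr 2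
    rw [eq_comm, Set.inter_eq_right]
    obtain ⟨h1, h2⟩ := hs.1 n hn
    exact Set.Ioc_subset_Ioc h1 (by linarith)
  rw [Finset.sum_congr rfl e1, ← integral_finsetSum]
  · rw [← integral_const_mul]
    refine setIntegral_mono_on ?_ ((bes_integrable S _ _).const_mul m) measurableSet_Ioc ?_
    · refine integrable_finsetSum _ fun n _ => ?_
      exact (bes_integrable S _ _).integrable.indicator measurableSet_Ioc
    · intro x _
      have e2 : ∑ n ∈ Finset.Icc 1 N, (Set.Ioc (y n) (y n + 1)).indicator (besG S) x =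
          (((Finset.Icc 1 N).filter fun n => x - 1 ≤ y n ∧ y n < x - 1 + 1).card : ℝ) * besG S x := by
        rw [← nsmul_eq_mul, ← Finset.sum_const, Finset.sum_filter]
        refine Finset.sum_congr rfl fun n _ => ?_
        rw [Set.indicator_apply]
        have : x ∈ Set.Ioc (y n) (y n + 1) ↔ (x - 1 ≤ y n ∧ y n < x - 1 + 1) := by
          rw [Set.mem_Ioc]
          constructor
          · rintro ⟨h1, h2⟩
            exact ⟨by linarith, by linarith⟩
          · rintro ⟨h1, h2⟩
            exact ⟨by linarith, by linarith⟩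
        by_cases h : x ∈ Set.Ioc (y n) (y n + 1)
        · rw [if_pos h, if_pos (this.1 h)]
        · rw [if_neg h, if_neg (fun h' => h (this.2 h'))]
      rw [e2]
      exact mul_le_mul_of_nonneg_right (hs.2 (x - 1)) (bes_nonneg S x)
  · intro n _
    exact (bes_integrable S _ _).integrable.indicator measurableSet_Ioc

/-! ### step three: the mean value on a long interval -/

lemma bes_contOn (S : Finset ℝ) : ContinuousOn (besG S) (Set.Ioi 0) := by
  unfold besG
  refine ContinuousOn.pow (ContinuousOn.norm (continuousOn_finsetSum _ fun t _ => ?_)) 2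
  unfold ph
  refine Complex.continuous_exp.comp_continuousOn ?_
  refine continuousOn_const.mul ?_
  refine Complex.continuous_ofReal.comp_continuousOn ?_
  exact Real.continuousOn_log.mono fun x hx => (ne_of_gt hx : x ≠ 0)

lemma bes_exp (S : Finset ℝ) (v : ℝ) : besG S (Real.exp v) = ‖∑ t ∈ S, Complex.exp (Complex.I * t * v)‖ ^ 2 := by
  unfold besG ph
  rw [Real.log_exp]

lemma bes_cont_exp (S : Finset ℝ) :
    Continuous fun v : ℝ => ‖∑ t ∈ S, Complex.exp (Complex.I * t * v)‖ ^ 2 := by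
  fun_prop

lemma bes_step (C : ℝ) (S : Finset ℝ)
    (hC : ∀ c : ℝ, ∫ v in c..(c + 1), ‖∑ t ∈ S, Complex.exp (Complex.I * t * v)‖ ^ 2 ≤ C * S.card) (k : ℝ) :
    ∫ x in Real.exp k..Real.exp (k + 1), besG S x ≤ Real.exp (k + 1) * (C * S.card) := by
  have h := intervalIntegral.integral_comp_mul_deriv' (a := k) (b := k + 1) (f := Real.exp) (f' := Real.exp)
    (g := besG S) (fun x _ => Real.hasDerivAt_exp x) Real.continuous_exp.continuousOn
    ((bes_contOn S).mono (by rintro _ ⟨x, _, rfl⟩; exact Real.exp_pos x))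
  rw [← h]
  calc ∫ x in k..(k + 1), (besG S ∘ Real.exp) x * Real.exp x
      ≤ ∫ x in k..(k + 1), Real.exp (k + 1) * ‖∑ t ∈ S, Complex.exp (Complex.I * t * x)‖ ^ 2 := by
        refine intervalIntegral.integral_mono_on (by linarith) ?_ ?_ ?_
        · refine Continuous.intervalIntegrable ?_ _ _
          have e : (fun x => (besG S ∘ Real.exp) x * Real.exp x) =
              fun v : ℝ => ‖∑ t ∈ S, Complex.exp (Complex.I * t * v)‖ ^ 2 * Real.exp v := by
            funext v
            rw [Function.comp, bes_exp]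
          rw [e]
          exact (bes_cont_exp S).mul Real.continuous_exp
        · exact (continuous_const.mul (bes_cont_exp S)).intervalIntegrable _ _
        · intro x hx
          rw [Function.comp, bes_exp, mul_comm]
          exact mul_le_mul_of_nonneg_right (Real.exp_le_exp.2 hx.2) (by positivity)
    _ = Real.exp (k + 1) * ∫ x in k..(k + 1), ‖∑ t ∈ S, Complex.exp (Complex.I * t * x)‖ ^ 2 := by
        rw [intervalIntegral.integral_const_mul]
    _ ≤ _ := mul_le_mul_of_nonneg_left (hC k) (Real.exp_pos _).le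

lemma bes_long (C : ℝ) (S : Finset ℝ) (hC0 : 0 < C)
    (hC : ∀ c : ℝ, ∫ v in c..(c + 1), ‖∑ t ∈ S, Complex.exp (Complex.I * t * v)‖ ^ 2 ≤ C * S.card) (K : ℕ) :
    ∫ x in (1 : ℝ)..Real.exp K, besG S x ≤ 2 * Real.exp K * (C * S.card) := by
  induction K with
  | zero =>
    simp only [Nat.cast_zero, Real.exp_zero, intervalIntegral.integral_same]
    positivity
  | succ K ih =>
    rw [← intervalIntegral.integral_add_adjacent_intervals (bes_intervalIntegrable S 1 (Real.exp K))
      (bes_intervalIntegrable S (Real.exp K) (Real.exp ((K + 1 : ℕ) : ℝ)))]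
    have h1 := bes_step C S hC K
    have h2 : ((K + 1 : ℕ) : ℝ) = (K : ℝ) + 1 := by push_cast; ring
    rw [h2]
    have h3 : 2 * Real.exp K ≤ Real.exp ((K : ℝ) + 1) := by
      rw [Real.exp_add, mul_comm]
      refine mul_le_mul_of_nonneg_left ?_ (Real.exp_pos _).le
      have := Real.add_one_le_exp (1 : ℝ)
      linarith
    have h4 : 0 ≤ C * (S.card : ℝ) := by positivity
    calc (∫ x in (1 : ℝ)..Real.exp K, besG S x) + ∫ x in Real.exp K..Real.exp ((K : ℝ) + 1), besG S x
        ≤ 2 * Real.exp K * (C * S.card) + Real.exp ((K : ℝ) + 1) * (C * S.card) := add_le_add ih h1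
      _ ≤ Real.exp ((K : ℝ) + 1) * (C * S.card) + Real.exp ((K : ℝ) + 1) * (C * S.card) :=
          add_le_add (mul_le_mul_of_nonneg_right h3 h4) le_rfl
      _ = _ := by ring

lemma bes_interval (C : ℝ) (S : Finset ℝ) (hC0 : 0 < C)
    (hC : ∀ c : ℝ, ∫ v in c..(c + 1), ‖∑ t ∈ S, Complex.exp (Complex.I * t * v)‖ ^ 2 ≤ C * S.card) (X : ℝ)
    (hX : 1 ≤ X) : ∫ x in Set.Ioc 1 X, besG S x ≤ 2 * Real.exp 1 * X * (C * S.card) := by
  set K : ℕ := ⌈Real.log X⌉₊ with hK
  have h0 : 0 ≤ Real.log X := Real.log_nonneg hX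
  have h1 : X ≤ Real.exp K := by
    calc X = Real.exp (Real.log X) := (Real.exp_log (by linarith)).symm
      _ ≤ Real.exp K := Real.exp_le_exp.2 (Nat.le_ceil _)
  have h2 : Real.exp K ≤ Real.exp 1 * X := by
    calc Real.exp K ≤ Real.exp (1 + Real.log X) :=
          Real.exp_le_exp.2 (by linarith [Nat.ceil_lt_add_one h0])
      _ = Real.exp 1 * X := by rw [Real.exp_add, Real.exp_log (by linarith)]
  have h3 := bes_long C S hC0 hC K
  rw [intervalIntegral.integral_of_le (hX.trans h1)] at h3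
  have h4 : 0 ≤ C * (S.card : ℝ) := by positivity
  calc ∫ x in Set.Ioc 1 X, besG S x ≤ ∫ x in Set.Ioc 1 (Real.exp K), besG S x :=
        setIntegral_mono_set (bes_integrable S _ _) (Filter.Eventually.of_forall fun x => bes_nonneg S x)
          (Set.Ioc_subset_Ioc_right h1).eventuallyLE
    _ ≤ 2 * Real.exp K * (C * S.card) := h3
    _ ≤ 2 * (Real.exp 1 * X) * (C * S.card) :=
        mul_le_mul_of_nonneg_right (mul_le_mul_of_nonneg_left h2 (by norm_num)) h4
    _ = _ := by ring

theorem t_BES (h : S_LOC) : S_BES := by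
  obtain ⟨C, hC0, hC⟩ := h
  refine ⟨4 * Real.exp 1 * C, by positivity, ?_⟩
  intro N y δ δ0 m hN h0 hm hs hδ S hS
  have hN' : (1 : ℝ) ≤ N := by exact_mod_cast hN
  have hmN : 1 ≤ m * N := by nlinarith
  have s1 : ∑ n ∈ Finset.Icc 1 N, ∫ u in (0 : ℝ)..1, ‖∑ t ∈ S, ph t (y n + δ n * u)‖ ^ 2 ≤
      ∑ n ∈ Finset.Icc 1 N, δ0⁻¹ * ∫ x in Set.Ioc (y n) (y n + 1), besG S x :=
    Finset.sum_le_sum fun n hn => bes_one S (y n) (δ n) δ0 h0 (hδ n hn).1 (hδ n hn).2
  have s2 := bes_points S N y m hs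
  have s3 := bes_interval C S hC0 (fun c => hC S c hS) (m * N + 1) (by linarith)
  have h4 : 0 ≤ C * (S.card : ℝ) := by positivity
  calc ∑ n ∈ Finset.Icc 1 N, ∫ u in (0 : ℝ)..1, ‖∑ t ∈ S, ph t (y n + δ n * u)‖ ^ 2
      ≤ ∑ n ∈ Finset.Icc 1 N, δ0⁻¹ * ∫ x in Set.Ioc (y n) (y n + 1), besG S x := s1
    _ = δ0⁻¹ * ∑ n ∈ Finset.Icc 1 N, ∫ x in Set.Ioc (y n) (y n + 1), besG S x := by rw [Finset.mul_sum]
    _ ≤ δ0⁻¹ * (m * (2 * Real.exp 1 * (m * N + 1) * (C * S.card))) := by
        refine mul_le_mul_of_nonneg_left (s2.trans ?_) (inv_nonneg.2 h0.le)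
        exact mul_le_mul_of_nonneg_left s3 (by linarith)
    _ ≤ δ0⁻¹ * (m * (2 * Real.exp 1 * (2 * (m * N)) * (C * S.card))) := by
        refine mul_le_mul_of_nonneg_left ?_ (inv_nonneg.2 h0.le)
        refine mul_le_mul_of_nonneg_left ?_ (by linarith)
        refine mul_le_mul_of_nonneg_right ?_ h4
        exact mul_le_mul_of_nonneg_left (by linarith) (by positivity)
    _ = _ := by
        rw [div_eq_mul_inv]
        ring

end Pool.Agent.N282.PM
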