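import Pool.Agent.N282.PM.Defs

/-!
# Project PM: statements of the parts (helper282)
-/

set_option autoImplicit false

open MeasureTheory Filter Topology Classical

namespace Pool.Agent.N282.PM

/-! ## A sampling theorem -/

/-- approximation of a mean by the mean of a random sample -/
def S_MAU : Prop := ∀ (ι : Type) (A : Finset ι) (v : ι → ℂ) (S : ℕ) (η : ℝ), A.Nonempty → (∀ t ∈ A, ‖v t‖ ≤ 1) →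
  1 ≤ S → 0 < η →
  (((Fintype.piFinset fun _ : Fin S => A).filter fun τ =>
    η < ‖(1 / (A.card : ℂ)) * ∑ t ∈ A, v t - (1 / (S : ℂ)) * ∑ i, v (τ i)‖).card : ℝ) ≤
      4 * Real.exp (-(S * η ^ 2 / 16)) * (A.card : ℝ) ^ S

/-- many independent events -/
def S_POI : Prop := ∀ (Ω : Type) (_ : MeasurableSpace Ω) (P : Measure Ω) (_ : IsProbabilityMeasure P) (N : ℕ)
  (E : Fin N → Set Ω) (μ : ℝ), (∀ n, MeasurableSet (E n)) → ProbabilityTheory.iIndepSet E P →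
  ∑ n, (P (E n)).toReal ≤ μ → ∀ m : ℕ, 1 ≤ m →
    (P {ω | m ≤ (Finset.univ.filter fun n => ω ∈ E n).card}).toReal ≤ (Real.exp 1 * μ / m) ^ m

/-- level sets -/
def S_LEV : Prop := ∀ (ι : Type) (_ : Fintype ι) (Ω : Type) (_ : MeasurableSpace Ω) (P : Measure Ω)
  (_ : IsProbabilityMeasure P) (N : ℕ) (Y : Fin N → Ω → ι → ℂ) (M Λ : ℝ) (R j : ℕ), (∀ n, Measurable (Y n)) →
  ProbabilityTheory.iIndepFun Y P → (∀ n ω t, ‖Y n ω t‖ ≤ 1) → 1 ≤ M → 1 ≤ Λ →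
  (Fintype.card ι : ℝ) ≤ Real.exp Λ → (N : ℝ) ≤ Real.exp Λ → 2 ^ j ≤ R →
    (P {ω | ∃ A : Finset ι, A.card = R ∧ (∑ n, ∫ ω', ‖∑ t ∈ A, Y n ω' t‖ ^ 2 ∂P) ≤ M * R ∧
      1300 * Λ ^ 2 * (M + R) * R / 4 ^ j ≤
        ((Finset.univ.filter fun n => (2 : ℝ) ^ j ≤ ‖∑ t ∈ A, Y n ω t‖).card : ℝ)}).toReal ≤ Real.exp (-(9 * Λ))

/-- the sampling theorem: sums over arbitrary sets of frequencies -/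
def S_SMP : Prop := ∃ C : ℝ, 0 < C ∧ ∀ (ι : Type) (_ : Fintype ι) (Ω : Type) (_ : MeasurableSpace Ω) (P : Measure Ω)
  (_ : IsProbabilityMeasure P) (N : ℕ) (Y : Fin N → Ω → ι → ℂ) (M Λ : ℝ), (∀ n, Measurable (Y n)) →
  ProbabilityTheory.iIndepFun Y P → (∀ n ω t, ‖Y n ω t‖ ≤ 1) → 1 ≤ M → (N : ℝ) ≤ M → 1 ≤ Λ →
  (Fintype.card ι : ℝ) ≤ Real.exp Λ → (N : ℝ) ≤ Real.exp Λ →
    (P {ω | ¬ ∀ A : Finset ι, (∑ n, ∫ ω', ‖∑ t ∈ A, Y n ω' t‖ ^ 2 ∂P) ≤ M * A.card →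
      ∑ n, ‖∑ t ∈ A, Y n ω t‖ ^ 2 ≤ C * Λ ^ 3 * (M + A.card) * A.card}).toReal ≤ Real.exp (-(2 * Λ))

/-- from sets of frequencies to coefficients -/
def S_DYA : Prop := ∃ C : ℝ, 0 < C ∧ ∀ (ι : Type) (N : ℕ) (y : Fin N → ι → ℂ) (S : Finset ι) (K M : ℝ), 0 ≤ K →
  0 ≤ M → (∀ A ⊆ S, ∑ n, ‖∑ t ∈ A, y n t‖ ^ 2 ≤ K * (M + A.card) * A.card) → ∀ b : ι → ℂ,
    ∑ n, ‖∑ t ∈ S, b t * y n t‖ ^ 2 ≤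
      C * K * (1 + Real.log (1 + S.card)) ^ 2 * (M + S.card) * ∑ t ∈ S, ‖b t‖ ^ 2

/-- duality -/
def S_DUAL : Prop := ∀ (ι : Type) (N : ℕ) (y : Fin N → ι → ℂ) (S : Finset ι) (B : ℝ), 0 ≤ B →
  (∀ b : ι → ℂ, ∑ n, ‖∑ t ∈ S, b t * y n t‖ ^ 2 ≤ B * ∑ t ∈ S, ‖b t‖ ^ 2) → ∀ a : Fin N → ℂ,
    ∑ t ∈ S, ‖∑ n, a n * y n t‖ ^ 2 ≤ B * ∑ n, ‖a n‖ ^ 2

/-! ## Mean values -/

/-- mean value over an interval of length `1` -/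
def S_LOC : Prop := ∃ C : ℝ, 0 < C ∧ ∀ (S : Finset ℝ) (c : ℝ), Sep (1 / 2) S →
  ∫ v in c..(c + 1), ‖∑ t ∈ S, Complex.exp (Complex.I * t * v)‖ ^ 2 ≤ C * S.card

/-- the mean square at the perturbed points -/
def S_BES : Prop := ∃ C : ℝ, 0 < C ∧ ∀ (N : ℕ) (y δ : ℕ → ℝ) (δ0 m : ℝ), 1 ≤ N → 0 < δ0 → 1 ≤ m → Spread y m N →
  (∀ n ∈ Finset.Icc 1 N, δ0 ≤ δ n ∧ δ n ≤ 1) → ∀ S : Finset ℝ, Sep (1 / 2) S →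
    ∑ n ∈ Finset.Icc 1 N, ∫ u in (0 : ℝ)..1, ‖∑ t ∈ S, ph t (y n + δ n * u)‖ ^ 2 ≤
      C * m ^ 2 * (N / δ0) * S.card

/-! ## The theorems -/

/-- one `N`: with probability at least `1 - N ^ (-A)` the inequality holds for all coefficients and all sets -/
def S_MAIN : Prop := ∀ A : ℝ, 0 < A → ∃ C : ℝ, 0 < C ∧ ∀ (Ω : Type) (_ : MeasurableSpace Ω) (P : Measure Ω)
  (_ : IsProbabilityMeasure P) (U : ℕ → Ω → ℝ) (y δ : ℕ → ℝ) (δ0 m : ℝ) (N : ℕ), (∀ n, Measurable (U n)) →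
  ProbabilityTheory.iIndepFun U P → (∀ n, P.map (U n) = volume.restrict (Set.Icc 0 1)) → 2 ≤ N → 0 < δ0 → 1 ≤ m →
  Spread y m N → (∀ n ∈ Finset.Icc 1 N, δ0 ≤ δ n ∧ δ n ≤ 1) →
    (P {ω | ¬ ∀ S : Finset ℝ, (∀ t ∈ S, 0 ≤ t ∧ t ≤ (N : ℝ) ^ A) → Sep 1 S → ∀ a : ℕ → ℂ,
      ∑ t ∈ S, ‖DP (pt y δ U ω) a N t‖ ^ 2 ≤
        C * m ^ 3 * (Real.log N) ^ 5 * (N / δ0 + S.card) * ∑ n ∈ Finset.Icc 1 N, ‖a n‖ ^ 2}).toReal ≤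
      (N : ℝ) ^ (-A)

/-- all `N`, almost surely -/
def S_AS : Prop := ∀ (Ω : Type) (_ : MeasurableSpace Ω) (P : Measure Ω) (_ : IsProbabilityMeasure P)
  (U : ℕ → Ω → ℝ) (y δ : ℕ → ℝ) (m : ℝ), (∀ n, Measurable (U n)) → ProbabilityTheory.iIndepFun U P →
  (∀ n, P.map (U n) = volume.restrict (Set.Icc 0 1)) → 1 ≤ m → (∀ N, Spread y m N) →
  (∀ n, 0 < δ n ∧ δ n ≤ 1) → (∀ ε : ℝ, 0 < ε → ∃ c : ℝ, 0 < c ∧ ∀ n : ℕ, 1 ≤ n → c * (n : ℝ) ^ (-ε) ≤ δ n) →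
    ∀ᵐ ω ∂P, Good (pt y δ U ω)

/-- large values: Montgomery's large value conjecture (MP_ecd12e_nt) -/
def S_LVQ : Prop := ∀ x : ℕ → ℝ, Good x → ∀ A σ ε : ℝ, 0 < A → 1 / 2 < σ → 0 < ε → ∃ C : ℝ, ∀ (N : ℕ) (T : ℝ),
  1 ≤ N → T ≤ (N : ℝ) ^ A → ∀ (b : ℕ → ℂ) (W : Finset ℤ), ∑ n ∈ Finset.Icc N (2 * N), ‖b n‖ ^ 2 ≤ N + 1 →
    (∀ t ∈ W, 0 ≤ t ∧ (t : ℝ) ≤ T ∧ (N : ℝ) ^ σ < ‖∑ n ∈ Finset.Icc N (2 * N), b n * ph t (x n)‖) →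
      (W.card : ℝ) ≤ C * (N : ℝ) ^ (2 - 2 * σ + ε)

/-- moments: Montgomery's `ℓ^q` conjecture (MP_2a1f0e_nt) -/
def S_LQ : Prop := ∀ x : ℕ → ℝ, Good x → ∀ q A ε : ℝ, 2 ≤ q → 1 ≤ A → 0 < ε → ∃ K : ℝ, ∀ (N T : ℕ),
  1 ≤ N → N ≤ T → (T : ℝ) ≤ (N : ℝ) ^ A → ∀ b : ℕ → ℂ, ∑ n ∈ Finset.Icc N (2 * N), ‖b n‖ ^ 2 ≤ N + 1 →
    ∑ t ∈ Finset.Icc 1 T, ‖∑ n ∈ Finset.Icc N (2 * N), b n * ph t (x n)‖ ^ q ≤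
      K * (N : ℝ) ^ ε * ((N : ℝ) ^ q + (N : ℝ) ^ (q / 2) * T)

/-- well-spaced points (MP_a93a41_nt) -/
def S_WS : Prop := ∀ x : ℕ → ℝ, Good x → ∀ ε κ : ℝ, 0 < ε → 0 < κ → ∃ C : ℝ, ∀ (N : ℕ) (T V : ℝ), 1 ≤ N → 1 ≤ T →
  0 < V → (N : ℝ) ^ κ ≤ T → N * T ^ ε ≤ V ^ 2 → ∀ (a : ℕ → ℂ) (S : Finset ℝ),
    ∑ n ∈ Finset.Icc 1 N, ‖a n‖ ^ 2 ≤ N → (∀ t ∈ S, 0 ≤ t ∧ t ≤ T) → Sep 1 S →
    (∀ t ∈ S, V ≤ ‖∑ n ∈ Finset.Icc 1 N, a n * ph (-t) (x n)‖) →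
      (S.card : ℝ) ≤ C * (N : ℝ) ^ 2 * V ^ (-2 : ℤ) * T ^ ε

end Pool.Agent.N282.PM
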