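import Mathlib
import Pool.Agent.N282.PM.Stm

/-!
# Project PM, part DUAL: duality (helper954)
-/

set_option autoImplicit false

namespace Pool.Agent.N282.PM

open Finset

theorem t_DUAL : S_DUAL := by
  intro ι N y S B hB h a
  set D : ι → ℂ := fun t => ∑ n, a n * y n t with hD
  set Q : ℝ := ∑ t ∈ S, ‖D t‖ ^ 2 with hQ
  have hQ0 : 0 ≤ Q := Finset.sum_nonneg fun _ _ => sq_nonneg _
  have hb := h fun t => (starRingEnd ℂ) (D t)
  have hb' : ∑ t ∈ S, ‖(starRingEnd ℂ) (D t)‖ ^ 2 = Q := by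
    rw [hQ]
    exact Finset.sum_congr rfl fun t _ => by rw [RCLike.norm_conj]
  rw [hb'] at hb
  have h1 : (Q : ℂ) = ∑ n, a n * ∑ t ∈ S, (starRingEnd ℂ) (D t) * y n t := by
    have e1 : (Q : ℂ) = ∑ t ∈ S, (starRingEnd ℂ) (D t) * D t := by
      rw [hQ]
      push_cast
      refine Finset.sum_congr rfl fun t _ => ?_
      rw [← Complex.normSq_eq_conj_mul_self, Complex.normSq_eq_norm_sq]
      push_cast
      rfl
    rw [e1]
    have e2 : ∀ t, (starRingEnd ℂ) (D t) * D t = ∑ n, a n * ((starRingEnd ℂ) (D t) * y n t) := by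
      intro t
      have : D t = ∑ n, a n * y n t := rfl
      conv_lhs => rw [this]
      rw [Finset.mul_sum]
      refine Finset.sum_congr rfl fun n _ => ?_
      rw [← this]; ring
    simp only [e2]
    rw [Finset.sum_comm]
    refine Finset.sum_congr rfl fun n _ => ?_
    rw [Finset.mul_sum]
  have h2 : Q ≤ ∑ n, ‖a n‖ * ‖∑ t ∈ S, (starRingEnd ℂ) (D t) * y n t‖ := by
    calc Q = ‖(Q : ℂ)‖ := by rw [Complex.norm_real, Real.norm_of_nonneg hQ0]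
      _ = ‖∑ n, a n * ∑ t ∈ S, (starRingEnd ℂ) (D t) * y n t‖ := by rw [← h1]
      _ ≤ _ := (norm_sum_le _ _).trans (le_of_eq (Finset.sum_congr rfl fun n _ => norm_mul _ _))
  have h3 : Q ^ 2 ≤ (∑ n, ‖a n‖ ^ 2) * (B * Q) := by
    calc Q ^ 2 ≤ (∑ n, ‖a n‖ * ‖∑ t ∈ S, (starRingEnd ℂ) (D t) * y n t‖) ^ 2 :=
          pow_le_pow_left₀ hQ0 h2 2
      _ ≤ (∑ n, ‖a n‖ ^ 2) * ∑ n, ‖∑ t ∈ S, (starRingEnd ℂ) (D t) * y n t‖ ^ 2 :=
          Finset.sum_mul_sq_le_sq_mul_sq _ _ _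
      _ ≤ _ := mul_le_mul_of_nonneg_left hb (Finset.sum_nonneg fun _ _ => sq_nonneg _)
  have hA : 0 ≤ ∑ n, ‖a n‖ ^ 2 := Finset.sum_nonneg fun _ _ => sq_nonneg _
  rcases hQ0.eq_or_lt with h0 | h0
  · rw [← h0]; positivity
  · have h4 : Q * Q ≤ (B * ∑ n, ‖a n‖ ^ 2) * Q := by nlinarith
    exact le_of_mul_le_mul_right h4 h0

end Pool.Agent.N282.PM
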