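import Pool.Agent.N282.PM.Stm

/-!
# Project PM (helper282): from sets of frequencies to coefficients

Written by helper615.
-/

set_option autoImplicit false

open MeasureTheory Filter Topology Classical

namespace Pool.Agent.N282.PM

section

variable {ι : Type} {N : ℕ} (y : Fin N → ι → ℂ) (S : Finset ι)

/-- the vector of the sums -/
noncomputable def dya_L (b : ι → ℂ) : EuclideanSpace ℂ (Fin N) :=
  WithLp.toLp 2 fun n => ∑ t ∈ S, b t * y n t

theorem dya_add (b c : ι → ℂ) :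
    dya_L y S (fun t => b t + c t) = dya_L y S b + dya_L y S c := by
  unfold dya_L
  ext n
  simp only [PiLp.add_apply]
  rw [← Finset.sum_add_distrib]
  exact Finset.sum_congr rfl fun t _ => by ring

theorem dya_smul (z : ℂ) (b : ι → ℂ) :
    dya_L y S (fun t => z * b t) = z • dya_L y S b := by
  unfold dya_L
  ext n
  simp only [PiLp.smul_apply, smul_eq_mul]
  rw [Finset.mul_sum]
  exact Finset.sum_congr rfl fun t _ => by ring

theorem dya_norm (b : ι → ℂ) : ‖dya_L y S b‖ ^ 2 = ∑ n, ‖∑ t ∈ S, b t * y n t‖ ^ 2 := by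
  rw [EuclideanSpace.norm_sq_eq]
  rfl

theorem dya_ind {A : Finset ι} (hA : A ⊆ S) :
    ‖dya_L y S (fun t => if t ∈ A then 1 else 0)‖ ^ 2 = ∑ n, ‖∑ t ∈ A, y n t‖ ^ 2 := by
  rw [dya_norm]
  refine Finset.sum_congr rfl fun n _ => ?_
  congr 2
  simp only [ite_mul, one_mul, zero_mul]
  rw [← Finset.sum_filter]
  congr 1
  ext t
  rw [Finset.mem_filter]
  exact ⟨fun h => h.2, fun h => ⟨hA h, h⟩⟩

variable {K M : ℝ} (hK : 0 ≤ K) (hM : 0 ≤ M)
  (h : ∀ A ⊆ S, ∑ n, ‖∑ t ∈ A, y n t‖ ^ 2 ≤ K * (M + A.card) * A.card)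

include hK hM h

theorem dya_set {A : Finset ι} (hA : A ⊆ S) :
    ‖dya_L y S (fun t => if t ∈ A then 1 else 0)‖ ≤ √(K * (M + S.card)) * √(A.card) := by
  rw [← Real.sqrt_mul (by positivity)]
  apply Real.le_sqrt_of_sq_le
  rw [dya_ind y S hA]
  refine (h A hA).trans ?_
  have h1 : (A.card : ℝ) ≤ S.card := by exact_mod_cast Finset.card_le_card hA
  gcongr

/-- the sum over the elements -/
theorem dya_zero (c : ι → ℝ) (i : ℕ) (hc : ∀ t ∈ S, 0 ≤ c t ∧ c t ≤ (1 / 2) ^ i) :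
    ‖dya_L y S (fun t => (c t : ℂ))‖ ≤ S.card * (1 / 2) ^ i * √(K * (M + S.card)) := by
  have key : ∀ B ⊆ S, ‖dya_L y B (fun t => (c t : ℂ))‖ ≤
      B.card * (1 / 2) ^ i * √(K * (M + S.card)) := by
    intro B
    induction B using Finset.induction_on with
    | empty =>
      intro _
      have : dya_L y ∅ (fun t => (c t : ℂ)) = 0 := by
        unfold dya_L
        ext n
        simp
      rw [this, norm_zero]
      positivity
    | insert a B ha ih =>
      intro hB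
      have haS : a ∈ S := hB (Finset.mem_insert_self _ _)
      have hBS : B ⊆ S := (Finset.subset_insert _ _).trans hB
      have e : dya_L y (insert a B) (fun t => (c t : ℂ)) =
          (c a : ℂ) • dya_L y {a} (fun t => if t ∈ ({a} : Finset ι) then 1 else 0) +
            dya_L y B (fun t => (c t : ℂ)) := by
        unfold dya_L
        ext n
        simp only [PiLp.add_apply, PiLp.smul_apply, smul_eq_mul]
        rw [Finset.sum_insert ha]
        simp
      rw [e]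
      have h1 : ‖dya_L y {a} (fun t => if t ∈ ({a} : Finset ι) then 1 else 0)‖ ≤
          √(K * (M + S.card)) := by
        apply Real.le_sqrt_of_sq_le
        rw [dya_ind y {a} (Finset.Subset.refl _)]
        refine (h {a} (Finset.singleton_subset_iff.2 haS)).trans ?_
        rw [Finset.card_singleton]
        have h2 : (1 : ℝ) ≤ S.card := by
          exact_mod_cast Finset.card_pos.2 ⟨a, haS⟩
        push_cast
        rw [mul_one]
        gcongr
      have h2 : ‖(c a : ℂ)‖ ≤ (1 / 2) ^ i := by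
        rw [Complex.norm_real, Real.norm_of_nonneg (hc a haS).1]
        exact (hc a haS).2
      refine (norm_add_le _ _).trans ?_
      rw [norm_smul, Finset.card_insert_of_notMem ha]
      push_cast
      calc ‖(c a : ℂ)‖ * ‖dya_L y {a} (fun t => if t ∈ ({a} : Finset ι) then 1 else 0)‖ +
            ‖dya_L y B (fun t => (c t : ℂ))‖
          ≤ (1 / 2) ^ i * √(K * (M + S.card)) + B.card * (1 / 2) ^ i * √(K * (M + S.card)) := by
            refine add_le_add ?_ (ih hBS)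
            gcongr
        _ = (B.card + 1) * (1 / 2) ^ i * √(K * (M + S.card)) := by ring
  exact key S (Finset.Subset.refl _)

/-- binary digits -/
theorem dya_dig (J : ℕ) : ∀ (c : ι → ℝ) (i : ℕ), (∀ t ∈ S, 0 ≤ c t ∧ c t ≤ (1 / 2) ^ i) →
    ∑ t ∈ S, c t ^ 2 ≤ 1 →
    ‖dya_L y S (fun t => (c t : ℂ))‖ ≤
      (J + S.card * (1 / 2) ^ (i + J)) * √(K * (M + S.card)) := by
  induction J with
  | zero =>
    intro c i hc _
    refine (dya_zero y S hK hM h c i hc).trans (le_of_eq ?_)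
    simp
  | succ J ih =>
    intro c i hc hsum
    obtain ⟨A, hA⟩ : ∃ A, A = S.filter fun t => (1 / 2 : ℝ) ^ (i + 1) ≤ c t := ⟨_, rfl⟩
    have hAS : A ⊆ S := by rw [hA]; exact Finset.filter_subset _ _
    obtain ⟨c', hc'⟩ : ∃ c' : ι → ℝ, ∀ t, c' t = c t - (1 / 2) ^ (i + 1) * (if t ∈ A then 1 else 0) :=
      ⟨_, fun _ => rfl⟩
    have h1 : ∀ t ∈ S, 0 ≤ c' t ∧ c' t ≤ (1 / 2) ^ (i + 1) ∧ c' t ≤ c t := by
      intro t ht
      rw [hc']
      have h2 := hc t ht
      have h3 : (1 / 2 : ℝ) ^ i = 2 * (1 / 2) ^ (i + 1) := by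
        rw [pow_succ]
        ring
      have h4 : (0 : ℝ) < (1 / 2) ^ (i + 1) := by positivity
      by_cases htA : t ∈ A
      · rw [if_pos htA, mul_one]
        rw [hA, Finset.mem_filter] at htA
        refine ⟨by linarith [htA.2], by linarith [h2.2], by linarith⟩
      · rw [if_neg htA, mul_zero, sub_zero]
        have h5 : ¬ (1 / 2 : ℝ) ^ (i + 1) ≤ c t := by
          intro h6
          apply htA
          rw [hA, Finset.mem_filter]
          exact ⟨ht, h6⟩
        exact ⟨h2.1, (not_le.1 h5).le, le_rfl⟩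
    have h2 : ∑ t ∈ S, c' t ^ 2 ≤ 1 := by
      refine le_trans (Finset.sum_le_sum fun t ht => ?_) hsum
      obtain ⟨a1, -, a3⟩ := h1 t ht
      exact pow_le_pow_left₀ a1 a3 2
    have h3 := ih c' (i + 1) (fun t ht => ⟨(h1 t ht).1, (h1 t ht).2.1⟩) h2
    have e : dya_L y S (fun t => (c t : ℂ)) =
        ((1 / 2 : ℝ) ^ (i + 1) : ℂ) • dya_L y S (fun t => if t ∈ A then 1 else 0) +
          dya_L y S (fun t => (c' t : ℂ)) := by
      rw [← dya_smul, ← dya_add]
      congr 1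
      funext t
      rw [hc']
      by_cases htA : t ∈ A
      · simp [htA]
      · simp [htA]
    have h4 : (A.card : ℝ) * ((1 / 2 : ℝ) ^ (i + 1)) ^ 2 ≤ 1 := by
      calc (A.card : ℝ) * ((1 / 2 : ℝ) ^ (i + 1)) ^ 2 = ∑ _t ∈ A, ((1 / 2 : ℝ) ^ (i + 1)) ^ 2 := by
            rw [Finset.sum_const, nsmul_eq_mul]
        _ ≤ ∑ t ∈ A, c t ^ 2 := by
            refine Finset.sum_le_sum fun t ht => ?_
            rw [hA, Finset.mem_filter] at ht
            exact pow_le_pow_left₀ (by positivity) ht.2 2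
        _ ≤ ∑ t ∈ S, c t ^ 2 := Finset.sum_le_sum_of_subset_of_nonneg hAS fun _ _ _ => sq_nonneg _
        _ ≤ 1 := hsum
    have h5 : (1 / 2 : ℝ) ^ (i + 1) * √(A.card) ≤ 1 := by
      have h6 : ((1 / 2 : ℝ) ^ (i + 1) * √(A.card)) ^ 2 ≤ 1 ^ 2 := by
        rw [mul_pow, Real.sq_sqrt (Nat.cast_nonneg _), one_pow]
        linarith
      exact le_of_sq_le_sq h6 (by norm_num)
    have h6 := dya_set y S hK hM h hAS
    rw [e]
    refine (norm_add_le _ _).trans ?_
    rw [norm_smul]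
    have h7 : ‖(((1 / 2 : ℝ) ^ (i + 1) : ℂ))‖ = (1 / 2 : ℝ) ^ (i + 1) := by
      simp
    rw [h7]
    have h8 : (1 / 2 : ℝ) ^ (i + 1) * ‖dya_L y S (fun t => if t ∈ A then 1 else 0)‖ ≤
        √(K * (M + S.card)) := by
      calc (1 / 2 : ℝ) ^ (i + 1) * ‖dya_L y S (fun t => if t ∈ A then 1 else 0)‖
          ≤ (1 / 2 : ℝ) ^ (i + 1) * (√(K * (M + S.card)) * √(A.card)) := by gcongr
        _ = ((1 / 2 : ℝ) ^ (i + 1) * √(A.card)) * √(K * (M + S.card)) := by ring
        _ ≤ 1 * √(K * (M + S.card)) := by gcongr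
        _ = _ := one_mul _
    have e2 : i + 1 + J = i + (J + 1) := by ring
    rw [e2] at h3
    push_cast
    calc _ ≤ √(K * (M + S.card)) + (J + S.card * (1 / 2) ^ (i + (J + 1))) * √(K * (M + S.card)) :=
          add_le_add h8 h3
      _ = _ := by ring

/-- functions with values in `[0, 1]` -/
theorem dya_real (c : ι → ℝ) (hc : ∀ t ∈ S, 0 ≤ c t ∧ c t ≤ 1) (hsum : ∑ t ∈ S, c t ^ 2 ≤ 1) :
    ‖dya_L y S (fun t => (c t : ℂ))‖ ≤
      (2 * (1 + Real.log (1 + S.card))) * √(K * (M + S.card)) := by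
  refine (dya_dig y S hK hM h (Nat.log 2 S.card + 1) c 0 (fun t ht => by
    rw [pow_zero]; exact hc t ht) hsum).trans ?_
  apply mul_le_mul_of_nonneg_right _ (Real.sqrt_nonneg _)
  have h1 : (S.card : ℝ) * (1 / 2) ^ (0 + (Nat.log 2 S.card + 1)) ≤ 1 := by
    have h2 : S.card < 2 ^ (Nat.log 2 S.card + 1) := Nat.lt_pow_succ_log_self (by norm_num) _
    have h3 : (S.card : ℝ) ≤ 2 ^ (Nat.log 2 S.card + 1) := by exact_mod_cast h2.le
    rw [zero_add, one_div, inv_pow, ← div_eq_mul_inv, div_le_one (by positivity)]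
    exact h3
  have h2 : (Nat.log 2 S.card : ℝ) ≤ 2 * Real.log (1 + S.card) := by
    rcases Nat.eq_zero_or_pos S.card with h0 | h0
    · rw [h0]
      simp
    · have h3 : 2 ^ Nat.log 2 S.card ≤ S.card := Nat.pow_log_le_self 2 (by omega)
      have h4 : ((2 : ℝ) ^ Nat.log 2 S.card) ≤ 1 + S.card := by
        have : ((2 ^ Nat.log 2 S.card : ℕ) : ℝ) ≤ S.card := by exact_mod_cast h3
        push_cast at this
        linarith
      have h5 := Real.log_le_log (by positivity) h4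
      rw [Real.log_pow] at h5
      have h6 : (1 / 2 : ℝ) ≤ Real.log 2 := by
        have := Real.log_two_gt_d9
        linarith
      have h7 : (0 : ℝ) ≤ Nat.log 2 S.card := Nat.cast_nonneg _
      nlinarith
  push_cast
  linarith

theorem dya_cplx (b : ι → ℂ) (hsum : ∑ t ∈ S, ‖b t‖ ^ 2 = 1) :
    ‖dya_L y S b‖ ≤ (8 * (1 + Real.log (1 + S.card))) * √(K * (M + S.card)) := by
  have hb1 : ∀ t ∈ S, ‖b t‖ ≤ 1 := by
    intro t ht
    have h1 : ‖b t‖ ^ 2 ≤ 1 := by
      rw [← hsum]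
      exact Finset.single_le_sum (f := fun t => ‖b t‖ ^ 2) (fun _ _ => sq_nonneg _) ht
    have h2 : ‖b t‖ ^ 2 ≤ 1 ^ 2 := by linarith
    exact le_of_sq_le_sq h2 (by norm_num)
  have key : ∀ c : ι → ℝ, (∀ t ∈ S, 0 ≤ c t ∧ c t ≤ ‖b t‖) → ‖dya_L y S (fun t => (c t : ℂ))‖ ≤
      (2 * (1 + Real.log (1 + S.card))) * √(K * (M + S.card)) := by
    intro c hc
    refine dya_real y S hK hM h c (fun t ht => ⟨(hc t ht).1, (hc t ht).2.trans (hb1 t ht)⟩) ?_
    rw [← hsum]
    exact Finset.sum_le_sum fun t ht => pow_le_pow_left₀ (hc t ht).1 (hc t ht).2 2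
  have k1 := key (fun t => max (b t).re 0) (fun t _ => ⟨le_max_right _ _,
    max_le (Complex.re_le_norm _) (norm_nonneg _)⟩)
  have k2 := key (fun t => max (-(b t).re) 0) (fun t _ => ⟨le_max_right _ _,
    max_le ((neg_le_abs _).trans (Complex.abs_re_le_norm _)) (norm_nonneg _)⟩)
  have k3 := key (fun t => max (b t).im 0) (fun t _ => ⟨le_max_right _ _,
    max_le (Complex.im_le_norm _) (norm_nonneg _)⟩)
  have k4 := key (fun t => max (-(b t).im) 0) (fun t _ => ⟨le_max_right _ _,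
    max_le ((neg_le_abs _).trans (Complex.abs_im_le_norm _)) (norm_nonneg _)⟩)
  have hmax : ∀ x : ℝ, max x 0 - max (-x) 0 = x := by
    intro x
    rcases le_total x 0 with hx | hx
    · rw [max_eq_right hx, max_eq_left (by linarith)]
      ring
    · rw [max_eq_left hx, max_eq_right (by linarith)]
      ring
  have e : dya_L y S b = dya_L y S (fun t => ((max (b t).re 0 : ℝ) : ℂ)) +
      (((-1 : ℂ) • dya_L y S (fun t => ((max (-(b t).re) 0 : ℝ) : ℂ))) +
      ((Complex.I • dya_L y S (fun t => ((max (b t).im 0 : ℝ) : ℂ))) +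
      ((-Complex.I) • dya_L y S (fun t => ((max (-(b t).im) 0 : ℝ) : ℂ))))) := by
    rw [← dya_smul, ← dya_smul, ← dya_smul, ← dya_add, ← dya_add, ← dya_add]
    congr 1
    funext t
    have h1 := hmax (b t).re
    have h2 := hmax (b t).im
    have h3 : b t = ((b t).re : ℂ) + ((b t).im : ℂ) * Complex.I := (Complex.re_add_im _).symm
    have h4 : ((b t).re : ℂ) = ((max (b t).re 0 : ℝ) : ℂ) - ((max (-(b t).re) 0 : ℝ) : ℂ) := by
      rw [← Complex.ofReal_sub, h1]
    have h5 : ((b t).im : ℂ) = ((max (b t).im 0 : ℝ) : ℂ) - ((max (-(b t).im) 0 : ℝ) : ℂ) := by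
      rw [← Complex.ofReal_sub, h2]
    rw [h4, h5] at h3
    calc b t = _ := h3
      _ = _ := by ring
  rw [e]
  refine (norm_add_le _ _).trans ?_
  have n1 : ‖(-1 : ℂ) • dya_L y S (fun t => ((max (-(b t).re) 0 : ℝ) : ℂ))‖ =
      ‖dya_L y S (fun t => ((max (-(b t).re) 0 : ℝ) : ℂ))‖ := by
    rw [norm_smul, norm_neg, norm_one, one_mul]
  have n2 : ‖Complex.I • dya_L y S (fun t => ((max (b t).im 0 : ℝ) : ℂ))‖ =
      ‖dya_L y S (fun t => ((max (b t).im 0 : ℝ) : ℂ))‖ := by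
    rw [norm_smul, Complex.norm_I, one_mul]
  have n3 : ‖(-Complex.I) • dya_L y S (fun t => ((max (-(b t).im) 0 : ℝ) : ℂ))‖ =
      ‖dya_L y S (fun t => ((max (-(b t).im) 0 : ℝ) : ℂ))‖ := by
    rw [norm_smul, norm_neg, Complex.norm_I, one_mul]
  have m1 := norm_add_le ((-1 : ℂ) • dya_L y S (fun t => ((max (-(b t).re) 0 : ℝ) : ℂ)))
      ((Complex.I • dya_L y S (fun t => ((max (b t).im 0 : ℝ) : ℂ))) +
      ((-Complex.I) • dya_L y S (fun t => ((max (-(b t).im) 0 : ℝ) : ℂ))))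
  have m2 := norm_add_le (Complex.I • dya_L y S (fun t => ((max (b t).im 0 : ℝ) : ℂ)))
      ((-Complex.I) • dya_L y S (fun t => ((max (-(b t).im) 0 : ℝ) : ℂ)))
  rw [n2, n3] at m2
  rw [n1] at m1
  linarith

end

theorem t_DYA : S_DYA := by
  refine ⟨64, by norm_num, fun ι N y S K M hK hM h b => ?_⟩
  obtain ⟨B, hB⟩ : ∃ B, B = ∑ t ∈ S, ‖b t‖ ^ 2 := ⟨_, rfl⟩
  have hB0 : 0 ≤ B := by rw [hB]; exact Finset.sum_nonneg fun _ _ => sq_nonneg _
  rw [← dya_norm, ← hB]
  rcases hB0.eq_or_lt with h0 | h0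
  · have hb : ∀ t ∈ S, b t = 0 := by
      intro t ht
      have h1 : ∀ t ∈ S, ‖b t‖ ^ 2 = 0 :=
        (Finset.sum_eq_zero_iff_of_nonneg fun _ _ => sq_nonneg _).1 (by rw [← hB, ← h0])
      exact norm_eq_zero.1 (pow_eq_zero_iff (two_ne_zero) |>.1 (h1 t ht))
    rw [dya_norm, ← h0, mul_zero]
    apply le_of_eq
    refine Finset.sum_eq_zero fun n _ => ?_
    rw [Finset.sum_eq_zero fun t ht => by rw [hb t ht, zero_mul], norm_zero]
    norm_num
  · have hs : 0 < √B := Real.sqrt_pos.2 h0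
    obtain ⟨b', hb'⟩ : ∃ b' : ι → ℂ, ∀ t, b' t = (((√B)⁻¹ : ℝ) : ℂ) * b t := ⟨_, fun _ => rfl⟩
    have h1 : ∑ t ∈ S, ‖b' t‖ ^ 2 = 1 := by
      have h2 : ∀ t, ‖b' t‖ ^ 2 = B⁻¹ * ‖b t‖ ^ 2 := by
        intro t
        rw [hb', norm_mul, Complex.norm_real, Real.norm_of_nonneg (by positivity), mul_pow, inv_pow,
          Real.sq_sqrt hB0]
      rw [Finset.sum_congr rfl fun t _ => h2 t, ← Finset.mul_sum, ← hB, inv_mul_cancel₀ h0.ne']
    have h2 := dya_cplx y S hK hM h b' h1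
    have e : dya_L y S b = ((√B : ℝ) : ℂ) • dya_L y S b' := by
      rw [← dya_smul]
      congr 1
      funext t
      rw [hb', ← mul_assoc, ← Complex.ofReal_mul, mul_inv_cancel₀ hs.ne', Complex.ofReal_one,
        one_mul]
    have h3 : ‖dya_L y S b‖ = √B * ‖dya_L y S b'‖ := by
      rw [e, norm_smul, Complex.norm_real, Real.norm_of_nonneg hs.le]
    rw [h3, mul_pow, Real.sq_sqrt hB0]
    have h4 : ‖dya_L y S b'‖ ^ 2 ≤ ((8 * (1 + Real.log (1 + S.card))) * √(K * (M + S.card))) ^ 2 :=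
      pow_le_pow_left₀ (norm_nonneg _) h2 2
    rw [mul_pow, Real.sq_sqrt (by positivity)] at h4
    calc B * ‖dya_L y S b'‖ ^ 2
        ≤ B * ((8 * (1 + Real.log (1 + S.card))) ^ 2 * (K * (M + S.card))) :=
          mul_le_mul_of_nonneg_left h4 hB0
      _ = _ := by ring

end Pool.Agent.N282.PM
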