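import Pool.Agent.N282.PM.Stm

/-!
# Project PM (helper282), part LEV (worker: helper477)
-/

set_option autoImplicit false

open MeasureTheory Filter Topology Classical

namespace Pool.Agent.N282.PM

theorem lev_avg {Ω : Type} [MeasurableSpace Ω] (P : Measure Ω) [IsProbabilityMeasure P] {T : Type}
    (F : Finset T) (B : T → Set Ω) (hB : ∀ τ, MeasurableSet (B τ)) (c : ℝ)
    (hc : ∀ ω, ((F.filter fun τ => ω ∈ B τ).card : ℝ) ≤ c) :
    ∑ τ ∈ F, (P (B τ)).toReal ≤ c := by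
  have h1 : ∀ τ, (P (B τ)).toReal = ∫ ω, (B τ).indicator (fun _ => (1 : ℝ)) ω ∂P := by
    intro τ
    rw [integral_indicator (hB τ)]
    simp [Measure.real]
  have hint : ∀ τ, Integrable (fun ω => (B τ).indicator (fun _ => (1 : ℝ)) ω) P :=
    fun τ => (integrable_const 1).indicator (hB τ)
  calc ∑ τ ∈ F, (P (B τ)).toReal = ∑ τ ∈ F, ∫ ω, (B τ).indicator (fun _ => (1 : ℝ)) ω ∂P :=
        Finset.sum_congr rfl fun τ _ => h1 τ
    _ = ∫ ω, ∑ τ ∈ F, (B τ).indicator (fun _ => (1 : ℝ)) ω ∂P :=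
        (integral_finset_sum F fun τ _ => hint τ).symm
    _ ≤ ∫ _, c ∂P := by
        refine integral_mono (integrable_finset_sum F fun τ _ => hint τ) (integrable_const c)
          fun ω => ?_
        have h2 : ∑ τ ∈ F, (B τ).indicator (fun _ => (1 : ℝ)) ω =
            ((F.filter fun τ => ω ∈ B τ).card : ℝ) := by
          simp [Set.indicator_apply, Finset.sum_ite]
        show ∑ τ ∈ F, (B τ).indicator (fun _ => (1 : ℝ)) ω ≤ c
        rw [h2]
        exact hc ω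
    _ = c := by simp

theorem lev_pick {Ω : Type} [MeasurableSpace Ω] (P : Measure Ω) [IsProbabilityMeasure P] {T : Type}
    (F : Finset T) (hF : F.Nonempty) (N : ℕ) (B : T → Fin N → Set Ω)
    (hB : ∀ τ n, MeasurableSet (B τ n)) (q : ℝ)
    (hq : ∀ n ω, ((F.filter fun τ => ω ∈ B τ n).card : ℝ) ≤ q * F.card) (ω : Ω) (hN : 2 * (N * q) < 1) :
    ∃ τ ∈ F, (∀ n, ω ∉ B τ n) ∧ ∑ n, (P (B τ n)).toReal ≤ 2 * (N * q) := by
  have h1 : ∑ τ ∈ F, ∑ n : Fin N, (if ω ∈ B τ n then (1 : ℝ) else 0) ≤ N * (q * F.card) := by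
    rw [Finset.sum_comm]
    have h2 : ∀ n : Fin N, ∑ τ ∈ F, (if ω ∈ B τ n then (1 : ℝ) else 0) ≤ q * F.card := by
      intro n
      refine le_trans (le_of_eq ?_) (hq n ω)
      simp [Finset.sum_ite]
    refine (Finset.sum_le_sum fun n _ => h2 n).trans ?_
    simp
  have h3 : ∑ τ ∈ F, ∑ n : Fin N, (P (B τ n)).toReal ≤ N * (q * F.card) := by
    rw [Finset.sum_comm]
    refine (Finset.sum_le_sum fun n _ => lev_avg P F (fun τ => B τ n) (fun τ => hB τ n) _
      (hq n)).trans ?_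
    simp
  have h4 : ∑ τ ∈ F, (∑ n : Fin N, (if ω ∈ B τ n then (1 : ℝ) else 0) +
      ∑ n : Fin N, (P (B τ n)).toReal) ≤ ∑ τ ∈ F, 2 * (N * q) := by
    rw [Finset.sum_add_distrib, Finset.sum_const, nsmul_eq_mul]
    linarith
  obtain ⟨τ, hτ, h5⟩ := Finset.exists_le_of_sum_le hF h4
  have h6 : 0 ≤ ∑ n : Fin N, (P (B τ n)).toReal :=
    Finset.sum_nonneg fun _ _ => ENNReal.toReal_nonneg
  have h7 : ∀ n : Fin N, 0 ≤ (if ω ∈ B τ n then (1 : ℝ) else 0) := by
    intro n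
    split_ifs <;> norm_num
  have h8 : 0 ≤ ∑ n : Fin N, (if ω ∈ B τ n then (1 : ℝ) else 0) :=
    Finset.sum_nonneg fun n _ => h7 n
  refine ⟨τ, hτ, fun n hn => ?_, by linarith⟩
  have h9 := Finset.single_le_sum (f := fun n => (if ω ∈ B τ n then (1 : ℝ) else 0))
    (fun n _ => h7 n) (Finset.mem_univ n)
  have h10 : (1 : ℝ) ≤ ∑ n : Fin N, (if ω ∈ B τ n then (1 : ℝ) else 0) := by
    refine le_trans (le_of_eq ?_) h9
    simp [hn]
  linarith

theorem lev_exp : Real.exp 1 * 17 ≤ Real.exp (-3) * 1300 := by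
  have h1 := Real.exp_one_lt_d9
  have h0 := Real.exp_pos 1
  have h2 : Real.exp (-3) * Real.exp 1 ^ 3 = 1 := by
    rw [← Real.exp_nat_mul, ← Real.exp_add]
    norm_num
  have h3 : Real.exp 1 ^ 4 ≤ 2.7182818286 ^ 4 := pow_le_pow_left₀ h0.le h1.le 4
  have h4 : (2.7182818286 : ℝ) ^ 4 ≤ 55 := by norm_num
  have h5 : 0 < Real.exp (-3) := Real.exp_pos _
  have h6 : Real.exp 1 * 17 = Real.exp (-3) * (Real.exp 1 ^ 4 * 17) := by
    calc Real.exp 1 * 17 = (Real.exp (-3) * Real.exp 1 ^ 3) * (Real.exp 1 * 17) := by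
          rw [h2, one_mul]
      _ = _ := by ring
  rw [h6]
  refine mul_le_mul_of_nonneg_left ?_ h5.le
  linarith

theorem lev_indep {Ω ι : Type} [MeasurableSpace Ω] (P : Measure Ω) [IsProbabilityMeasure P] (N : ℕ)
    (Y : Fin N → Ω → ι → ℂ) (hY : ∀ n, Measurable (Y n)) (hind : ProbabilityTheory.iIndepFun Y P)
    (V : Set (ι → ℂ)) (hV : MeasurableSet V) :
    ProbabilityTheory.iIndepSet (fun n => Y n ⁻¹' V) P := by
  rw [ProbabilityTheory.iIndepSet_iff_meas_biInter fun n => hY n hV]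
  intro s
  exact hind.measure_inter_preimage_eq_mul s fun _ _ => hV

theorem t_LEV (h1 : S_MAU) (h2 : S_POI) : S_LEV := by
  intro ι _ Ω _ P _ N Y M Λ R j hY hind hbd hM hΛ hcard hN hR
  obtain ⟨lam, hlam⟩ : ∃ lam : ℝ, lam = 2 ^ j := ⟨_, rfl⟩
  have hlam1 : 1 ≤ lam := by rw [hlam]; exact one_le_pow₀ one_le_two
  have hlam0 : 0 < lam := by linarith
  have h4j : (4 : ℝ) ^ j = lam ^ 2 := by
    rw [hlam, ← pow_mul, mul_comm, pow_mul]
    norm_num
  have hRlam : lam ≤ R := by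
    rw [hlam]
    exact_mod_cast hR
  have hR0 : (0 : ℝ) < R := by linarith
  have hR1 : (1 : ℝ) ≤ R := by linarith
  have hRn : 0 < R := by exact_mod_cast hR0
  obtain ⟨q, hq⟩ : ∃ q : ℝ, q = 1300 * Λ ^ 2 * (M + R) * R / 4 ^ j := ⟨_, rfl⟩
  have hq0 : 0 < q := by
    rw [hq]
    positivity
  obtain ⟨m, hm⟩ : ∃ m : ℕ, m = ⌈q⌉₊ := ⟨_, rfl⟩
  have hm1 : 1 ≤ m := by
    rw [hm]
    exact Nat.one_le_ceil_iff.2 hq0
  have hqm : q ≤ m := by rw [hm]; exact Nat.le_ceil q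
  obtain ⟨S, hS⟩ : ∃ S : ℕ, S = ⌈1280 * Λ * R ^ 2 / lam ^ 2⌉₊ := ⟨_, rfl⟩
  obtain ⟨ρ, hρ⟩ : ∃ ρ : ℝ, ρ = R ^ 2 / lam ^ 2 := ⟨_, rfl⟩
  have hρ1 : 1 ≤ ρ := by
    rw [hρ, one_le_div (by positivity)]
    exact pow_le_pow_left₀ hlam0.le hRlam 2
  have hS1 : 1280 * Λ * ρ ≤ S := by
    rw [hS]
    refine le_trans (le_of_eq ?_) (Nat.le_ceil _)
    rw [hρ]
    ring
  have hS2 : (S : ℝ) ≤ 1281 * Λ * ρ := by
    have h3 : (S : ℝ) < 1280 * Λ * R ^ 2 / lam ^ 2 + 1 := by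
      rw [hS]
      exact Nat.ceil_lt_add_one (by positivity)
    have h4 : 1280 * Λ * R ^ 2 / lam ^ 2 = 1280 * Λ * ρ := by
      rw [hρ]
      ring
    rw [h4] at h3
    have h5 : 1 ≤ Λ * ρ := one_le_mul_of_one_le_of_one_le hΛ hρ1
    linarith
  have hS0 : (0 : ℝ) < S := by
    have : 0 < 1280 * Λ * ρ := by positivity
    linarith
  have hSn : 1 ≤ S := by
    have : 0 < S := by exact_mod_cast hS0
    omega
  obtain ⟨η, hη⟩ : ∃ η : ℝ, η = lam / (4 * R) := ⟨_, rfl⟩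
  have hη0 : 0 < η := by rw [hη]; positivity
  have hSη : 5 * Λ ≤ S * η ^ 2 / 16 := by
    have h3 : 1280 * Λ * ρ * η ^ 2 / 16 = 5 * Λ := by
      rw [hρ, hη]
      field_simp
      norm_num
    have h4 : 1280 * Λ * ρ * η ^ 2 / 16 ≤ S * η ^ 2 / 16 := by
      have := mul_le_mul_of_nonneg_right hS1 (sq_nonneg η)
      linarith
    linarith
  -- the approximations
  obtain ⟨g, hg⟩ : ∃ g : (Fin S → ι) → (ι → ℂ) → ℂ, ∀ τ y, g τ y = ((R : ℂ) / S) * ∑ i, y (τ i) :=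
    ⟨_, fun _ _ => rfl⟩
  have hgm : ∀ τ, Measurable (g τ) := by
    intro τ
    have h3 : g τ = fun y => ((R : ℂ) / S) * ∑ i, y (τ i) := funext (hg τ)
    rw [h3]
    exact (Finset.measurable_sum _ fun i _ => measurable_pi_apply (τ i)).const_mul _
  obtain ⟨μ, hμ⟩ : ∃ μ : (Fin S → ι) → ℝ, ∀ τ, μ τ =
    ∑ n, (P {ω | lam / 2 ≤ ‖g τ (Y n ω)‖}).toReal := ⟨_, fun _ => rfl⟩
  obtain ⟨Adm, hAdm⟩ : ∃ Adm : Finset (Fin S → ι), Adm = Finset.univ.filter fun τ =>
    μ τ ≤ 17 * (M * R / lam ^ 2) := ⟨_, rfl⟩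
  -- every point of the event is in one of the events of the admissible `τ`
  have hcover : {ω | ∃ A : Finset ι, A.card = R ∧
      (∑ n, ∫ ω', ‖∑ t ∈ A, Y n ω' t‖ ^ 2 ∂P) ≤ M * R ∧
      1300 * Λ ^ 2 * (M + R) * R / 4 ^ j ≤
        ((Finset.univ.filter fun n => (2 : ℝ) ^ j ≤ ‖∑ t ∈ A, Y n ω t‖).card : ℝ)} ⊆
      ⋃ τ ∈ Adm, {ω | m ≤ (Finset.univ.filter fun n =>
        ω ∈ {ω | lam / 2 ≤ ‖g τ (Y n ω)‖}).card} := by
    rintro ω ⟨A, hA, hmean, hlarge⟩
    have hAne : A.Nonempty := by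
      rw [← Finset.card_pos, hA]
      exact hRn
    have hRΛ : (R : ℝ) ≤ Real.exp Λ := by
      refine le_trans ?_ hcard
      rw [← hA]
      exact_mod_cast Finset.card_le_univ A
    obtain ⟨F, hFd⟩ : ∃ F : Finset (Fin S → ι), F = Fintype.piFinset fun _ : Fin S => A := ⟨_, rfl⟩
    have hFc : (F.card : ℝ) = (R : ℝ) ^ S := by
      rw [hFd, Fintype.card_piFinset_const, hA]
      push_cast
      rfl
    have hFne : F.Nonempty := by
      rw [hFd]
      exact Fintype.piFinset_nonempty.2 fun _ => hAne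
    obtain ⟨B, hBd⟩ : ∃ B : (Fin S → ι) → Fin N → Set Ω, ∀ τ n, B τ n =
      {ω' | lam / 4 < ‖∑ t ∈ A, Y n ω' t - g τ (Y n ω')‖} := ⟨_, fun _ _ => rfl⟩
    have hfm : ∀ n, Measurable fun ω' => ∑ t ∈ A, Y n ω' t := fun n =>
      Finset.measurable_sum _ fun t _ => (measurable_pi_apply t).comp (hY n)
    have hBm : ∀ τ n, MeasurableSet (B τ n) := by
      intro τ n
      rw [hBd]
      exact measurableSet_lt measurable_const ((hfm n).sub ((hgm τ).comp (hY n))).norm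
    have hcnt : ∀ n ω', ((F.filter fun τ => ω' ∈ B τ n).card : ℝ) ≤
        4 * Real.exp (-(5 * Λ)) * F.card := by
      intro n ω'
      have h3 := h1 ι A (Y n ω') S η hAne (fun t _ => hbd n ω' t) hSn hη0
      have h4 : (F.filter fun τ => ω' ∈ B τ n).card ≤
          ((Fintype.piFinset fun _ : Fin S => A).filter fun τ =>
            η < ‖(1 / (A.card : ℂ)) * ∑ t ∈ A, Y n ω' t -
              (1 / (S : ℂ)) * ∑ i, Y n ω' (τ i)‖).card := by
        refine Finset.card_le_card fun τ hτ => ?_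
        rw [Finset.mem_filter] at hτ ⊢
        refine ⟨by rw [← hFd]; exact hτ.1, ?_⟩
        have h5 := hτ.2
        rw [hBd] at h5
        have h6 : lam / 4 < ‖∑ t ∈ A, Y n ω' t - g τ (Y n ω')‖ := h5
        have hRc : (R : ℂ) ≠ 0 := by exact_mod_cast hRn.ne'
        have h7 : ∑ t ∈ A, Y n ω' t - g τ (Y n ω') = (R : ℂ) *
            ((1 / (A.card : ℂ)) * ∑ t ∈ A, Y n ω' t - (1 / (S : ℂ)) * ∑ i, Y n ω' (τ i)) := by
          rw [hg, hA, mul_sub, ← mul_assoc, mul_one_div_cancel hRc, one_mul]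
          ring
        rw [h7, norm_mul, Complex.norm_natCast] at h6
        rw [hη, div_lt_iff₀ (by positivity)]
        linarith
      have h5 : (((F.filter fun τ => ω' ∈ B τ n).card : ℕ) : ℝ) ≤ _ := (Nat.cast_le.2 h4).trans h3
      refine h5.trans ?_
      rw [hFc, hA]
      refine mul_le_mul_of_nonneg_right ?_ (by positivity)
      refine mul_le_mul_of_nonneg_left ?_ (by norm_num)
      exact Real.exp_le_exp.2 (by linarith)
    have hNq : 2 * (N * (4 * Real.exp (-(5 * Λ)))) ≤ 8 * Real.exp (-(4 * Λ)) := by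
      have h3 : Real.exp (-(4 * Λ)) = Real.exp Λ * Real.exp (-(5 * Λ)) := by
        rw [← Real.exp_add]
        congr 1
        ring
      rw [h3]
      nlinarith [Real.exp_pos (-(5 * Λ))]
    have he4 : Real.exp (-(4 * Λ)) ≤ Real.exp (-Λ) * (1 / 8) := by
      have h3 : Real.exp (-(4 * Λ)) = Real.exp (-Λ) * Real.exp (-(3 * Λ)) := by
        rw [← Real.exp_add]
        congr 1
        ring
      rw [h3]
      refine mul_le_mul_of_nonneg_left ?_ (Real.exp_pos _).le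
      have h4 : 1 + 3 * Λ ≤ Real.exp (3 * Λ) := by
        have := Real.add_one_le_exp (3 * Λ)
        linarith
      have h5 : Real.exp (3 * Λ) ≥ Real.exp 3 := Real.exp_le_exp.2 (by linarith)
      have h6 : (8 : ℝ) ≤ Real.exp 3 := by
        have h7 : Real.exp 3 = Real.exp 1 ^ 3 := by
          rw [← Real.exp_nat_mul]
          norm_num
        rw [h7]
        have h8 : (2 : ℝ) ≤ Real.exp 1 := by
          have := Real.add_one_le_exp (1 : ℝ)
          linarith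
        calc (8 : ℝ) = 2 ^ 3 := by norm_num
          _ ≤ _ := pow_le_pow_left₀ (by norm_num) h8 3
      rw [Real.exp_neg, inv_le_comm₀ (Real.exp_pos _) (by norm_num)]
      norm_num
      linarith
    have heΛ : Real.exp (-Λ) ≤ Real.exp (-1) := Real.exp_le_exp.2 (by linarith)
    have he1 : Real.exp (-1) < 1 := by
      rw [Real.exp_lt_one_iff]
      norm_num
    obtain ⟨τ, hτF, hτ1, hτ2⟩ := lev_pick P F hFne N B hBm _ hcnt ω (by linarith)
    have hbad : ∑ n, (P (B τ n)).toReal ≤ 8 * Real.exp (-(4 * Λ)) := hτ2.trans hNq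
    -- `τ` is admissible
    have hcheb : ∀ n, (P {ω' | lam / 4 ≤ ‖∑ t ∈ A, Y n ω' t‖}).toReal ≤
        16 / lam ^ 2 * ∫ ω', ‖∑ t ∈ A, Y n ω' t‖ ^ 2 ∂P := by
      intro n
      have hint : Integrable (fun ω' => ‖∑ t ∈ A, Y n ω' t‖ ^ 2) P := by
        refine Integrable.of_bound ((hfm n).norm.pow_const 2).aestronglyMeasurable ((R : ℝ) ^ 2)
          (Eventually.of_forall fun ω' => ?_)
        rw [Real.norm_eq_abs, abs_of_nonneg (by positivity)]
        refine pow_le_pow_left₀ (norm_nonneg _) ?_ 2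
        refine (norm_sum_le _ _).trans ((Finset.sum_le_sum fun t _ => hbd n ω' t).trans ?_)
        simp [hA]
      have h3 := mul_meas_ge_le_integral_of_nonneg (μ := P) (f := fun ω' => ‖∑ t ∈ A, Y n ω' t‖ ^ 2)
        (Eventually.of_forall fun ω' => by positivity) hint (lam ^ 2 / 16)
      have h4 : {ω' | lam / 4 ≤ ‖∑ t ∈ A, Y n ω' t‖} ⊆
          {ω' | lam ^ 2 / 16 ≤ ‖∑ t ∈ A, Y n ω' t‖ ^ 2} := by
        intro ω' h5
        have h6 : lam / 4 ≤ ‖∑ t ∈ A, Y n ω' t‖ := h5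
        have h7 := pow_le_pow_left₀ (by positivity) h6 2
        show lam ^ 2 / 16 ≤ ‖∑ t ∈ A, Y n ω' t‖ ^ 2
        refine le_trans (le_of_eq ?_) h7
        ring
      have h5 : (P {ω' | lam / 4 ≤ ‖∑ t ∈ A, Y n ω' t‖}).toReal ≤
          P.real {ω' | lam ^ 2 / 16 ≤ ‖∑ t ∈ A, Y n ω' t‖ ^ 2} :=
        measureReal_mono h4
      refine h5.trans ?_
      rw [div_mul_eq_mul_div, le_div_iff₀ (by positivity)]
      nlinarith
    have hτA : τ ∈ Adm := by
      rw [hAdm, Finset.mem_filter]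
      refine ⟨Finset.mem_univ _, ?_⟩
      rw [hμ]
      have h3 : ∀ n, (P {ω' | lam / 2 ≤ ‖g τ (Y n ω')‖}).toReal ≤
          16 / lam ^ 2 * ∫ ω', ‖∑ t ∈ A, Y n ω' t‖ ^ 2 ∂P + (P (B τ n)).toReal := by
        intro n
        have h4 : {ω' | lam / 2 ≤ ‖g τ (Y n ω')‖} ⊆
            {ω' | lam / 4 ≤ ‖∑ t ∈ A, Y n ω' t‖} ∪ B τ n := by
          intro ω' h5
          have h6 : lam / 2 ≤ ‖g τ (Y n ω')‖ := h5
          by_cases h7 : lam / 4 ≤ ‖∑ t ∈ A, Y n ω' t‖
          · exact Or.inl h7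
          · right
            rw [hBd]
            show lam / 4 < _
            have h8 := norm_sub_norm_le (g τ (Y n ω')) (∑ t ∈ A, Y n ω' t)
            rw [norm_sub_rev] at h8
            push Not at h7
            linarith
        have h5 : P.real {ω' | lam / 2 ≤ ‖g τ (Y n ω')‖} ≤
            P.real {ω' | lam / 4 ≤ ‖∑ t ∈ A, Y n ω' t‖} + P.real (B τ n) :=
          (measureReal_mono h4).trans (measureReal_union_le _ _)
        exact h5.trans (add_le_add (hcheb n) le_rfl)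
      refine (Finset.sum_le_sum fun n _ => h3 n).trans ?_
      rw [Finset.sum_add_distrib, ← Finset.mul_sum]
      have h4 : 16 / lam ^ 2 * ∑ n, ∫ ω', ‖∑ t ∈ A, Y n ω' t‖ ^ 2 ∂P ≤ 16 * (M * R / lam ^ 2) := by
        refine (mul_le_mul_of_nonneg_left hmean (by positivity)).trans (le_of_eq ?_)
        ring
      have h5 : Real.exp (-Λ) ≤ M * R / lam ^ 2 := by
        have h6 : Real.exp (-Λ) ≤ 1 / R := by
          rw [Real.exp_neg, inv_eq_one_div]
          exact one_div_le_one_div_of_le hR0 hRΛ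
        refine h6.trans ?_
        rw [div_le_div_iff₀ hR0 (by positivity)]
        have h7 : lam ^ 2 ≤ (R : ℝ) ^ 2 := pow_le_pow_left₀ hlam0.le hRlam 2
        nlinarith [sq_nonneg (R : ℝ)]
      linarith [hbad, he4]
    rw [Set.mem_iUnion₂]
    refine ⟨τ, hτA, ?_⟩
    show m ≤ _
    have h3 : (Finset.univ.filter fun n => (2 : ℝ) ^ j ≤ ‖∑ t ∈ A, Y n ω t‖).card ≤
        (Finset.univ.filter fun n => ω ∈ {ω | lam / 2 ≤ ‖g τ (Y n ω)‖}).card := by
      refine Finset.card_le_card fun n hn => ?_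
      rw [Finset.mem_filter] at hn ⊢
      refine ⟨Finset.mem_univ _, ?_⟩
      have h4 := hn.2
      rw [← hlam] at h4
      have h5 := hτ1 n
      rw [hBd] at h5
      have h6 : ¬ (lam / 4 < ‖∑ t ∈ A, Y n ω t - g τ (Y n ω)‖) := h5
      have h7 := norm_sub_norm_le (∑ t ∈ A, Y n ω t) (g τ (Y n ω))
      show lam / 2 ≤ ‖g τ (Y n ω)‖
      push Not at h6
      linarith
    rw [hm]
    refine Nat.ceil_le.2 ?_
    rw [hq]
    exact hlarge.trans (Nat.cast_le.2 h3)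
  -- the probability of one event
  have hone : ∀ τ ∈ Adm, P.real {ω | m ≤ (Finset.univ.filter fun n =>
        ω ∈ {ω | lam / 2 ≤ ‖g τ (Y n ω)‖}).card} ≤ Real.exp (-(3 * q)) := by
    intro τ hτ
    rw [hAdm, Finset.mem_filter] at hτ
    obtain ⟨V, hV⟩ : ∃ V : Set (ι → ℂ), V = {y | lam / 2 ≤ ‖g τ y‖} := ⟨_, rfl⟩
    have hVm : MeasurableSet V := by
      rw [hV]
      exact measurableSet_le measurable_const (hgm τ).norm
    have hE : ∀ n, {ω | lam / 2 ≤ ‖g τ (Y n ω)‖} = Y n ⁻¹' V := by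
      intro n
      rw [hV]
      rfl
    have h3 := h2 Ω _ P inferInstance N (fun n => {ω | lam / 2 ≤ ‖g τ (Y n ω)‖}) (17 * (M * R / lam ^ 2))
      (fun n => by rw [hE]; exact hY n hVm)
      (by simp only [hE]; exact lev_indep P N Y hY hind V hVm)
      (by rw [← hμ]; exact hτ.2) m hm1
    refine le_trans h3 ?_
    have hm0 : (0 : ℝ) < m := by exact_mod_cast hm1
    have h4 : Real.exp 1 * (17 * (M * R / lam ^ 2)) / m ≤ Real.exp (-3) := by
      rw [div_le_iff₀ hm0]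
      have h5 : 1300 * (M * R / lam ^ 2) ≤ q := by
        rw [hq, h4j, ← mul_div_assoc]
        refine div_le_div_of_nonneg_right ?_ (by positivity)
        have h6 : 1 ≤ Λ ^ 2 := one_le_pow₀ hΛ
        have h7 : M * R ≤ (M + R) * R := mul_le_mul_of_nonneg_right (by linarith) hR0.le
        have h8 : (M + R) * R ≤ Λ ^ 2 * ((M + R) * R) := le_mul_of_one_le_left (by positivity) h6
        nlinarith
      have h6 : 0 ≤ M * R / lam ^ 2 := by positivity
      calc Real.exp 1 * (17 * (M * R / lam ^ 2)) = (Real.exp 1 * 17) * (M * R / lam ^ 2) := by ring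
        _ ≤ (Real.exp (-3) * 1300) * (M * R / lam ^ 2) := mul_le_mul_of_nonneg_right lev_exp h6
        _ = Real.exp (-3) * (1300 * (M * R / lam ^ 2)) := by ring
        _ ≤ Real.exp (-3) * m :=
            mul_le_mul_of_nonneg_left (h5.trans hqm) (Real.exp_pos _).le
    refine (pow_le_pow_left₀ (by positivity) h4 m).trans ?_
    rw [← Real.exp_nat_mul]
    refine Real.exp_le_exp.2 ?_
    nlinarith
  -- the union bound
  have hfin : P.real {ω | ∃ A : Finset ι, A.card = R ∧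
      (∑ n, ∫ ω', ‖∑ t ∈ A, Y n ω' t‖ ^ 2 ∂P) ≤ M * R ∧
      1300 * Λ ^ 2 * (M + R) * R / 4 ^ j ≤
        ((Finset.univ.filter fun n => (2 : ℝ) ^ j ≤ ‖∑ t ∈ A, Y n ω t‖).card : ℝ)} ≤
      Real.exp (-(9 * Λ)) := by
    refine (measureReal_mono hcover (measure_ne_top P _)).trans ((measureReal_biUnion_finset_le Adm (fun τ =>
      {ω | m ≤ (Finset.univ.filter fun n => ω ∈ {ω | lam / 2 ≤ ‖g τ (Y n ω)‖}).card})).trans ?_)
    refine (Finset.sum_le_sum hone).trans ?_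
    rw [Finset.sum_const, nsmul_eq_mul]
    have h3 : (Adm.card : ℝ) ≤ Real.exp (S * Λ) := by
      have h4 : Adm.card ≤ Fintype.card ι ^ S := by
        refine (Finset.card_le_univ Adm).trans (le_of_eq ?_)
        rw [Fintype.card_fun, Fintype.card_fin]
      have h5 : (Adm.card : ℝ) ≤ (Fintype.card ι : ℝ) ^ S := by exact_mod_cast h4
      refine h5.trans ((pow_le_pow_left₀ (Nat.cast_nonneg _) hcard S).trans (le_of_eq ?_))
      rw [← Real.exp_nat_mul]
    refine (mul_le_mul_of_nonneg_right h3 (Real.exp_pos _).le).trans ?_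
    rw [← Real.exp_add]
    refine Real.exp_le_exp.2 ?_
    have h4 : 1300 * Λ ^ 2 * ρ ≤ q := by
      have h5 : q = 1300 * Λ ^ 2 * ((M + R) * R / lam ^ 2) := by
        rw [hq, h4j]
        ring
      rw [h5, hρ]
      refine mul_le_mul_of_nonneg_left ?_ (by positivity)
      refine div_le_div_of_nonneg_right ?_ (by positivity)
      nlinarith
    have h6 : (S : ℝ) * Λ ≤ 1281 * Λ ^ 2 * ρ := by
      have := mul_le_mul_of_nonneg_right hS2 (by linarith : 0 ≤ Λ)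
      nlinarith
    have h7 : Λ ≤ Λ ^ 2 * ρ := by
      have h8 : Λ ≤ Λ ^ 2 := by nlinarith
      have h9 : Λ ^ 2 ≤ Λ ^ 2 * ρ := le_mul_of_one_le_right (by positivity) hρ1
      linarith
    nlinarith
  exact hfin

end Pool.Agent.N282.PM
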