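import Pool.Agent.N282.PM.Stm

/-!
# Project PM: mean value over an interval of length one (helper615 for helper282)
-/

set_option autoImplicit false

open MeasureTheory Filter Topology Classical

namespace Pool.Agent.N282.PM

/-! ### the Gaussian weight -/

/-- Gaussian exponential integral, integrand in the form used below -/
lemma loc_int (ξ : ℝ) : Integrable fun x : ℝ => Complex.exp (Complex.I * ξ * x) * Complex.exp (-(1 : ℂ) * (x : ℂ) ^ 2) := by
  have h := integrable_cexp_quadratic (b := 1) (by simp) (Complex.I * ξ) 0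
  refine h.congr (Filter.Eventually.of_forall fun x => ?_)
  simp only
  rw [← Complex.exp_add]
  congr 1
  ring

lemma loc_gauss (ξ : ℝ) :
    ‖∫ x : ℝ, Complex.exp (Complex.I * ξ * x) * Complex.exp (-(1 : ℂ) * (x : ℂ) ^ 2)‖ ≤ Real.pi * (4 / (4 + ξ ^ 2)) := by
  rw [fourierIntegral_gaussian (b := 1) (by simp)]
  rw [norm_mul]
  have h1 : ‖((Real.pi : ℂ) / 1) ^ (1 / 2 : ℂ)‖ ≤ Real.pi := by
    rw [div_one, Complex.norm_cpow_eq_rpow_re_of_pos Real.pi_pos]
    have : (1 / 2 : ℂ).re = 1 / 2 := by norm_num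
    rw [this]
    calc Real.pi ^ (1 / 2 : ℝ) ≤ Real.pi ^ (1 : ℝ) :=
          Real.rpow_le_rpow_of_exponent_le (by linarith [Real.pi_gt_three]) (by norm_num)
      _ = Real.pi := Real.rpow_one _
  have h2 : ‖Complex.exp (-(ξ : ℂ) ^ 2 / (4 * 1))‖ ≤ 4 / (4 + ξ ^ 2) := by
    rw [Complex.norm_exp]
    have e : (-(ξ : ℂ) ^ 2 / (4 * 1)).re = -(ξ ^ 2 / 4) := by
      have : (-(ξ : ℂ) ^ 2 / (4 * 1)) = ((-(ξ ^ 2 / 4) : ℝ) : ℂ) := by push_cast; ring
      rw [this, Complex.ofReal_re]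
    rw [e, Real.exp_neg]
    have h3 : ξ ^ 2 / 4 + 1 ≤ Real.exp (ξ ^ 2 / 4) := Real.add_one_le_exp _
    have h4 : (4 : ℝ) / (4 + ξ ^ 2) = (ξ ^ 2 / 4 + 1)⁻¹ := by
      rw [eq_comm, inv_eq_one_div, div_eq_div_iff (by positivity) (by positivity)]
      ring
    rw [h4]
    exact inv_anti₀ (by positivity) h3
  exact mul_le_mul h1 h2 (norm_nonneg _) Real.pi_pos.le

/-! ### the sum over a separated set -/

lemma loc_summable : Summable fun k : ℤ => 32 / (1 + (k : ℝ) ^ 2) := by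
  have h1 : Summable fun k : ℤ => 32 * (1 / (k : ℝ) ^ 2) :=
    (Real.summable_one_div_int_pow.2 (by norm_num)).mul_left 32
  have h2 : Summable fun k : ℤ => if k = 0 then (32 : ℝ) else 0 := (hasSum_ite_eq (0 : ℤ) (32 : ℝ)).summable
  refine Summable.of_nonneg_of_le (fun k => by positivity) (fun k => ?_) (h1.add h2)
  by_cases hk : k = 0
  · simp [hk]
  · have hk' : (0 : ℝ) < (k : ℝ) ^ 2 := by
      have : (k : ℝ) ≠ 0 := by exact_mod_cast hk
      positivity
    rw [if_neg hk, add_zero, mul_one_div]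
    exact div_le_div_of_nonneg_left (by norm_num) hk' (by linarith)

lemma loc_sum (S : Finset ℝ) (hS : Sep (1 / 2) S) (t : ℝ) :
    ∑ u ∈ S, 4 / (4 + (t - u) ^ 2) ≤ ∑' k : ℤ, 32 / (1 + (k : ℝ) ^ 2) := by
  have hinj : Set.InjOn (fun u : ℝ => ⌊2 * (u - t)⌋) (S : Set ℝ) := by
    intro u hu v hv huv
    by_contra hne
    have h1 := hS u (Finset.mem_coe.1 hu) v (Finset.mem_coe.1 hv) hne
    have h2 : |2 * (u - t) - 2 * (v - t)| < 1 := Int.abs_sub_lt_one_of_floor_eq_floor huv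
    have h3 : 2 * (u - t) - 2 * (v - t) = 2 * (u - v) := by ring
    rw [h3, abs_mul, abs_of_pos (by norm_num : (0 : ℝ) < 2)] at h2
    linarith
  calc ∑ u ∈ S, 4 / (4 + (t - u) ^ 2) ≤ ∑ u ∈ S, 32 / (1 + ((⌊2 * (u - t)⌋ : ℤ) : ℝ) ^ 2) := by
        refine Finset.sum_le_sum fun u _ => ?_
        have h1 := Int.floor_le (2 * (u - t))
        have h2 := Int.lt_floor_add_one (2 * (u - t))
        set k : ℝ := ((⌊2 * (u - t)⌋ : ℤ) : ℝ) with hk
        rw [div_le_div_iff₀ (by positivity) (by positivity)]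
        nlinarith [sq_nonneg (k + 2 * (u - t)), sq_nonneg (2 * (u - t) - k - 1), sq_nonneg (u - t),
          mul_nonneg (sub_nonneg.2 h1) (sub_nonneg.2 h2.le)]
    _ = ∑ k ∈ S.image (fun u : ℝ => ⌊2 * (u - t)⌋), 32 / (1 + (k : ℝ) ^ 2) := by
        rw [Finset.sum_image hinj]
    _ ≤ ∑' k : ℤ, 32 / (1 + (k : ℝ) ^ 2) :=
        loc_summable.sum_le_tsum _ fun k _ => by positivity

/-! ### the weighted mean value -/

lemma loc_cont (S : Finset ℝ) (a : ℝ → ℂ) :
    Continuous fun x : ℝ => ‖∑ t ∈ S, a t * Complex.exp (Complex.I * t * x)‖ ^ 2 := by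
  fun_prop

lemma loc_weight (S : Finset ℝ) (hS : Sep (1 / 2) S) (a : ℝ → ℂ) (ha : ∀ t, ‖a t‖ ≤ 1) :
    (Integrable fun x : ℝ => ‖∑ t ∈ S, a t * Complex.exp (Complex.I * t * x)‖ ^ 2 * Real.exp (-x ^ 2)) ∧
    ∫ x : ℝ, ‖∑ t ∈ S, a t * Complex.exp (Complex.I * t * x)‖ ^ 2 * Real.exp (-x ^ 2) ≤
      Real.pi * (∑' k : ℤ, 32 / (1 + (k : ℝ) ^ 2)) * S.card := by
  have key : ∀ x : ℝ, ((‖∑ t ∈ S, a t * Complex.exp (Complex.I * t * x)‖ ^ 2 * Real.exp (-x ^ 2) : ℝ) : ℂ) =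
      ∑ t ∈ S, ∑ u ∈ S, a t * (starRingEnd ℂ) (a u) *
        (Complex.exp (Complex.I * ((t - u : ℝ) : ℂ) * x) * Complex.exp (-(1 : ℂ) * (x : ℂ) ^ 2)) := by
    intro x
    rw [Complex.ofReal_mul, Complex.ofReal_pow, ← Complex.mul_conj', map_sum, Finset.sum_mul_sum, Finset.sum_mul]
    refine Finset.sum_congr rfl fun t _ => ?_
    rw [Finset.sum_mul]
    refine Finset.sum_congr rfl fun u _ => ?_
    rw [map_mul, ← Complex.exp_conj]
    have e1 : (starRingEnd ℂ) (Complex.I * (u : ℂ) * (x : ℂ)) = -(Complex.I * u * x) := by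
      rw [map_mul, map_mul, Complex.conj_I, Complex.conj_ofReal, Complex.conj_ofReal]
      ring
    have e2 : Complex.exp (Complex.I * ((t - u : ℝ) : ℂ) * x) =
        Complex.exp (Complex.I * t * x) * Complex.exp (-(Complex.I * u * x)) := by
      rw [← Complex.exp_add]
      congr 1
      push_cast
      ring
    have e3 : ((Real.exp (-x ^ 2) : ℝ) : ℂ) = Complex.exp (-(1 : ℂ) * (x : ℂ) ^ 2) := by
      rw [Complex.ofReal_exp]
      congr 1
      push_cast
      ring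
    rw [e1, e2, e3]
    ring
  have hint : Integrable fun x : ℝ => ∑ t ∈ S, ∑ u ∈ S, a t * (starRingEnd ℂ) (a u) *
        (Complex.exp (Complex.I * ((t - u : ℝ) : ℂ) * x) * Complex.exp (-(1 : ℂ) * (x : ℂ) ^ 2)) := by
    refine integrable_finsetSum _ fun t _ => integrable_finsetSum _ fun u _ => ?_
    exact (loc_int (t - u)).const_mul _
  have hint2 : Integrable fun x : ℝ => ‖∑ t ∈ S, a t * Complex.exp (Complex.I * t * x)‖ ^ 2 * Real.exp (-x ^ 2) := by
    have h := hint.re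
    refine h.congr (Filter.Eventually.of_forall fun x => ?_)
    simp only
    rw [← key x]
    exact Complex.ofReal_re _
  refine ⟨hint2, ?_⟩
  have hval : ((∫ x : ℝ, ‖∑ t ∈ S, a t * Complex.exp (Complex.I * t * x)‖ ^ 2 * Real.exp (-x ^ 2) : ℝ) : ℂ) =
      ∑ t ∈ S, ∑ u ∈ S, a t * (starRingEnd ℂ) (a u) *
        ∫ x : ℝ, (Complex.exp (Complex.I * ((t - u : ℝ) : ℂ) * x) * Complex.exp (-(1 : ℂ) * (x : ℂ) ^ 2)) := by
    rw [← integral_complex_ofReal]
    rw [integral_congr_ae (Filter.Eventually.of_forall key)]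
    rw [integral_finsetSum _ fun t _ => integrable_finsetSum _ fun u _ => (loc_int (t - u)).const_mul _]
    refine Finset.sum_congr rfl fun t _ => ?_
    rw [integral_finsetSum _ fun u _ => (loc_int (t - u)).const_mul _]
    refine Finset.sum_congr rfl fun u _ => ?_
    rw [integral_const_mul]
  have h0 : 0 ≤ ∫ x : ℝ, ‖∑ t ∈ S, a t * Complex.exp (Complex.I * t * x)‖ ^ 2 * Real.exp (-x ^ 2) :=
    integral_nonneg fun x => by positivity
  calc ∫ x : ℝ, ‖∑ t ∈ S, a t * Complex.exp (Complex.I * t * x)‖ ^ 2 * Real.exp (-x ^ 2)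
      = ‖((∫ x : ℝ, ‖∑ t ∈ S, a t * Complex.exp (Complex.I * t * x)‖ ^ 2 * Real.exp (-x ^ 2) : ℝ) : ℂ)‖ := by
        rw [Complex.norm_real, Real.norm_of_nonneg h0]
    _ = ‖∑ t ∈ S, ∑ u ∈ S, a t * (starRingEnd ℂ) (a u) *
        ∫ x : ℝ, (Complex.exp (Complex.I * ((t - u : ℝ) : ℂ) * x) * Complex.exp (-(1 : ℂ) * (x : ℂ) ^ 2))‖ := by
        rw [hval]
    _ ≤ ∑ t ∈ S, ∑ u ∈ S, Real.pi * (4 / (4 + (t - u) ^ 2)) := by
        refine (norm_sum_le _ _).trans (Finset.sum_le_sum fun t _ => (norm_sum_le _ _).trans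
          (Finset.sum_le_sum fun u _ => ?_))
        rw [norm_mul, norm_mul, RCLike.norm_conj]
        have h1 := loc_gauss (t - u)
        have h2 : ‖a t‖ * ‖a u‖ ≤ 1 := mul_le_one₀ (ha t) (norm_nonneg _) (ha u)
        calc ‖a t‖ * ‖a u‖ * ‖∫ x : ℝ, (Complex.exp (Complex.I * ((t - u : ℝ) : ℂ) * x) *
              Complex.exp (-(1 : ℂ) * (x : ℂ) ^ 2))‖
            ≤ 1 * (Real.pi * (4 / (4 + (t - u) ^ 2))) := mul_le_mul h2 h1 (norm_nonneg _) zero_le_one
          _ = _ := one_mul _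
    _ ≤ ∑ t ∈ S, Real.pi * (∑' k : ℤ, 32 / (1 + (k : ℝ) ^ 2)) := by
        refine Finset.sum_le_sum fun t _ => ?_
        rw [← Finset.mul_sum]
        exact mul_le_mul_of_nonneg_left (loc_sum S hS t) Real.pi_pos.le
    _ = _ := by
        rw [Finset.sum_const, nsmul_eq_mul]
        ring

theorem t_LOC : S_LOC := by
  refine ⟨Real.exp 1 * (Real.pi * (∑' k : ℤ, 32 / (1 + (k : ℝ) ^ 2))), ?_, ?_⟩
  · have h1 : (0 : ℝ) < ∑' k : ℤ, 32 / (1 + (k : ℝ) ^ 2) :=
      loc_summable.tsum_pos (fun k => by positivity) 0 (by norm_num)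
    have := Real.pi_pos
    positivity
  intro S c hS
  set a : ℝ → ℂ := fun t => Complex.exp (Complex.I * t * ((c + 1 / 2 : ℝ) : ℂ)) with ha
  have ha1 : ∀ t, ‖a t‖ ≤ 1 := by
    intro t
    show ‖Complex.exp (Complex.I * t * ((c + 1 / 2 : ℝ) : ℂ))‖ ≤ 1
    have : Complex.I * (t : ℂ) * ((c + 1 / 2 : ℝ) : ℂ) = ((t * (c + 1 / 2) : ℝ) : ℂ) * Complex.I := by
      push_cast
      ring
    rw [this, Complex.norm_exp_ofReal_mul_I]
  obtain ⟨hI, hB⟩ := loc_weight S hS a ha1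
  have hshift : ∫ v in c..(c + 1), ‖∑ t ∈ S, Complex.exp (Complex.I * t * v)‖ ^ 2 =
      ∫ x in (-(1 / 2) : ℝ)..(1 / 2), ‖∑ t ∈ S, a t * Complex.exp (Complex.I * t * x)‖ ^ 2 := by
    have h := intervalIntegral.integral_comp_add_right (a := -(1 / 2)) (b := 1 / 2)
      (fun v : ℝ => ‖∑ t ∈ S, Complex.exp (Complex.I * t * v)‖ ^ 2) (c + 1 / 2)
    have e1 : (-(1 / 2) : ℝ) + (c + 1 / 2) = c := by ring
    have e2 : (1 / 2 : ℝ) + (c + 1 / 2) = c + 1 := by ring
    rw [e1, e2] at h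
    rw [← h]
    refine intervalIntegral.integral_congr fun x _ => ?_
    congr 2
    refine Finset.sum_congr rfl fun t _ => ?_
    show _ = Complex.exp (Complex.I * t * ((c + 1 / 2 : ℝ) : ℂ)) * _
    rw [← Complex.exp_add]
    congr 1
    push_cast
    ring
  rw [hshift]
  have hcont := loc_cont S a
  calc ∫ x in (-(1 / 2) : ℝ)..(1 / 2), ‖∑ t ∈ S, a t * Complex.exp (Complex.I * t * x)‖ ^ 2
      ≤ ∫ x in (-(1 / 2) : ℝ)..(1 / 2),
          Real.exp 1 * (‖∑ t ∈ S, a t * Complex.exp (Complex.I * t * x)‖ ^ 2 * Real.exp (-x ^ 2)) := by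
        refine intervalIntegral.integral_mono_on (by norm_num) (hcont.intervalIntegrable _ _)
          (hI.intervalIntegrable.const_mul _) fun x hx => ?_
        have h1 : 1 ≤ Real.exp 1 * Real.exp (-x ^ 2) := by
          rw [← Real.exp_add]
          refine Real.one_le_exp ?_
          have := hx.1
          have := hx.2
          nlinarith
        calc ‖∑ t ∈ S, a t * Complex.exp (Complex.I * t * x)‖ ^ 2
            = ‖∑ t ∈ S, a t * Complex.exp (Complex.I * t * x)‖ ^ 2 * 1 := (mul_one _).symm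
          _ ≤ ‖∑ t ∈ S, a t * Complex.exp (Complex.I * t * x)‖ ^ 2 * (Real.exp 1 * Real.exp (-x ^ 2)) :=
              mul_le_mul_of_nonneg_left h1 (by positivity)
          _ = _ := by ring
    _ = Real.exp 1 * ∫ x in (-(1 / 2) : ℝ)..(1 / 2),
          (‖∑ t ∈ S, a t * Complex.exp (Complex.I * t * x)‖ ^ 2 * Real.exp (-x ^ 2)) := by
        rw [intervalIntegral.integral_const_mul]
    _ ≤ Real.exp 1 * ∫ x : ℝ, (‖∑ t ∈ S, a t * Complex.exp (Complex.I * t * x)‖ ^ 2 * Real.exp (-x ^ 2)) := by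
        refine mul_le_mul_of_nonneg_left ?_ (Real.exp_pos _).le
        rw [intervalIntegral.integral_of_le (by norm_num)]
        exact setIntegral_le_integral hI (Filter.Eventually.of_forall fun x => by positivity)
    _ ≤ Real.exp 1 * (Real.pi * (∑' k : ℤ, 32 / (1 + (k : ℝ) ^ 2)) * S.card) :=
        mul_le_mul_of_nonneg_left hB (Real.exp_pos _).le
    _ = _ := by ring

end Pool.Agent.N282.PM
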