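import Pool.Agent.N282.PM.Lvq

/-!
# Project PM (helper282), part LQ (worker: helper477)
-/

set_option autoImplicit false

open MeasureTheory Filter Topology Classical

namespace Pool.Agent.N282.PM

/-- from mean squares over all subsets to higher moments: remove the smallest term -/
theorem lq_induct (B L p : ℝ) (hB : 0 ≤ B) (hL : 0 ≤ L) (hp : 0 ≤ p) :
    ∀ (n : ℕ) (S : Finset ℤ) (D : ℤ → ℝ), S.card = n → (∀ t ∈ S, 0 ≤ D t) →
      (∀ W ⊆ S, ∑ t ∈ W, D t ^ 2 ≤ B * (L + W.card)) →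
      ∑ t ∈ S, (D t ^ 2) ^ p ≤ ∑ k ∈ Finset.range n, (B * (L / ((k + 1 : ℕ) : ℝ) + 1)) ^ p := by
  intro n
  induction n with
  | zero =>
    intro S D hS _ _
    rw [Finset.card_eq_zero.1 hS]
    simp
  | succ n ih =>
    intro S D hS hD hW
    have hne : S.Nonempty := by
      rw [← Finset.card_pos]
      omega
    obtain ⟨t₀, ht₀, hmin⟩ := Finset.exists_min_image S D hne
    have h1 : ((n + 1 : ℕ) : ℝ) * D t₀ ^ 2 ≤ B * (L + ((n + 1 : ℕ) : ℝ)) := by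
      have h2 := hW S subset_rfl
      rw [hS] at h2
      refine le_trans ?_ h2
      rw [← nsmul_eq_mul, ← hS, ← Finset.sum_const]
      exact Finset.sum_le_sum fun t ht => pow_le_pow_left₀ (hD t₀ ht₀) (hmin t ht) 2
    have hn0 : (0 : ℝ) < ((n + 1 : ℕ) : ℝ) := by exact_mod_cast Nat.succ_pos n
    have h2 : D t₀ ^ 2 ≤ B * (L / ((n + 1 : ℕ) : ℝ) + 1) := by
      have h3 : B * (L / ((n + 1 : ℕ) : ℝ) + 1) = B * (L + ((n + 1 : ℕ) : ℝ)) / ((n + 1 : ℕ) : ℝ) := by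
        field_simp
      rw [h3, le_div_iff₀ hn0]
      linarith
    have h3 : (D t₀ ^ 2) ^ p ≤ (B * (L / ((n + 1 : ℕ) : ℝ) + 1)) ^ p :=
      Real.rpow_le_rpow (sq_nonneg _) h2 hp
    have h4 := ih (S.erase t₀) D (by rw [Finset.card_erase_of_mem ht₀, hS]; rfl)
      (fun t ht => hD t (Finset.mem_of_mem_erase ht))
      (fun W hWS => hW W (hWS.trans (Finset.erase_subset _ _)))
    rw [← Finset.add_sum_erase S _ ht₀, Finset.sum_range_succ, add_comm]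
    exact add_le_add h4 h3

theorem lq_add (a p : ℝ) (ha : 0 ≤ a) (hp : 0 ≤ p) : (a + 1) ^ p ≤ 2 ^ p * (a ^ p + 1) := by
  have h0 : 0 ≤ a ^ p := Real.rpow_nonneg ha p
  rcases le_total a 1 with h | h
  · calc (a + 1) ^ p ≤ 2 ^ p := Real.rpow_le_rpow (by linarith) (by linarith) hp
      _ ≤ 2 ^ p * (a ^ p + 1) := le_mul_of_one_le_right (by positivity) (by linarith)
  · calc (a + 1) ^ p ≤ (2 * a) ^ p := Real.rpow_le_rpow (by linarith) (by linarith) hp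
      _ = 2 ^ p * a ^ p := Real.mul_rpow (by norm_num) ha
      _ ≤ 2 ^ p * (a ^ p + 1) := mul_le_mul_of_nonneg_left (by linarith) (by positivity)

theorem lq_harm (T : ℕ) : ∑ k ∈ Finset.range T, (((k + 1 : ℕ) : ℝ))⁻¹ ≤ 1 + Real.log T := by
  have h := harmonic_le_one_add_log T
  refine le_trans (le_of_eq ?_) h
  unfold harmonic
  push_cast
  rfl

theorem t_LQ : S_LQ := by
  intro x hx q A ε hq hA hε
  have hq0 : 0 < q := by linarith
  obtain ⟨C, hC, h⟩ := lvq_block x hx (ε / q) A (by positivity) (by linarith)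
  refine ⟨(2 * C) ^ (q / 2) * (2 + 2 * A / ε), fun N T hN hNT hT b hb => ?_⟩
  have hN1 : (1 : ℝ) ≤ N := by exact_mod_cast hN
  have hN0 : (0 : ℝ) < N := by linarith
  have hT1 : (1 : ℝ) ≤ T := by exact_mod_cast hN.trans hNT
  obtain ⟨D, hD⟩ : ∃ D : ℤ → ℝ, ∀ t, D t = ‖∑ n ∈ Finset.Icc N (2 * N), b n * ph t (x n)‖ :=
    ⟨_, fun _ => rfl⟩
  have hD0 : ∀ t, 0 ≤ D t := fun t => by rw [hD]; exact norm_nonneg _
  obtain ⟨S, hS⟩ : ∃ S : Finset ℤ, S = (Finset.Icc 1 T).image (fun t : ℕ => (t : ℤ)) := ⟨_, rfl⟩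
  have hinj : Function.Injective (fun t : ℕ => (t : ℤ)) := Nat.cast_injective
  have hSc : S.card = T := by
    rw [hS, Finset.card_image_of_injective _ hinj, Nat.card_Icc]
    omega
  obtain ⟨B, hB⟩ : ∃ B : ℝ, B = C * (N : ℝ) ^ (1 + ε / q) := ⟨_, rfl⟩
  have hB0 : 0 ≤ B := by rw [hB]; positivity
  have h1 := lq_induct B N (q / 2) hB0 hN0.le (by positivity) T S D hSc (fun t _ => hD0 t) (by
    intro W hW
    have h2 := h N hN W (by
      intro t ht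
      have h3 := hW ht
      rw [hS, Finset.mem_image] at h3
      obtain ⟨s, hs, rfl⟩ := h3
      refine ⟨by positivity, ?_⟩
      refine le_trans ?_ hT
      have h4 := (Finset.mem_Icc.1 hs).2
      exact_mod_cast h4) b hb
    rw [hB]
    simpa only [hD] using h2)
  have h2 : ∑ t ∈ Finset.Icc 1 T, ‖∑ n ∈ Finset.Icc N (2 * N), b n * ph t (x n)‖ ^ q =
      ∑ t ∈ S, (D t ^ 2) ^ (q / 2) := by
    rw [hS, Finset.sum_image (fun _ _ _ _ h3 => hinj h3)]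
    refine Finset.sum_congr rfl fun t _ => ?_
    have h3 : (D (t : ℤ) ^ 2) ^ (q / 2) = D (t : ℤ) ^ q := by
      rw [← Real.rpow_natCast (D (t : ℤ)) 2, ← Real.rpow_mul (hD0 _)]
      congr 1
      push_cast
      ring
    rw [h3, hD]
    norm_num
  rw [h2]
  refine h1.trans ?_
  -- the sum over `k`
  have hp1 : 1 ≤ q / 2 := by linarith
  have hp0 : 0 ≤ q / 2 := by linarith
  have h3 : ∀ k ∈ Finset.range T, (B * ((N : ℝ) / ((k + 1 : ℕ) : ℝ) + 1)) ^ (q / 2) ≤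
      (2 * B) ^ (q / 2) * ((N : ℝ) ^ (q / 2) * (((k + 1 : ℕ) : ℝ))⁻¹ + 1) := by
    intro k _
    have hk : (1 : ℝ) ≤ ((k + 1 : ℕ) : ℝ) := by exact_mod_cast Nat.succ_pos k
    have hk0 : (0 : ℝ) < ((k + 1 : ℕ) : ℝ) := by linarith
    rw [Real.mul_rpow hB0 (by positivity), Real.mul_rpow (by norm_num) hB0]
    have h4 := lq_add ((N : ℝ) / ((k + 1 : ℕ) : ℝ)) (q / 2) (by positivity) hp0
    have h5 : ((N : ℝ) / ((k + 1 : ℕ) : ℝ)) ^ (q / 2) ≤
        (N : ℝ) ^ (q / 2) * (((k + 1 : ℕ) : ℝ))⁻¹ := by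
      rw [Real.div_rpow hN0.le hk0.le, div_eq_mul_inv]
      refine mul_le_mul_of_nonneg_left ?_ (by positivity)
      refine inv_anti₀ hk0 ?_
      calc ((k + 1 : ℕ) : ℝ) = ((k + 1 : ℕ) : ℝ) ^ (1 : ℝ) := (Real.rpow_one _).symm
        _ ≤ _ := Real.rpow_le_rpow_of_exponent_le hk hp1
    calc B ^ (q / 2) * ((N : ℝ) / ((k + 1 : ℕ) : ℝ) + 1) ^ (q / 2)
        ≤ B ^ (q / 2) * (2 ^ (q / 2) * (((N : ℝ) / ((k + 1 : ℕ) : ℝ)) ^ (q / 2) + 1)) :=
          mul_le_mul_of_nonneg_left h4 (by positivity)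
      _ ≤ B ^ (q / 2) * (2 ^ (q / 2) * ((N : ℝ) ^ (q / 2) * (((k + 1 : ℕ) : ℝ))⁻¹ + 1)) := by
          refine mul_le_mul_of_nonneg_left ?_ (by positivity)
          exact mul_le_mul_of_nonneg_left (by linarith) (by positivity)
      _ = _ := by ring
  refine (Finset.sum_le_sum h3).trans ?_
  rw [← Finset.mul_sum, Finset.sum_add_distrib, ← Finset.mul_sum, Finset.sum_const,
    Finset.card_range, nsmul_eq_mul, mul_one]
  -- logarithms
  have hlogT : Real.log T ≤ A * Real.log N := by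
    have h4 := Real.log_le_log (by linarith) hT
    rwa [Real.log_rpow hN0] at h4
  have hlogN : Real.log N ≤ (N : ℝ) ^ (ε / 2) / (ε / 2) :=
    Real.log_le_rpow_div hN0.le (by positivity)
  have hNε : 1 ≤ (N : ℝ) ^ (ε / 2) := Real.one_le_rpow hN1 (by positivity)
  have h4 : 1 + Real.log T ≤ (N : ℝ) ^ (ε / 2) * (2 + 2 * A / ε) := by
    have h5 : A * Real.log N ≤ A * ((N : ℝ) ^ (ε / 2) / (ε / 2)) :=
      mul_le_mul_of_nonneg_left hlogN (by linarith)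
    have h6 : A * ((N : ℝ) ^ (ε / 2) / (ε / 2)) = (N : ℝ) ^ (ε / 2) * (2 * A / ε) := by
      field_simp
    rw [h6] at h5
    nlinarith
  have h5 : (N : ℝ) ^ (q / 2) * ∑ k ∈ Finset.range T, (((k + 1 : ℕ) : ℝ))⁻¹ + T ≤
      (N : ℝ) ^ (ε / 2) * (2 + 2 * A / ε) * ((N : ℝ) ^ (q / 2) + T) := by
    have h6 : (N : ℝ) ^ (q / 2) * ∑ k ∈ Finset.range T, (((k + 1 : ℕ) : ℝ))⁻¹ ≤
        (N : ℝ) ^ (q / 2) * ((N : ℝ) ^ (ε / 2) * (2 + 2 * A / ε)) :=
      mul_le_mul_of_nonneg_left ((lq_harm T).trans h4) (by positivity)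
    have h7 : 1 ≤ (N : ℝ) ^ (ε / 2) * (2 + 2 * A / ε) := by
      have h8 : 0 ≤ 2 * A / ε := by positivity
      nlinarith
    have h8 : (T : ℝ) ≤ (N : ℝ) ^ (ε / 2) * (2 + 2 * A / ε) * T :=
      le_mul_of_one_le_left (by linarith) h7
    nlinarith
  have h6 : (2 * B) ^ (q / 2) = (2 * C) ^ (q / 2) * ((N : ℝ) ^ (q / 2) * (N : ℝ) ^ (ε / 2)) := by
    have h7 : 2 * B = (2 * C) * (N : ℝ) ^ (1 + ε / q) := by rw [hB]; ring
    rw [h7, Real.mul_rpow (by positivity) (by positivity), ← Real.rpow_mul hN0.le,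
      ← Real.rpow_add hN0]
    congr 2
    field_simp
  rw [h6]
  have h7 : (N : ℝ) ^ ε = (N : ℝ) ^ (ε / 2) * (N : ℝ) ^ (ε / 2) := by
    rw [← Real.rpow_add hN0]
    congr 1
    ring
  have h8 : (N : ℝ) ^ q = (N : ℝ) ^ (q / 2) * (N : ℝ) ^ (q / 2) := by
    rw [← Real.rpow_add hN0]
    congr 1
    ring
  rw [h7, h8]
  have h9 : 0 ≤ (2 * C) ^ (q / 2) * ((N : ℝ) ^ (q / 2) * (N : ℝ) ^ (ε / 2)) := by positivity
  refine (mul_le_mul_of_nonneg_left h5 h9).trans (le_of_eq ?_)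
  ring

end Pool.Agent.N282.PM
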