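import Pool.Agent.N282.PM.Stm

/-!
# Project PM (helper282), part LVQ (worker: helper477)
-/

set_option autoImplicit false

open MeasureTheory Filter Topology Classical

namespace Pool.Agent.N282.PM

/-- the inequality for the sums over `[N, 2N]` at integers -/
theorem lvq_block (x : ℕ → ℝ) (hx : Good x) (ε A : ℝ) (hε : 0 < ε) (hA : 0 < A) :
    ∃ C : ℝ, 0 < C ∧ ∀ N : ℕ, 1 ≤ N → ∀ W : Finset ℤ, (∀ t ∈ W, 0 ≤ t ∧ (t : ℝ) ≤ (N : ℝ) ^ A) →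
      ∀ b : ℕ → ℂ, ∑ n ∈ Finset.Icc N (2 * N), ‖b n‖ ^ 2 ≤ N + 1 →
        ∑ t ∈ W, ‖∑ n ∈ Finset.Icc N (2 * N), b n * ph t (x n)‖ ^ 2 ≤
          C * (N : ℝ) ^ (1 + ε) * (N + W.card) := by
  obtain ⟨C, hC, h⟩ := hx ε A hε hA
  refine ⟨4 * 2 ^ ε * C, by positivity, fun N hN W hW b hb => ?_⟩
  have hN1 : (1 : ℝ) ≤ N := by exact_mod_cast hN
  have hN0 : (0 : ℝ) < N := by linarith
  obtain ⟨a, ha⟩ : ∃ a : ℕ → ℂ, ∀ n, a n = if n ∈ Finset.Icc N (2 * N) then b n else 0 :=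
    ⟨_, fun _ => rfl⟩
  obtain ⟨S, hS⟩ : ∃ S : Finset ℝ, S = W.image (fun t : ℤ => (t : ℝ)) := ⟨_, rfl⟩
  have hinj : Function.Injective (fun t : ℤ => (t : ℝ)) := Int.cast_injective
  have hSc : S.card = W.card := by rw [hS]; exact Finset.card_image_of_injective _ hinj
  have hsub : Finset.Icc N (2 * N) ⊆ Finset.Icc 1 (2 * N) := Finset.Icc_subset_Icc_left hN
  have hDP : ∀ t : ℝ, DP x a (2 * N) t = ∑ n ∈ Finset.Icc N (2 * N), b n * ph t (x n) := by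
    intro t
    unfold DP
    rw [← Finset.sum_subset hsub]
    · refine Finset.sum_congr rfl fun n hn => ?_
      rw [ha, if_pos hn]
    · intro n _ hn
      rw [ha, if_neg hn, zero_mul]
  have hsum : ∑ n ∈ Finset.Icc 1 (2 * N), ‖a n‖ ^ 2 = ∑ n ∈ Finset.Icc N (2 * N), ‖b n‖ ^ 2 := by
    rw [← Finset.sum_subset hsub]
    · refine Finset.sum_congr rfl fun n hn => ?_
      rw [ha, if_pos hn]
    · intro n _ hn
      rw [ha, if_neg hn, norm_zero]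
      norm_num
  have h1 := h (2 * N) (by omega) S (by
      intro t ht
      rw [hS, Finset.mem_image] at ht
      obtain ⟨s, hs, rfl⟩ := ht
      obtain ⟨h2, h3⟩ := hW s hs
      refine ⟨by exact_mod_cast h2, h3.trans ?_⟩
      refine Real.rpow_le_rpow hN0.le ?_ hA.le
      push_cast
      linarith) (by
      intro t ht u hu htu
      rw [hS, Finset.mem_image] at ht hu
      obtain ⟨s, hs, rfl⟩ := ht
      obtain ⟨r, hr, rfl⟩ := hu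
      have h2 : s ≠ r := fun h3 => htu (by rw [h3])
      have h3 : 1 ≤ |s - r| := Int.one_le_abs (sub_ne_zero.2 h2)
      exact_mod_cast h3) a
  rw [hsum, hSc] at h1
  simp only [hDP] at h1
  rw [hS, Finset.sum_image (fun _ _ _ _ h2 => hinj h2)] at h1
  refine h1.trans ?_
  have h2 : (((2 * N : ℕ) : ℝ)) ^ ε = 2 ^ ε * (N : ℝ) ^ ε := by
    push_cast
    exact Real.mul_rpow (by norm_num) hN0.le
  rw [h2]
  have h3 : (N : ℝ) ^ (1 + ε) = N * (N : ℝ) ^ ε := by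
    rw [Real.rpow_add hN0, Real.rpow_one]
  rw [h3]
  have h4 : (((2 * N : ℕ) : ℝ) + W.card) ≤ 2 * (N + W.card) := by
    push_cast
    have : (0 : ℝ) ≤ W.card := Nat.cast_nonneg _
    linarith
  have h5 : ∑ n ∈ Finset.Icc N (2 * N), ‖b n‖ ^ 2 ≤ 2 * (N : ℝ) := by linarith
  have h6 : (0 : ℝ) ≤ C * (2 ^ ε * (N : ℝ) ^ ε) := by positivity
  have h7 : (0 : ℝ) ≤ ∑ n ∈ Finset.Icc N (2 * N), ‖b n‖ ^ 2 :=
    Finset.sum_nonneg fun _ _ => by positivity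
  calc C * (2 ^ ε * (N : ℝ) ^ ε) * (((2 * N : ℕ) : ℝ) + W.card) *
        ∑ n ∈ Finset.Icc N (2 * N), ‖b n‖ ^ 2
      ≤ C * (2 ^ ε * (N : ℝ) ^ ε) * (2 * (N + W.card)) * (2 * (N : ℝ)) := by
        refine mul_le_mul (mul_le_mul_of_nonneg_left h4 h6) h5 h7 ?_
        positivity
    _ = _ := by ring

theorem lvq_card (W : Finset ℤ) (T : ℝ) (hT : 0 ≤ T) (hW : ∀ t ∈ W, 0 ≤ t ∧ (t : ℝ) ≤ T) :
    (W.card : ℝ) ≤ T + 1 := by
  have h1 : W ⊆ Finset.Icc 0 ⌊T⌋ := by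
    intro t ht
    rw [Finset.mem_Icc]
    exact ⟨(hW t ht).1, Int.le_floor.2 (hW t ht).2⟩
  have h2 := Finset.card_le_card h1
  rw [Int.card_Icc] at h2
  have h3 : 0 ≤ ⌊T⌋ := Int.floor_nonneg.2 hT
  have h4 : ((⌊T⌋ + 1 - 0).toNat : ℤ) = ⌊T⌋ + 1 := by omega
  have h5 : (W.card : ℤ) ≤ ⌊T⌋ + 1 := by
    rw [← h4]
    exact_mod_cast h2
  have h6 : (W.card : ℝ) ≤ (⌊T⌋ : ℝ) + 1 := by exact_mod_cast h5
  linarith [Int.floor_le T]

theorem t_LVQ : S_LVQ := by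
  intro x hx A σ ε hA hσ hε
  obtain ⟨δ, hδ⟩ : ∃ δ : ℝ, δ = min ε (2 * σ - 1) / 2 := ⟨_, rfl⟩
  have hδ0 : 0 < δ := by
    rw [hδ]
    have : 0 < min ε (2 * σ - 1) := lt_min hε (by linarith)
    linarith
  have hδε : δ ≤ ε := by
    rw [hδ]
    have h1 := min_le_left ε (2 * σ - 1)
    have : 0 < min ε (2 * σ - 1) := lt_min hε (by linarith)
    linarith
  have hδσ : δ ≤ (2 * σ - 1) / 2 := by
    rw [hδ]
    have h1 := min_le_right ε (2 * σ - 1)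
    linarith
  obtain ⟨K, hK, h⟩ := lvq_block x hx δ A hδ0 hA
  obtain ⟨ξ, hξ⟩ : ∃ ξ : ℝ, ξ = 2 * σ - 1 - δ := ⟨_, rfl⟩
  have hξ0 : 0 < ξ := by rw [hξ]; linarith
  obtain ⟨N₀, hN₀⟩ : ∃ N₀ : ℝ, N₀ = (2 * K + 1) ^ (1 / ξ) := ⟨_, rfl⟩
  have hN₀1 : 1 ≤ N₀ := by
    rw [hN₀]
    exact Real.one_le_rpow (by linarith) (by positivity)
  obtain ⟨κ, hκ⟩ : ∃ κ : ℝ, κ = 2 - 2 * σ + ε := ⟨_, rfl⟩
  refine ⟨2 * K + (N₀ ^ A + 1) * N₀ ^ |κ|, fun N T hN hT b W hb hW => ?_⟩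
  have hN1 : (1 : ℝ) ≤ N := by exact_mod_cast hN
  have hN0 : (0 : ℝ) < N := by linarith
  rw [← hκ]
  have hpκ : 0 < (N : ℝ) ^ κ := Real.rpow_pos_of_pos hN0 _
  have hP : 0 ≤ (N₀ ^ A + 1) * N₀ ^ |κ| := by
    have : 0 < N₀ := by linarith
    positivity
  rcases W.eq_empty_or_nonempty with hWe | hWne
  · rw [hWe]
    simp only [Finset.card_empty, Nat.cast_zero]
    positivity
  obtain ⟨t₀, ht₀⟩ := hWne
  have hT0 : 0 ≤ T := by
    have h1 := hW t₀ ht₀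
    have h2 : (0 : ℝ) ≤ t₀ := by exact_mod_cast h1.1
    linarith [h1.2.1]
  have h1 := h N hN W (fun t ht => ⟨(hW t ht).1, (hW t ht).2.1.trans hT⟩) b hb
  have h2 : (W.card : ℝ) * (N : ℝ) ^ (2 * σ) ≤
      ∑ t ∈ W, ‖∑ n ∈ Finset.Icc N (2 * N), b n * ph t (x n)‖ ^ 2 := by
    rw [← nsmul_eq_mul, ← Finset.sum_const]
    refine Finset.sum_le_sum fun t ht => ?_
    have h3 : (N : ℝ) ^ (2 * σ) = ((N : ℝ) ^ σ) ^ 2 := by
      rw [mul_comm, Real.rpow_mul hN0.le]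
      norm_num
    rw [h3]
    exact pow_le_pow_left₀ (Real.rpow_nonneg hN0.le _) (hW t ht).2.2.le 2
  have h3 := h2.trans h1
  have hW0 : (0 : ℝ) ≤ W.card := Nat.cast_nonneg _
  by_cases hcase : K * (N : ℝ) ^ (1 + δ) ≤ (N : ℝ) ^ (2 * σ) / 2
  · have h4 : (W.card : ℝ) * (N : ℝ) ^ (2 * σ) ≤ 2 * (K * (N : ℝ) ^ (1 + δ) * N) := by
      nlinarith [mul_le_mul_of_nonneg_right hcase hW0]
    have h5 : (N : ℝ) ^ (1 + δ) * N = (N : ℝ) ^ (2 - 2 * σ + δ) * (N : ℝ) ^ (2 * σ) := by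
      rw [← Real.rpow_add hN0]
      nth_rewrite 2 [← Real.rpow_one (N : ℝ)]
      rw [← Real.rpow_add hN0]
      congr 1
      ring
    have h6 : (W.card : ℝ) ≤ 2 * K * (N : ℝ) ^ (2 - 2 * σ + δ) := by
      have h7 : 0 < (N : ℝ) ^ (2 * σ) := Real.rpow_pos_of_pos hN0 _
      refine le_of_mul_le_mul_right ?_ h7
      calc (W.card : ℝ) * (N : ℝ) ^ (2 * σ) ≤ 2 * (K * (N : ℝ) ^ (1 + δ) * N) := h4
        _ = 2 * K * ((N : ℝ) ^ (1 + δ) * N) := by ring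
        _ = _ := by rw [h5]; ring
    have h7 : (N : ℝ) ^ (2 - 2 * σ + δ) ≤ (N : ℝ) ^ κ :=
      Real.rpow_le_rpow_of_exponent_le hN1 (by rw [hκ]; linarith)
    calc (W.card : ℝ) ≤ 2 * K * (N : ℝ) ^ (2 - 2 * σ + δ) := h6
      _ ≤ 2 * K * (N : ℝ) ^ κ := mul_le_mul_of_nonneg_left h7 (by positivity)
      _ ≤ _ := mul_le_mul_of_nonneg_right (by linarith) hpκ.le
  · push Not at hcase
    have h4 : (N : ℝ) ^ ξ < 2 * K := by
      have h5 : (N : ℝ) ^ (2 * σ) = (N : ℝ) ^ ξ * (N : ℝ) ^ (1 + δ) := by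
        rw [← Real.rpow_add hN0]
        congr 1
        rw [hξ]
        ring
      rw [h5] at hcase
      have h6 : 0 < (N : ℝ) ^ (1 + δ) := Real.rpow_pos_of_pos hN0 _
      have h7 : (N : ℝ) ^ ξ * (N : ℝ) ^ (1 + δ) < 2 * K * (N : ℝ) ^ (1 + δ) := by linarith
      exact lt_of_mul_lt_mul_right h7 h6.le
    have h5 : (N : ℝ) ≤ N₀ := by
      rw [hN₀]
      have h6 : (N : ℝ) = ((N : ℝ) ^ ξ) ^ (1 / ξ) := by
        rw [← Real.rpow_mul hN0.le, mul_one_div_cancel hξ0.ne', Real.rpow_one]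
      rw [h6]
      refine Real.rpow_le_rpow (Real.rpow_nonneg hN0.le _) ?_ (by positivity)
      linarith
    have h6 : (W.card : ℝ) ≤ N₀ ^ A + 1 := by
      have h7 := lvq_card W T hT0 (fun t ht => ⟨(hW t ht).1, (hW t ht).2.1⟩)
      have h8 : (N : ℝ) ^ A ≤ N₀ ^ A := Real.rpow_le_rpow hN0.le h5 hA.le
      linarith
    have h7 : 1 ≤ N₀ ^ |κ| * (N : ℝ) ^ κ := by
      have h8 : (N : ℝ) ^ (-|κ|) ≤ (N : ℝ) ^ κ :=
        Real.rpow_le_rpow_of_exponent_le hN1 (neg_abs_le κ)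
      have h9 : (N : ℝ) ^ |κ| ≤ N₀ ^ |κ| := Real.rpow_le_rpow hN0.le h5 (abs_nonneg κ)
      have h10 : (N : ℝ) ^ |κ| * (N : ℝ) ^ (-|κ|) = 1 := by
        rw [← Real.rpow_add hN0, add_neg_cancel, Real.rpow_zero]
      calc (1 : ℝ) = (N : ℝ) ^ |κ| * (N : ℝ) ^ (-|κ|) := h10.symm
        _ ≤ N₀ ^ |κ| * (N : ℝ) ^ κ :=
            mul_le_mul h9 h8 (Real.rpow_nonneg hN0.le _) (Real.rpow_nonneg (by linarith) _)
    calc (W.card : ℝ) ≤ N₀ ^ A + 1 := h6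
      _ ≤ (N₀ ^ A + 1) * (N₀ ^ |κ| * (N : ℝ) ^ κ) :=
          le_mul_of_one_le_right (by have : 0 < N₀ := by linarith
                                     positivity) h7
      _ = (N₀ ^ A + 1) * N₀ ^ |κ| * (N : ℝ) ^ κ := by ring
      _ ≤ _ := mul_le_mul_of_nonneg_right (by linarith) hpκ.le

end Pool.Agent.N282.PM
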