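import Pool.Agent.N282.PM.Stm

/-!
# Project PM, part MAIN (helper11): the inequality for one `N` with high probability
-/

set_option autoImplicit false

open MeasureTheory Filter Topology Classical

namespace Pool.Agent.N282.PM

theorem Main_norm_ph (t x : ℝ) : ‖ph t x‖ = 1 := by
  have h : Complex.I * (t : ℂ) * (Real.log x : ℂ) = ((t * Real.log x : ℝ) : ℂ) * Complex.I := by
    push_cast; ring
  rw [ph, h, Complex.norm_exp_ofReal_mul_I]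

theorem Main_ph_sub (t t' x : ℝ) : ‖ph t x - ph t' x‖ ≤ |t - t'| * |Real.log x| := by
  have h : ph t x - ph t' x =
      ph t' x * (Complex.exp (Complex.I * (((t - t') * Real.log x : ℝ) : ℂ)) - 1) := by
    rw [ph, ph, mul_sub, ← Complex.exp_add, mul_one]
    congr 2
    push_cast
    ring
  rw [h, norm_mul, Main_norm_ph, one_mul, ← abs_mul]
  exact Real.norm_exp_I_mul_ofReal_sub_one_le

theorem Main_sum_fin {β : Type} [AddCommMonoid β] (f : ℕ → β) (N : ℕ) :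
    ∑ n : Fin N, f ((n : ℕ) + 1) = ∑ n ∈ Finset.Icc 1 N, f n := by
  rw [Fin.sum_univ_eq_sum_range (fun n => f (n + 1)) N, Finset.range_eq_Ico,
    Finset.sum_Ico_add' f 0 N 1]
  rfl

theorem Main_cs (a : ℕ → ℂ) (N : ℕ) :
    (∑ n ∈ Finset.Icc 1 N, ‖a n‖) ^ 2 ≤ N * ∑ n ∈ Finset.Icc 1 N, ‖a n‖ ^ 2 := by
  have h := Finset.sum_mul_sq_le_sq_mul_sq (Finset.Icc 1 N) (fun _ => (1 : ℝ)) (fun n => ‖a n‖)
  simpa using h

theorem Main_triv (x : ℕ → ℝ) (a : ℕ → ℂ) (N : ℕ) (t : ℝ) :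
    ‖DP x a N t‖ ^ 2 ≤ N * ∑ n ∈ Finset.Icc 1 N, ‖a n‖ ^ 2 := by
  refine le_trans ?_ (Main_cs a N)
  refine pow_le_pow_left₀ (norm_nonneg _) ?_ 2
  refine (norm_sum_le _ _).trans (le_of_eq ?_)
  refine Finset.sum_congr rfl fun n _ => ?_
  rw [norm_mul, Main_norm_ph, mul_one]

theorem Main_round (x : ℕ → ℝ) (a : ℕ → ℂ) (N : ℕ) (t t' : ℝ) (hN : 2 ≤ N)
    (hx : ∀ n ∈ Finset.Icc 1 N, 1 ≤ x n ∧ x n ≤ (N : ℝ) ^ 2 + 1)
    (ht : |t - t'| ≤ 1 / (N : ℝ) ^ 2) :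
    ‖DP x a N t - DP x a N t'‖ ^ 2 ≤ 2 * ∑ n ∈ Finset.Icc 1 N, ‖a n‖ ^ 2 := by
  have hN' : (2 : ℝ) ≤ N := by exact_mod_cast hN
  have hlog : ∀ n ∈ Finset.Icc 1 N, |Real.log (x n)| ≤ 2 * N := by
    intro n hn
    obtain ⟨h1, h2⟩ := hx n hn
    rw [abs_of_nonneg (Real.log_nonneg h1)]
    calc Real.log (x n) ≤ Real.log (((N : ℝ) + 1) ^ 2) := by
          apply Real.log_le_log (by linarith)
          nlinarith
      _ = 2 * Real.log ((N : ℝ) + 1) := by rw [Real.log_pow]; norm_num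
      _ ≤ 2 * N := by
          have := Real.log_le_sub_one_of_pos (show (0 : ℝ) < (N : ℝ) + 1 by positivity)
          linarith
  have h1 : ‖DP x a N t - DP x a N t'‖ ≤ (2 / N) * ∑ n ∈ Finset.Icc 1 N, ‖a n‖ := by
    rw [DP, DP, ← Finset.sum_sub_distrib, Finset.mul_sum]
    refine (norm_sum_le _ _).trans (Finset.sum_le_sum fun n hn => ?_)
    rw [← mul_sub, norm_mul, mul_comm]
    refine mul_le_mul_of_nonneg_right ?_ (norm_nonneg _)
    calc ‖ph t (x n) - ph t' (x n)‖ ≤ |t - t'| * |Real.log (x n)| := Main_ph_sub _ _ _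
      _ ≤ 1 / (N : ℝ) ^ 2 * (2 * N) :=
        mul_le_mul ht (hlog n hn) (abs_nonneg _) (by positivity)
      _ = 2 / N := by field_simp
  have hs : 0 ≤ ∑ n ∈ Finset.Icc 1 N, ‖a n‖ ^ 2 := Finset.sum_nonneg fun _ _ => by positivity
  calc ‖DP x a N t - DP x a N t'‖ ^ 2 ≤ ((2 / N) * ∑ n ∈ Finset.Icc 1 N, ‖a n‖) ^ 2 :=
        pow_le_pow_left₀ (norm_nonneg _) h1 2
    _ = (2 / N) ^ 2 * (∑ n ∈ Finset.Icc 1 N, ‖a n‖) ^ 2 := by rw [mul_pow]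
    _ ≤ (2 / N) ^ 2 * (N * ∑ n ∈ Finset.Icc 1 N, ‖a n‖ ^ 2) :=
        mul_le_mul_of_nonneg_left (Main_cs a N) (by positivity)
    _ = (4 / N) * ∑ n ∈ Finset.Icc 1 N, ‖a n‖ ^ 2 := by field_simp; ring
    _ ≤ 2 * ∑ n ∈ Finset.Icc 1 N, ‖a n‖ ^ 2 := by
        refine mul_le_mul_of_nonneg_right ?_ hs
        rw [div_le_iff₀ (by positivity)]
        linarith

theorem Main_law {Ω : Type} [MeasurableSpace Ω] (P : Measure Ω) (V : Ω → ℝ) (hV : Measurable V)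
    (hlaw : P.map V = volume.restrict (Set.Icc 0 1)) (f : ℝ → ℝ) (hf : Measurable f) :
    ∫ ω, f (V ω) ∂P = ∫ u in (0 : ℝ)..1, f u := by
  rw [intervalIntegral.integral_of_le zero_le_one, ← integral_Icc_eq_integral_Ioc, ← hlaw,
    integral_map hV.aemeasurable hf.aestronglyMeasurable]

theorem Main_meas_ph (t y d : ℝ) : Measurable fun u : ℝ => ph t (y + d * u) := by
  unfold ph
  fun_prop

theorem Main_bes {Ω : Type} [MeasurableSpace Ω] (P : Measure Ω) (U : ℕ → Ω → ℝ) (y δ : ℕ → ℝ)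
    (δ0 m C : ℝ) (N : ℕ) (hU : ∀ n, Measurable (U n))
    (hlaw : ∀ n, P.map (U n) = volume.restrict (Set.Icc 0 1))
    (hC : ∀ S : Finset ℝ, Sep (1 / 2) S →
      ∑ n ∈ Finset.Icc 1 N, ∫ u in (0 : ℝ)..1, ‖∑ t ∈ S, ph t (y n + δ n * u)‖ ^ 2 ≤
        C * m ^ 2 * (N / δ0) * S.card)
    {ι : Type} (A : Finset ι) (gr : ι → ℝ)
    (hgr : ∀ i ∈ A, ∀ j ∈ A, i ≠ j → 1 / 2 ≤ |gr i - gr j|) :
    (∑ n : Fin N, ∫ ω, ‖∑ i ∈ A, ph (gr i) (pt y δ U ω ((n : ℕ) + 1))‖ ^ 2 ∂P) ≤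
      C * m ^ 2 * (N / δ0) * A.card := by
  have hinj : Set.InjOn gr A := by
    intro i hi j hj hij
    by_contra hne
    have := hgr i hi j hj hne
    rw [hij, sub_self, abs_zero] at this
    linarith
  have hsep : Sep (1 / 2) (A.image gr) := by
    intro t ht u hu htu
    obtain ⟨i, hi, rfl⟩ := Finset.mem_image.mp ht
    obtain ⟨j, hj, rfl⟩ := Finset.mem_image.mp hu
    exact hgr i hi j hj (fun h => htu (by rw [h]))
  have hcard : (A.image gr).card = A.card := Finset.card_image_of_injOn hinj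
  have h1 : ∀ n : ℕ, ∫ ω, ‖∑ i ∈ A, ph (gr i) (pt y δ U ω n)‖ ^ 2 ∂P =
      ∫ u in (0 : ℝ)..1, ‖∑ t ∈ A.image gr, ph t (y n + δ n * u)‖ ^ 2 := by
    intro n
    have h2 := Main_law P (U n) (hU n) (hlaw n)
      (fun u => ‖∑ t ∈ A.image gr, ph t (y n + δ n * u)‖ ^ 2)
      ((Finset.measurable_sum _ fun t _ => Main_meas_ph t (y n) (δ n)).norm.pow_const 2)
    rw [← h2]
    congr 1
    funext ω
    rw [Finset.sum_image hinj]
    rfl
  calc _ = ∑ n : Fin N, (fun n : ℕ => ∫ u in (0 : ℝ)..1,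
          ‖∑ t ∈ A.image gr, ph t (y n + δ n * u)‖ ^ 2) ((n : ℕ) + 1) :=
        Finset.sum_congr rfl fun n _ => h1 _
    _ = ∑ n ∈ Finset.Icc 1 N, ∫ u in (0 : ℝ)..1,
          ‖∑ t ∈ A.image gr, ph t (y n + δ n * u)‖ ^ 2 :=
        Main_sum_fin (fun n : ℕ => ∫ u in (0 : ℝ)..1,
          ‖∑ t ∈ A.image gr, ph t (y n + δ n * u)‖ ^ 2) N
    _ ≤ C * m ^ 2 * (N / δ0) * (A.image gr).card := hC _ hsep
    _ = _ := by rw [hcard]

theorem Main_const (A C1 C2 Q m L D s Λ M : ℝ) (hA : 0 < A) (hC1 : 0 < C1) (hC2 : 0 < C2)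
    (hQ : 1 ≤ Q) (hm : 1 ≤ m) (hL : Real.log 2 ≤ L) (hD : 0 ≤ D) (hs : 0 ≤ s)
    (hΛ : Λ = (A + 6) * L) (hM : M = Q * m ^ 2 * D) (hlog : 1 + Real.log (1 + s) ≤ Λ) :
    2 * (C2 * (C1 * Λ ^ 3) * (1 + Real.log (1 + s)) ^ 2 * (M + s)) + 4 * s ≤
      (2 * C1 * C2 * (A + 6) ^ 5 * Q + 28) * m ^ 3 * L ^ 5 * (D + s) := by
  have hl2 := Real.log_two_gt_d9
  have hL0 : 0 < L := by linarith
  have hΛ0 : 0 < Λ := by rw [hΛ]; positivity
  have hlog0 : 0 ≤ 1 + Real.log (1 + s) := by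
    have := Real.log_nonneg (show (1 : ℝ) ≤ 1 + s by linarith)
    linarith
  have hm23 : m ^ 2 ≤ m ^ 3 := pow_le_pow_right₀ hm (by norm_num)
  have hm3 : 1 ≤ m ^ 3 := one_le_pow₀ hm
  have hMs : M + s ≤ Q * m ^ 3 * (D + s) := by
    have h1 : Q * m ^ 2 * D ≤ Q * m ^ 3 * D :=
      mul_le_mul_of_nonneg_right (mul_le_mul_of_nonneg_left hm23 (by linarith)) hD
    have h2 : s ≤ Q * m ^ 3 * s := by
      have : 1 ≤ Q * m ^ 3 := by nlinarith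
      nlinarith
    rw [hM]
    linarith
  have hMs0 : 0 ≤ M + s := by rw [hM]; positivity
  have hB : C2 * (C1 * Λ ^ 3) * (1 + Real.log (1 + s)) ^ 2 * (M + s) ≤
      C1 * C2 * (A + 6) ^ 5 * Q * m ^ 3 * L ^ 5 * (D + s) := by
    calc C2 * (C1 * Λ ^ 3) * (1 + Real.log (1 + s)) ^ 2 * (M + s)
        ≤ C2 * (C1 * Λ ^ 3) * Λ ^ 2 * (Q * m ^ 3 * (D + s)) := by
          refine mul_le_mul ?_ hMs hMs0 (by positivity)
          exact mul_le_mul_of_nonneg_left (pow_le_pow_left₀ hlog0 hlog 2) (by positivity)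
      _ = _ := by rw [hΛ]; ring
  have hL5 : 1 / 7 ≤ L ^ 5 := by
    have : (0.693 : ℝ) ^ 5 ≤ L ^ 5 := pow_le_pow_left₀ (by norm_num) (by linarith) 5
    have h7 : (1 / 7 : ℝ) ≤ 0.693 ^ 5 := by norm_num
    linarith
  have hs4 : 4 * s ≤ 28 * m ^ 3 * L ^ 5 * (D + s) := by
    have h1 : 4 ≤ 28 * m ^ 3 * L ^ 5 := by
      have : 1 * (1 / 7) ≤ m ^ 3 * L ^ 5 := mul_le_mul hm3 hL5 (by norm_num) (by positivity)
      linarith
    have h2 : 4 * s ≤ 28 * m ^ 3 * L ^ 5 * s := mul_le_mul_of_nonneg_right h1 hs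
    have h3 : 0 ≤ 28 * m ^ 3 * L ^ 5 * D := by positivity
    linarith
  linarith

theorem Main_det (A C1 C2 Q m D Λ M : ℝ) (N G : ℕ) (hA : 0 < A) (hC1 : 0 < C1) (hC2 : 0 < C2)
    (hQ : 1 ≤ Q) (hm : 1 ≤ m) (hD : 0 ≤ D) (hN : 2 ≤ N)
    (hΛ : Λ = (A + 6) * Real.log N) (hM : M = Q * m ^ 2 * D)
    (hG : G = ⌊(N : ℝ) ^ (A + 2)⌋₊ + 1) (hG' : (G : ℝ) ≤ (N : ℝ) ^ (A + 3))
    (h2 : ∀ (ι : Type) (N : ℕ) (y : Fin N → ι → ℂ) (S : Finset ι) (K M : ℝ), 0 ≤ K →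
      0 ≤ M → (∀ A ⊆ S, ∑ n, ‖∑ t ∈ A, y n t‖ ^ 2 ≤ K * (M + A.card) * A.card) → ∀ b : ι → ℂ,
      ∑ n, ‖∑ t ∈ S, b t * y n t‖ ^ 2 ≤
        C2 * K * (1 + Real.log (1 + S.card)) ^ 2 * (M + S.card) * ∑ t ∈ S, ‖b t‖ ^ 2)
    (h3 : S_DUAL) (x : ℕ → ℝ)
    (hx : ∀ n ∈ Finset.Icc 1 N, 1 ≤ x n ∧ x n ≤ (N : ℝ) ^ 2 + 1)
    (hsmp : ∀ A' : Finset (Fin G),
      (∀ i ∈ A', ∀ j ∈ A', i ≠ j → 1 / 2 ≤ |((i : ℕ) : ℝ) / (N : ℝ) ^ 2 - ((j : ℕ) : ℝ) / (N : ℝ) ^ 2|) →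
      ∑ n : Fin N, ‖∑ i ∈ A', ph (((i : ℕ) : ℝ) / (N : ℝ) ^ 2) (x ((n : ℕ) + 1))‖ ^ 2 ≤
        C1 * Λ ^ 3 * (M + A'.card) * A'.card)
    (S : Finset ℝ) (hS : ∀ t ∈ S, 0 ≤ t ∧ t ≤ (N : ℝ) ^ A) (hsep : Sep 1 S) (a : ℕ → ℂ) :
    ∑ t ∈ S, ‖DP x a N t‖ ^ 2 ≤
      (2 * C1 * C2 * (A + 6) ^ 5 * Q + 28) * m ^ 3 * (Real.log N) ^ 5 * (D + S.card) *
        ∑ n ∈ Finset.Icc 1 N, ‖a n‖ ^ 2 := by
  have hNr : (2 : ℝ) ≤ N := by exact_mod_cast hN
  have hN0 : (0 : ℝ) < N := by linarith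
  have hl2 := Real.log_two_gt_d9
  have hL : Real.log 2 ≤ Real.log N := Real.log_le_log (by norm_num) hNr
  have hL0 : 0 < Real.log N := by linarith
  have hΛ0 : 0 < Λ := by rw [hΛ]; positivity
  have hM0 : 0 ≤ M := by rw [hM]; positivity
  have hN2 : (0 : ℝ) < (N : ℝ) ^ 2 := by positivity
  -- the grid points
  have hfl : ∀ t ∈ S, ⌊t * (N : ℝ) ^ 2⌋₊ < G := by
    intro t ht
    rw [hG, Nat.lt_succ_iff]
    refine Nat.floor_le_floor ?_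
    rw [Real.rpow_add hN0]
    have h22 : (N : ℝ) ^ (2 : ℝ) = (N : ℝ) ^ 2 := by
      rw [← Real.rpow_natCast]; norm_num
    rw [h22]
    exact mul_le_mul_of_nonneg_right (hS t ht).2 hN2.le
  have hGpos : 0 < G := by rw [hG]; omega
  let gi : ℝ → Fin G := fun t => ⟨min ⌊t * (N : ℝ) ^ 2⌋₊ (G - 1), by omega⟩
  have hgi : ∀ t ∈ S, ((gi t : Fin G) : ℕ) = ⌊t * (N : ℝ) ^ 2⌋₊ := by
    intro t ht
    have := hfl t ht
    show min ⌊t * (N : ℝ) ^ 2⌋₊ (G - 1) = _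
    omega
  have hclose : ∀ t ∈ S, 0 ≤ t - (((gi t : Fin G) : ℕ) : ℝ) / (N : ℝ) ^ 2 ∧
      t - (((gi t : Fin G) : ℕ) : ℝ) / (N : ℝ) ^ 2 ≤ 1 / (N : ℝ) ^ 2 := by
    intro t ht
    rw [hgi t ht]
    have h0 : 0 ≤ t * (N : ℝ) ^ 2 := mul_nonneg (hS t ht).1 hN2.le
    have ha := Nat.floor_le h0
    have hb := Nat.lt_floor_add_one (t * (N : ℝ) ^ 2)
    constructor
    · rw [sub_nonneg, div_le_iff₀ hN2]
      exact ha
    · rw [sub_le_iff_le_add, ← add_div, le_div_iff₀ hN2]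
      linarith
  have hN14 : 1 / (N : ℝ) ^ 2 ≤ 1 / 4 := by
    apply one_div_le_one_div_of_le (by norm_num)
    nlinarith
  have hgap : ∀ t ∈ S, ∀ u ∈ S, t ≠ u →
      1 / 2 ≤ |(((gi t : Fin G) : ℕ) : ℝ) / (N : ℝ) ^ 2 - (((gi u : Fin G) : ℕ) : ℝ) / (N : ℝ) ^ 2| := by
    intro t ht u hu htu
    obtain ⟨h1, h2⟩ := hclose t ht
    obtain ⟨h3, h4⟩ := hclose u hu
    have h5 := hsep t ht u hu htu
    rcases le_or_gt 0 (t - u) with h6 | h6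
    · rw [abs_of_nonneg h6] at h5
      refine le_trans ?_ (le_abs_self _)
      linarith
    · rw [abs_of_neg h6] at h5
      refine le_trans ?_ (neg_le_abs _)
      linarith
  have hinj : Set.InjOn gi S := by
    intro t ht u hu htu
    by_contra hne
    have := hgap t ht u hu hne
    rw [htu, sub_self, abs_zero] at this
    linarith
  have hcard : (S.image gi).card = S.card := Finset.card_image_of_injOn hinj
  have hsc : ((S.image gi).card : ℝ) = S.card := by rw [hcard]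
  -- duality
  have hdya := h2 (Fin G) N (fun n i => ph (((i : ℕ) : ℝ) / (N : ℝ) ^ 2) (x ((n : ℕ) + 1)))
    (S.image gi) (C1 * Λ ^ 3) M (by positivity) hM0 (by
      intro A' hA'
      refine hsmp A' ?_
      intro i hi j hj hij
      obtain ⟨t, ht, rfl⟩ := Finset.mem_image.mp (hA' hi)
      obtain ⟨u, hu, rfl⟩ := Finset.mem_image.mp (hA' hj)
      exact hgap t ht u hu (fun h => hij (by rw [h])))
  rw [hsc] at hdya
  have hlog0 : 0 ≤ 1 + Real.log (1 + (S.card : ℝ)) := by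
    have := Real.log_nonneg (show (1 : ℝ) ≤ 1 + (S.card : ℝ) by
      have : (0 : ℝ) ≤ (S.card : ℝ) := Nat.cast_nonneg _
      linarith)
    linarith
  set B : ℝ := C2 * (C1 * Λ ^ 3) * (1 + Real.log (1 + (S.card : ℝ))) ^ 2 * (M + S.card) with hB
  have hB0 : 0 ≤ B := by positivity
  have hdual := h3 (Fin G) N (fun n i => ph (((i : ℕ) : ℝ) / (N : ℝ) ^ 2) (x ((n : ℕ) + 1)))
    (S.image gi) B hB0 hdya (fun n => a ((n : ℕ) + 1))
  rw [Finset.sum_image hinj] at hdual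
  have hsum : ∑ n : Fin N, ‖a ((n : ℕ) + 1)‖ ^ 2 = ∑ n ∈ Finset.Icc 1 N, ‖a n‖ ^ 2 :=
    Main_sum_fin (fun n => ‖a n‖ ^ 2) N
  have hdp : ∀ τ : ℝ, ∑ n : Fin N, a ((n : ℕ) + 1) * ph τ (x ((n : ℕ) + 1)) = DP x a N τ :=
    fun τ => Main_sum_fin (fun n => a n * ph τ (x n)) N
  simp only [hdp, hsum] at hdual
  -- rounding
  set E : ℝ := ∑ n ∈ Finset.Icc 1 N, ‖a n‖ ^ 2 with hE
  have hE0 : 0 ≤ E := Finset.sum_nonneg fun _ _ => by positivity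
  have hpt : ∀ t ∈ S, ‖DP x a N t‖ ^ 2 ≤
      2 * ‖DP x a N ((((gi t : Fin G) : ℕ) : ℝ) / (N : ℝ) ^ 2)‖ ^ 2 + 4 * E := by
    intro t ht
    obtain ⟨h5, h6⟩ := hclose t ht
    have hr := Main_round x a N t ((((gi t : Fin G) : ℕ) : ℝ) / (N : ℝ) ^ 2) hN hx
      (by rw [abs_of_nonneg h5]; exact h6)
    set z := DP x a N t
    set w := DP x a N ((((gi t : Fin G) : ℕ) : ℝ) / (N : ℝ) ^ 2)
    have h7 : ‖z‖ ≤ ‖w‖ + ‖z - w‖ := by
      calc ‖z‖ = ‖w + (z - w)‖ := by congr 1; ring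
        _ ≤ _ := norm_add_le _ _
    have h8 : ‖z‖ ^ 2 ≤ (‖w‖ + ‖z - w‖) ^ 2 := pow_le_pow_left₀ (norm_nonneg _) h7 2
    have h9 : (‖w‖ + ‖z - w‖) ^ 2 ≤ 2 * ‖w‖ ^ 2 + 2 * ‖z - w‖ ^ 2 := by
      nlinarith [sq_nonneg (‖w‖ - ‖z - w‖)]
    linarith
  have hcardG : (S.card : ℝ) ≤ (N : ℝ) ^ (A + 3) := by
    rw [← hsc]
    refine le_trans ?_ hG'
    have h := Finset.card_le_univ (S.image gi)
    rw [Fintype.card_fin] at h
    exact_mod_cast h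
  have hlog : 1 + Real.log (1 + (S.card : ℝ)) ≤ Λ := by
    have hpow1 : 1 ≤ (N : ℝ) ^ (A + 3) := Real.one_le_rpow (by linarith) (by linarith)
    have h10 : 1 + (S.card : ℝ) ≤ (N : ℝ) ^ (A + 4) := by
      have : (N : ℝ) ^ (A + 4) = (N : ℝ) ^ (A + 3) * N := by
        rw [show A + 4 = (A + 3) + 1 by ring, Real.rpow_add_one hN0.ne']
      rw [this]
      nlinarith
    have h11 : Real.log (1 + (S.card : ℝ)) ≤ (A + 4) * Real.log N := by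
      rw [← Real.log_rpow hN0]
      exact Real.log_le_log (by positivity) h10
    rw [hΛ]
    nlinarith
  calc ∑ t ∈ S, ‖DP x a N t‖ ^ 2
      ≤ ∑ t ∈ S, (2 * ‖DP x a N ((((gi t : Fin G) : ℕ) : ℝ) / (N : ℝ) ^ 2)‖ ^ 2 + 4 * E) :=
        Finset.sum_le_sum hpt
    _ = 2 * ∑ t ∈ S, ‖DP x a N ((((gi t : Fin G) : ℕ) : ℝ) / (N : ℝ) ^ 2)‖ ^ 2 +
          S.card * (4 * E) := by
        rw [Finset.sum_add_distrib, ← Finset.mul_sum, Finset.sum_const, nsmul_eq_mul]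
    _ ≤ 2 * (B * E) + S.card * (4 * E) := by linarith
    _ = (2 * B + 4 * S.card) * E := by ring
    _ ≤ ((2 * C1 * C2 * (A + 6) ^ 5 * Q + 28) * m ^ 3 * (Real.log N) ^ 5 * (D + S.card)) * E :=
        mul_le_mul_of_nonneg_right
          (Main_const A C1 C2 Q m (Real.log N) D S.card Λ M hA hC1 hC2 hQ hm hL hD
            (Nat.cast_nonneg _) hΛ hM hlog) hE0

theorem t_MAIN (h1 : S_SMP) (h2 : S_DYA) (h3 : S_DUAL) (h4 : S_BES) : S_MAIN := by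
  obtain ⟨C1, hC1, h1⟩ := h1
  obtain ⟨C2, hC2, h2⟩ := h2
  obtain ⟨C4, hC4, h4⟩ := h4
  intro A hA
  have hQ : 1 ≤ max 1 C4 := le_max_left _ _
  have hQ4 : C4 ≤ max 1 C4 := le_max_right _ _
  set Q : ℝ := max 1 C4
  refine ⟨2 * C1 * C2 * (A + 6) ^ 5 * Q + 28, by positivity, ?_⟩
  intro Ω _ P _ U y δ δ0 m N hU hind hlaw hN hδ0 hm hsp hδ
  have hNr : (2 : ℝ) ≤ N := by exact_mod_cast hN
  have hN0 : (0 : ℝ) < N := by linarith
  have hl2 := Real.log_two_gt_d9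
  have hL : Real.log 2 ≤ Real.log N := Real.log_le_log (by norm_num) hNr
  have hL0 : 0 < Real.log N := by linarith
  have hδ01 : δ0 ≤ 1 := by
    have := hδ 1 (Finset.mem_Icc.mpr ⟨le_refl _, by omega⟩)
    linarith
  have hD1 : (N : ℝ) ≤ N / δ0 := by
    rw [le_div_iff₀ hδ0]
    nlinarith
  have hD0 : 0 ≤ (N : ℝ) / δ0 := by linarith
  by_cases hmN : (N : ℝ) ≤ m
  · -- trivial case
    have hempty : {ω | ¬ ∀ S : Finset ℝ, (∀ t ∈ S, 0 ≤ t ∧ t ≤ (N : ℝ) ^ A) → Sep 1 S →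
        ∀ a : ℕ → ℂ, ∑ t ∈ S, ‖DP (pt y δ U ω) a N t‖ ^ 2 ≤
        (2 * C1 * C2 * (A + 6) ^ 5 * Q + 28) * m ^ 3 * (Real.log N) ^ 5 * (N / δ0 + S.card) *
          ∑ n ∈ Finset.Icc 1 N, ‖a n‖ ^ 2} = ∅ := by
      rw [Set.eq_empty_iff_forall_notMem]
      intro ω hω
      refine hω ?_
      intro S _ _ a
      have hE0 : 0 ≤ ∑ n ∈ Finset.Icc 1 N, ‖a n‖ ^ 2 := Finset.sum_nonneg fun _ _ => by positivity
      have hc0 : (0 : ℝ) ≤ S.card := Nat.cast_nonneg _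
      calc ∑ t ∈ S, ‖DP (pt y δ U ω) a N t‖ ^ 2
          ≤ ∑ t ∈ S, N * ∑ n ∈ Finset.Icc 1 N, ‖a n‖ ^ 2 :=
            Finset.sum_le_sum fun t _ => Main_triv _ a N t
        _ = (S.card * N) * ∑ n ∈ Finset.Icc 1 N, ‖a n‖ ^ 2 := by
            rw [Finset.sum_const, nsmul_eq_mul, mul_assoc]
        _ ≤ _ := by
            refine mul_le_mul_of_nonneg_right ?_ hE0
            have hL5 : 1 / 7 ≤ (Real.log N) ^ 5 := by
              have : (0.693 : ℝ) ^ 5 ≤ (Real.log N) ^ 5 :=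
                pow_le_pow_left₀ (by norm_num) (by linarith) 5
              have h7 : (1 / 7 : ℝ) ≤ 0.693 ^ 5 := by norm_num
              linarith
            have hm3 : (N : ℝ) ≤ m ^ 3 := by
              have : m ^ 1 ≤ m ^ 3 := pow_le_pow_right₀ hm (by norm_num)
              linarith
            have hC28 : 28 ≤ 2 * C1 * C2 * (A + 6) ^ 5 * Q + 28 := by
              have : 0 ≤ 2 * C1 * C2 * (A + 6) ^ 5 * Q := by positivity
              linarith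
            have h5 : (N : ℝ) ≤ (2 * C1 * C2 * (A + 6) ^ 5 * Q + 28) * m ^ 3 * (Real.log N) ^ 5 := by
              calc (N : ℝ) = 1 * N * 1 := by ring
                _ ≤ (7 : ℝ) * N * (1 / 7) * 1 := by linarith
                _ ≤ 28 * N * (1 / 7) := by nlinarith
                _ ≤ 28 * m ^ 3 * (Real.log N) ^ 5 := by
                    refine mul_le_mul ?_ hL5 (by norm_num) (by positivity)
                    linarith
                _ ≤ _ := by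
                    refine mul_le_mul_of_nonneg_right ?_ (by positivity)
                    exact mul_le_mul_of_nonneg_right hC28 (by positivity)
            calc (S.card : ℝ) * N
                ≤ S.card * ((2 * C1 * C2 * (A + 6) ^ 5 * Q + 28) * m ^ 3 * (Real.log N) ^ 5) :=
                  mul_le_mul_of_nonneg_left h5 hc0
              _ = ((2 * C1 * C2 * (A + 6) ^ 5 * Q + 28) * m ^ 3 * (Real.log N) ^ 5) * S.card := by
                  ring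
              _ ≤ _ := by
                  refine mul_le_mul_of_nonneg_left ?_ (by positivity)
                  linarith
    rw [hempty]
    simp only [measure_empty, ENNReal.toReal_zero]
    positivity
  · push Not at hmN
    have hrp1 : 1 ≤ (N : ℝ) ^ (A + 2) := Real.one_le_rpow (by linarith) (by linarith)
    have hG' : ((⌊(N : ℝ) ^ (A + 2)⌋₊ + 1 : ℕ) : ℝ) ≤ (N : ℝ) ^ (A + 3) := by
      have h5 := Nat.floor_le (show 0 ≤ (N : ℝ) ^ (A + 2) by positivity)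
      have h6 : (N : ℝ) ^ (A + 3) = (N : ℝ) ^ (A + 2) * N := by
        rw [show A + 3 = (A + 2) + 1 by ring, Real.rpow_add_one hN0.ne']
      rw [h6]
      push_cast
      nlinarith
    obtain ⟨G, hG⟩ : ∃ G : ℕ, G = ⌊(N : ℝ) ^ (A + 2)⌋₊ + 1 := ⟨_, rfl⟩
    rw [← hG] at hG'
    obtain ⟨Λ, hΛ⟩ : ∃ Λ : ℝ, Λ = (A + 6) * Real.log N := ⟨_, rfl⟩
    obtain ⟨M, hM⟩ : ∃ M : ℝ, M = Q * m ^ 2 * (N / δ0) := ⟨_, rfl⟩
    have hΛ1 : 1 ≤ Λ := by rw [hΛ]; nlinarith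
    have hNM : (N : ℝ) ≤ M := by
      rw [hM]
      have : 1 ≤ Q * m ^ 2 := by
        have := one_le_pow₀ (n := 2) hm
        nlinarith
      nlinarith
    have hM1 : 1 ≤ M := by linarith
    have hexpΛ : Real.exp Λ = (N : ℝ) ^ (A + 6) := by
      rw [hΛ, Real.rpow_def_of_pos hN0, mul_comm]
    have hmono : ∀ a b : ℝ, a ≤ b → (N : ℝ) ^ a ≤ (N : ℝ) ^ b := fun a b hab =>
      Real.rpow_le_rpow_of_exponent_le (by linarith) hab
    -- the random vectors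
    let g : ∀ n : Fin N, ℝ → (Fin G → ℂ) := fun n u i =>
      ph (((i : ℕ) : ℝ) / (N : ℝ) ^ 2) (y ((n : ℕ) + 1) + δ ((n : ℕ) + 1) * u)
    have hg : ∀ n, Measurable (g n) := fun n =>
      measurable_pi_iff.mpr fun i => Main_meas_ph _ _ _
    let Y : Fin N → Ω → (Fin G → ℂ) := fun n => g n ∘ U ((n : ℕ) + 1)
    have hY : ∀ n, Measurable (Y n) := fun n => (hg n).comp (hU _)
    have hYi : ProbabilityTheory.iIndepFun Y P := by
      have hinj : Function.Injective (fun n : Fin N => (n : ℕ) + 1) := by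
        intro a b hab
        exact Fin.ext (by simpa using hab)
      exact (hind.precomp hinj).comp g hg
    have hsmp := h1 (Fin G) inferInstance Ω inferInstance P inferInstance N Y M Λ hY hYi
      (fun n ω t => (Main_norm_ph _ _).le) hM1 hNM hΛ1
      (by
        rw [Fintype.card_fin, hexpΛ]
        exact hG'.trans (hmono _ _ (by linarith)))
      (by
        rw [hexpΛ]
        calc (N : ℝ) = (N : ℝ) ^ (1 : ℝ) := (Real.rpow_one _).symm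
          _ ≤ _ := hmono _ _ (by linarith))
    set B1 : Set Ω := {ω | ¬ ∀ A : Finset (Fin G), (∑ n, ∫ ω', ‖∑ t ∈ A, Y n ω' t‖ ^ 2 ∂P) ≤
      M * A.card → ∑ n, ‖∑ t ∈ A, Y n ω t‖ ^ 2 ≤ C1 * Λ ^ 3 * (M + A.card) * A.card} with hB1
    have hae : ∀ᵐ ω ∂P, ∀ n, U n ω ∈ Set.Icc (0 : ℝ) 1 := by
      rw [ae_all_iff]
      intro n
      have h5 : ∀ᵐ u ∂(P.map (U n)), u ∈ Set.Icc (0 : ℝ) 1 := by
        rw [hlaw n]
        exact ae_restrict_mem measurableSet_Icc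
      exact ae_of_ae_map (hU n).aemeasurable h5
    set B2 : Set Ω := {ω | ¬ ∀ n, U n ω ∈ Set.Icc (0 : ℝ) 1} with hB2
    have hB2z : P B2 = 0 := ae_iff.mp hae
    have hsub : {ω | ¬ ∀ S : Finset ℝ, (∀ t ∈ S, 0 ≤ t ∧ t ≤ (N : ℝ) ^ A) → Sep 1 S →
        ∀ a : ℕ → ℂ, ∑ t ∈ S, ‖DP (pt y δ U ω) a N t‖ ^ 2 ≤
        (2 * C1 * C2 * (A + 6) ^ 5 * Q + 28) * m ^ 3 * (Real.log N) ^ 5 * (N / δ0 + S.card) *
          ∑ n ∈ Finset.Icc 1 N, ‖a n‖ ^ 2} ⊆ B1 ∪ B2 := by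
      intro ω hω
      by_contra hcon
      rw [Set.mem_union, not_or] at hcon
      obtain ⟨hb1, hb2⟩ := hcon
      have hb1' : ∀ A : Finset (Fin G), (∑ n, ∫ ω', ‖∑ t ∈ A, Y n ω' t‖ ^ 2 ∂P) ≤
          M * A.card → ∑ n, ‖∑ t ∈ A, Y n ω t‖ ^ 2 ≤ C1 * Λ ^ 3 * (M + A.card) * A.card :=
        not_not.mp hb1
      have hb2' : ∀ n, U n ω ∈ Set.Icc (0 : ℝ) 1 := not_not.mp hb2
      refine hω ?_
      refine fun S hS hsep a => Main_det A C1 C2 Q m (N / δ0) Λ M N G hA hC1 hC2 hQ hm hD0 hN hΛ hM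
        hG hG' h2 h3 (pt y δ U ω) ?_ ?_ S hS hsep a
      · intro n hn
        obtain ⟨hy1, hy2⟩ := hsp.1 n hn
        obtain ⟨hd1, hd2⟩ := hδ n hn
        obtain ⟨hu1, hu2⟩ := hb2' n
        have hdu : 0 ≤ δ n * U n ω := mul_nonneg (by linarith) hu1
        have hdu1 : δ n * U n ω ≤ 1 := by nlinarith
        constructor
        · show 1 ≤ y n + δ n * U n ω
          linarith
        · show y n + δ n * U n ω ≤ (N : ℝ) ^ 2 + 1
          nlinarith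
      · intro A' hA'
        refine hb1' A' ?_
        have h5 := Main_bes P U y δ δ0 m C4 N hU hlaw
          (h4 N y δ δ0 m (by omega) hδ0 hm hsp hδ) A'
          (fun i => ((i : ℕ) : ℝ) / (N : ℝ) ^ 2) hA'
        refine le_trans (le_of_eq ?_) (h5.trans ?_)
        · rfl
        · rw [hM]
          refine mul_le_mul_of_nonneg_right ?_ (Nat.cast_nonneg _)
          refine mul_le_mul_of_nonneg_right ?_ hD0
          exact mul_le_mul_of_nonneg_right hQ4 (by positivity)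
    have hP : P {ω | ¬ ∀ S : Finset ℝ, (∀ t ∈ S, 0 ≤ t ∧ t ≤ (N : ℝ) ^ A) → Sep 1 S →
        ∀ a : ℕ → ℂ, ∑ t ∈ S, ‖DP (pt y δ U ω) a N t‖ ^ 2 ≤
        (2 * C1 * C2 * (A + 6) ^ 5 * Q + 28) * m ^ 3 * (Real.log N) ^ 5 * (N / δ0 + S.card) *
          ∑ n ∈ Finset.Icc 1 N, ‖a n‖ ^ 2} ≤ P B1 := by
      calc _ ≤ P (B1 ∪ B2) := measure_mono hsub
        _ ≤ P B1 + P B2 := measure_union_le _ _
        _ = P B1 := by rw [hB2z, add_zero]
    refine (ENNReal.toReal_mono (measure_ne_top P B1) hP).trans (hsmp.trans ?_)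
    rw [show -(2 * Λ) = Real.log N * (-(2 * (A + 6))) by rw [hΛ]; ring,
      ← Real.rpow_def_of_pos hN0]
    exact hmono _ _ (by linarith)

end Pool.Agent.N282.PM
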