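import Pool.Agent.N282.PM.Stm

/-!
# Project PM (helper282): approximation of a mean by the mean of a random sample

Written by helper615.
-/

set_option autoImplicit false

open MeasureTheory Filter Topology Classical

namespace Pool.Agent.N282.PM

/-- Hoeffding's lemma for finite averages -/
theorem mau_hoeff {ι : Type} (W : Finset ι) (x : ι → ℝ) (c lam : ℝ) (hc : 0 < c)
    (hx : ∀ i ∈ W, |x i| ≤ c) (h0 : ∑ i ∈ W, x i = 0) :
    ∑ i ∈ W, Real.exp (lam * x i) ≤ W.card * Real.exp ((lam * c) ^ 2 / 2) := by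
  have h1 : ∀ i ∈ W, Real.exp (lam * x i) ≤
      Real.cosh (lam * c) + x i * ((Real.exp (lam * c) - Real.exp (-(lam * c))) / (2 * c)) := by
    intro i hi
    have hxi := abs_le.1 (hx i hi)
    have hconv := convexOn_exp.2 (Set.mem_univ (lam * c)) (Set.mem_univ (-(lam * c)))
      (show 0 ≤ (c + x i) / (2 * c) by apply div_nonneg <;> linarith)
      (show 0 ≤ (c - x i) / (2 * c) by apply div_nonneg <;> linarith)
      (by field_simp; ring)
    simp only [smul_eq_mul] at hconv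
    have e1 : (c + x i) / (2 * c) * (lam * c) + (c - x i) / (2 * c) * (-(lam * c)) = lam * x i := by
      field_simp
      ring
    rw [e1] at hconv
    refine hconv.trans (le_of_eq ?_)
    rw [Real.cosh_eq]
    field_simp
    ring
  refine (Finset.sum_le_sum h1).trans ?_
  rw [Finset.sum_add_distrib, ← Finset.sum_mul, h0, zero_mul, add_zero, Finset.sum_const,
    nsmul_eq_mul]
  exact mul_le_mul_of_nonneg_left (Real.cosh_le_exp_half_sq _) (Nat.cast_nonneg _)

/-- one-sided bound for a real function -/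
theorem mau_one {ι : Type} (A : Finset ι) (hA : A.Nonempty) (x : ι → ℝ)
    (hx : ∀ t ∈ A, |x t| ≤ 1) (S : ℕ) (s : ℝ) (hs : 0 ≤ s) (hS : 1 ≤ S) :
    (((Fintype.piFinset fun _ : Fin S => A).filter fun τ =>
      s < (1 / (S : ℝ)) * ∑ i, x (τ i) - (1 / (A.card : ℝ)) * ∑ t ∈ A, x t).card : ℝ) ≤
      Real.exp (-(S * s ^ 2 / 8)) * (A.card : ℝ) ^ S := by
  obtain ⟨m0, hm0⟩ : ∃ m0, m0 = (1 / (A.card : ℝ)) * ∑ t ∈ A, x t := ⟨_, rfl⟩
  rw [← hm0]
  have hAc : (0 : ℝ) < A.card := by exact_mod_cast hA.card_pos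
  have hS0 : (0 : ℝ) < S := by exact_mod_cast hS
  obtain ⟨B, hB⟩ : ∃ B, B = (Fintype.piFinset fun _ : Fin S => A).filter fun τ =>
      s < (1 / (S : ℝ)) * ∑ i, x (τ i) - m0 := ⟨_, rfl⟩
  rw [← hB]
  have hsum : ∑ t ∈ A, x t = A.card * m0 := by
    rw [hm0]
    field_simp
  have hm1 : |m0| ≤ 1 := by
    rw [hm0, abs_mul, abs_of_pos (by positivity), one_div, inv_mul_le_iff₀ hAc, mul_one]
    refine (Finset.abs_sum_le_sum_abs _ _).trans ?_
    calc ∑ t ∈ A, |x t| ≤ ∑ _t ∈ A, (1 : ℝ) := Finset.sum_le_sum hx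
      _ = A.card := by simp
  obtain ⟨lam, hlam⟩ : ∃ lam, lam = s / 4 := ⟨_, rfl⟩
  have hlam0 : 0 ≤ lam := by rw [hlam]; positivity
  have h1 := mau_hoeff A (fun t => x t - m0) 2 lam (by norm_num) (fun t ht => by
      have h2 := abs_le.1 (hx t ht)
      have h3 := abs_le.1 hm1
      rw [abs_le]
      constructor <;> linarith) (by
      rw [Finset.sum_sub_distrib, hsum, Finset.sum_const, nsmul_eq_mul, sub_self])
  have h2 : ∑ τ ∈ Fintype.piFinset fun _ : Fin S => A, Real.exp (lam * ∑ i, (x (τ i) - m0))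
      = (∑ t ∈ A, Real.exp (lam * (x t - m0))) ^ S := by
    have h3 := Finset.prod_univ_sum (fun _ : Fin S => A) (fun _ t => Real.exp (lam * (x t - m0)))
    rw [Finset.prod_const, Finset.card_univ, Fintype.card_fin] at h3
    rw [h3]
    refine Finset.sum_congr rfl fun τ _ => ?_
    rw [Finset.mul_sum, Real.exp_sum]
  have h3 : (B.card : ℝ) * Real.exp (lam * (S * s)) ≤
      (A.card * Real.exp ((lam * 2) ^ 2 / 2)) ^ S := by
    calc (B.card : ℝ) * Real.exp (lam * (S * s)) = ∑ _τ ∈ B, Real.exp (lam * (S * s)) := by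
          rw [Finset.sum_const, nsmul_eq_mul]
      _ ≤ ∑ τ ∈ B, Real.exp (lam * ∑ i, (x (τ i) - m0)) := by
          refine Finset.sum_le_sum fun τ hτ => ?_
          apply Real.exp_le_exp.2
          apply mul_le_mul_of_nonneg_left _ hlam0
          rw [hB, Finset.mem_filter] at hτ
          have h4 := hτ.2
          rw [Finset.sum_sub_distrib, Finset.sum_const, Finset.card_univ, Fintype.card_fin,
            nsmul_eq_mul]
          have h5 : (S : ℝ) * ((1 / (S : ℝ)) * ∑ i, x (τ i) - m0) = ∑ i, x (τ i) - S * m0 := by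
            field_simp
          rw [← h5]
          exact mul_le_mul_of_nonneg_left h4.le hS0.le
      _ ≤ ∑ τ ∈ Fintype.piFinset fun _ : Fin S => A, Real.exp (lam * ∑ i, (x (τ i) - m0)) := by
          apply Finset.sum_le_sum_of_subset_of_nonneg
          · rw [hB]
            exact Finset.filter_subset _ _
          · intro _ _ _
            exact (Real.exp_pos _).le
      _ = (∑ t ∈ A, Real.exp (lam * (x t - m0))) ^ S := h2
      _ ≤ _ := pow_le_pow_left₀ (Finset.sum_nonneg fun _ _ => (Real.exp_pos _).le) h1 S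
  have h4 : (B.card : ℝ) ≤ (A.card * Real.exp ((lam * 2) ^ 2 / 2)) ^ S
      * Real.exp (-(lam * (S * s))) := by
    rw [Real.exp_neg, ← div_eq_mul_inv, le_div_iff₀ (Real.exp_pos _)]
    exact h3
  refine h4.trans (le_of_eq ?_)
  rw [mul_pow, ← Real.exp_nat_mul, mul_assoc, ← Real.exp_add, mul_comm]
  congr 2
  rw [hlam]
  ring

theorem t_MAU : S_MAU := by
  intro ι A v S η hA hv hS hη
  obtain ⟨s, hs⟩ : ∃ s, s = η / √2 := ⟨_, rfl⟩
  have h2 : (0 : ℝ) < √2 := by positivity
  have hs0 : 0 ≤ s := by rw [hs]; positivity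
  have hs2 : 2 * s ^ 2 = η ^ 2 := by
    rw [hs, div_pow, Real.sq_sqrt (by norm_num)]
    ring
  obtain ⟨F, hF⟩ : ∃ F : (ι → ℝ) → Finset (Fin S → ι), ∀ x, F x =
      (Fintype.piFinset fun _ : Fin S => A).filter fun τ =>
      s < (1 / (S : ℝ)) * ∑ i, x (τ i) - (1 / (A.card : ℝ)) * ∑ t ∈ A, x t := ⟨_, fun _ => rfl⟩
  have hFc : ∀ x : ι → ℝ, (∀ t ∈ A, |x t| ≤ 1) →
      ((F x).card : ℝ) ≤ Real.exp (-(S * η ^ 2 / 16)) * (A.card : ℝ) ^ S := by
    intro x hx
    have h3 := mau_one A hA x hx S s hs0 hS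
    rw [hF]
    refine h3.trans (le_of_eq ?_)
    congr 3
    rw [← hs2]
    ring
  have hre : ∀ t ∈ A, |(v t).re| ≤ 1 := fun t ht => (Complex.abs_re_le_norm _).trans (hv t ht)
  have him : ∀ t ∈ A, |(v t).im| ≤ 1 := fun t ht => (Complex.abs_im_le_norm _).trans (hv t ht)
  have hsub : ((Fintype.piFinset fun _ : Fin S => A).filter fun τ =>
      η < ‖(1 / (A.card : ℂ)) * ∑ t ∈ A, v t - (1 / (S : ℂ)) * ∑ i, v (τ i)‖) ⊆
      ((F fun t => (v t).re) ∪ (F fun t => -(v t).re)) ∪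
      ((F fun t => (v t).im) ∪ (F fun t => -(v t).im)) := by
    intro τ hτ
    rw [Finset.mem_filter] at hτ
    obtain ⟨hτ1, hτ2⟩ := hτ
    simp only [Finset.mem_union, hF, Finset.mem_filter, hτ1, true_and]
    obtain ⟨z, hz⟩ : ∃ z, z = (1 / (A.card : ℂ)) * ∑ t ∈ A, v t - (1 / (S : ℂ)) * ∑ i, v (τ i) :=
      ⟨_, rfl⟩
    rw [← hz] at hτ2
    have e1 : z.re = (1 / (A.card : ℝ)) * ∑ t ∈ A, (v t).re - (1 / (S : ℝ)) * ∑ i, (v (τ i)).re := by
      rw [hz, Complex.sub_re]
      have h3 : ∀ (n : ℕ) (w : ℂ), ((1 / (n : ℂ)) * w).re = (1 / (n : ℝ)) * w.re := by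
        intro n w
        have : (1 / (n : ℂ)) = ((1 / (n : ℝ) : ℝ) : ℂ) := by push_cast; rfl
        rw [this, Complex.re_ofReal_mul]
      rw [h3, h3, Complex.re_sum, Complex.re_sum]
    have e2 : z.im = (1 / (A.card : ℝ)) * ∑ t ∈ A, (v t).im - (1 / (S : ℝ)) * ∑ i, (v (τ i)).im := by
      rw [hz, Complex.sub_im]
      have h3 : ∀ (n : ℕ) (w : ℂ), ((1 / (n : ℂ)) * w).im = (1 / (n : ℝ)) * w.im := by
        intro n w
        have : (1 / (n : ℂ)) = ((1 / (n : ℝ) : ℝ) : ℂ) := by push_cast; rfl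
        rw [this, Complex.im_ofReal_mul]
      rw [h3, h3, Complex.im_sum, Complex.im_sum]
    by_contra hcon
    simp only [not_or, not_lt, Finset.sum_neg_distrib, mul_neg] at hcon
    obtain ⟨⟨c1, c2⟩, c3, c4⟩ := hcon
    have h3 : z.re ^ 2 ≤ s ^ 2 := by
      apply sq_le_sq'
      · linarith
      · linarith
    have h4 : z.im ^ 2 ≤ s ^ 2 := by
      apply sq_le_sq'
      · linarith
      · linarith
    have h5 : ‖z‖ ^ 2 ≤ η ^ 2 := by
      rw [Complex.sq_norm, Complex.normSq_apply]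
      nlinarith
    have h6 := abs_le_of_sq_le_sq' h5 hη.le
    linarith [h6.2]
  have hc := Finset.card_le_card hsub
  have hc1 := Finset.card_union_le ((F fun t => (v t).re) ∪ (F fun t => -(v t).re))
      ((F fun t => (v t).im) ∪ (F fun t => -(v t).im))
  have hc2 := Finset.card_union_le (F fun t => (v t).re) (F fun t => -(v t).re)
  have hc3 := Finset.card_union_le (F fun t => (v t).im) (F fun t => -(v t).im)
  have hc4 : ((((Fintype.piFinset fun _ : Fin S => A).filter fun τ =>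
      η < ‖(1 / (A.card : ℂ)) * ∑ t ∈ A, v t - (1 / (S : ℂ)) * ∑ i, v (τ i)‖).card : ℕ) : ℝ) ≤
      ((F fun t => (v t).re).card : ℝ) + (F fun t => -(v t).re).card +
      ((F fun t => (v t).im).card + (F fun t => -(v t).im).card) := by
    exact_mod_cast hc.trans (hc1.trans (add_le_add hc2 hc3))
  have k1 := hFc (fun t => (v t).re) hre
  have k2 := hFc (fun t => -(v t).re) (fun t ht => by rw [abs_neg]; exact hre t ht)
  have k3 := hFc (fun t => (v t).im) him
  have k4 := hFc (fun t => -(v t).im) (fun t ht => by rw [abs_neg]; exact him t ht)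
  refine hc4.trans ?_
  linarith

end Pool.Agent.N282.PM
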