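import Pool.Agent.N282.PM.Stm

/-!
# Project PM: many independent events (helper593)

Chernoff's bound: `P(#{n : E_n} ≥ m) ≤ e^(-tm) ∏ (1 + (e^t - 1) P(E_n)) ≤ exp(-tm + (e^t - 1) μ)` with `e^t = m / μ`.
-/

set_option autoImplicit false

open MeasureTheory Filter Topology Classical ProbabilityTheory

namespace Pool.Agent.N282.PM

lemma poi_mgf {Ω : Type} [MeasurableSpace Ω] {P : Measure Ω} [IsProbabilityMeasure P] {E : Set Ω}
    (hE : MeasurableSet E) (t : ℝ) :
    mgf (E.indicator 1) P t = 1 + (Real.exp t - 1) * (P E).toReal := by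
  unfold mgf
  have h1 : (fun ω => Real.exp (t * E.indicator (1 : Ω → ℝ) ω)) =
      fun ω => 1 + E.indicator (fun _ => Real.exp t - 1) ω := by
    funext ω
    by_cases h : ω ∈ E
    · simp [h]
    · simp [h]
  rw [h1, integral_add (integrable_const _) ((integrable_const _).indicator hE),
    integral_indicator hE, setIntegral_const]
  simp [Measure.real, mul_comm]

lemma poi_int {Ω : Type} [MeasurableSpace Ω] {P : Measure Ω} [IsProbabilityMeasure P] {X : Ω → ℝ}
    (hX : Measurable X) {M t : ℝ} (hM : ∀ ω, |X ω| ≤ M) : Integrable (fun ω => Real.exp (t * X ω)) P := by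
  refine Integrable.of_bound (C := Real.exp (|t| * M)) (by fun_prop) (ae_of_all _ fun ω => ?_)
  rw [Real.norm_of_nonneg (Real.exp_pos _).le]
  apply Real.exp_le_exp.2
  calc t * X ω ≤ |t * X ω| := le_abs_self _
    _ = |t| * |X ω| := abs_mul _ _
    _ ≤ |t| * M := mul_le_mul_of_nonneg_left (hM ω) (abs_nonneg _)

theorem t_POI : S_POI := by
  intro Ω _ P _ N E μ hE hI hμ m hm
  have hm0 : (0 : ℝ) < m := by exact_mod_cast hm
  have hp0 : ∀ n, 0 ≤ (P (E n)).toReal := fun n => ENNReal.toReal_nonneg
  have hμ0 : 0 ≤ μ := (Finset.sum_nonneg fun n _ => hp0 n).trans hμ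
  obtain ⟨S, hS⟩ : ∃ S : Set Ω, S = {ω | m ≤ (Finset.univ.filter fun n => ω ∈ E n).card} := ⟨_, rfl⟩
  rw [← hS]
  rcases hμ0.eq_or_lt with h0 | h0
  · -- all events are null
    have hz : ∀ n, P (E n) = 0 := by
      intro n
      have h1 : (P (E n)).toReal ≤ 0 := by
        calc (P (E n)).toReal ≤ ∑ n, (P (E n)).toReal :=
              Finset.single_le_sum (fun i _ => hp0 i) (Finset.mem_univ n)
          _ ≤ 0 := by rw [h0]; exact hμ
      have h2 := le_antisymm h1 (hp0 n)
      rcases (ENNReal.toReal_eq_zero_iff _).1 h2 with h | h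
      · exact h
      · exact absurd h (measure_ne_top _ _)
    have hsub : S ⊆ ⋃ n, E n := by
      intro ω hω
      rw [hS] at hω
      have h1 : 1 ≤ (Finset.univ.filter fun n => ω ∈ E n).card := hm.trans hω
      obtain ⟨n, hn⟩ := Finset.card_pos.1 h1
      exact Set.mem_iUnion.2 ⟨n, (Finset.mem_filter.1 hn).2⟩
    have h3 : P S = 0 := measure_mono_null hsub (measure_iUnion_null hz)
    rw [h3, ENNReal.toReal_zero]
    positivity
  rcases le_or_gt (m : ℝ) μ with hle | hlt
  · -- trivial range
    have h1 : (P S).toReal ≤ 1 := by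
      have := prob_le_one (μ := P) (s := S)
      exact ENNReal.toReal_le_of_le_ofReal zero_le_one (by simpa using this)
    refine h1.trans (one_le_pow₀ ?_)
    rw [le_div_iff₀ hm0, one_mul]
    have h2 : 1 ≤ Real.exp 1 := Real.one_le_exp zero_le_one
    nlinarith
  · obtain ⟨t, ht⟩ : ∃ t, t = Real.log (m / μ) := ⟨_, rfl⟩
    have hmμ : 1 < (m : ℝ) / μ := by rwa [lt_div_iff₀ h0, one_mul]
    have ht0 : 0 ≤ t := by rw [ht]; exact Real.log_nonneg hmμ.le
    have het : Real.exp t = m / μ := by rw [ht, Real.exp_log (by linarith)]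
    have hX : iIndepFun (fun n => (E n).indicator (1 : Ω → ℝ)) P := hI.iIndepFun_indicator
    have hXm : ∀ n, Measurable ((E n).indicator (1 : Ω → ℝ)) := fun n =>
      measurable_one.indicator (hE n)
    have hsum : ∀ ω, (∑ n, (E n).indicator (1 : Ω → ℝ)) ω =
        ((Finset.univ.filter fun n => ω ∈ E n).card : ℝ) := by
      intro ω
      rw [Finset.sum_apply, Finset.card_filter]
      push_cast
      refine Finset.sum_congr rfl fun n _ => ?_
      by_cases h : ω ∈ E n <;> simp [h]
    have hSS : S = {ω | (m : ℝ) ≤ (∑ n, (E n).indicator (1 : Ω → ℝ)) ω} := by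
      rw [hS]
      ext ω
      simp only [Set.mem_ofPred_eq]
      rw [hsum]
      exact_mod_cast Iff.rfl
    have hint : Integrable (fun ω => Real.exp (t * (∑ n, (E n).indicator (1 : Ω → ℝ)) ω)) P := by
      have hms : Measurable (∑ n, (E n).indicator (1 : Ω → ℝ)) :=
        Finset.sum_induction _ _ (fun _ _ => Measurable.add) measurable_zero fun n _ => hXm n
      refine poi_int (P := P) (M := N) hms fun ω => ?_
      rw [hsum, abs_of_nonneg (Nat.cast_nonneg _)]
      have := Finset.card_filter_le (Finset.univ : Finset (Fin N)) (fun n => ω ∈ E n)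
      rw [Finset.card_univ, Fintype.card_fin] at this
      exact_mod_cast this
    have h1 := measure_ge_le_exp_mul_mgf (μ := P) (m : ℝ) ht0 hint
    rw [← hSS, hX.mgf_sum hXm] at h1
    have h2 : ∏ n, mgf ((E n).indicator (1 : Ω → ℝ)) P t ≤ Real.exp ((Real.exp t - 1) * μ) := by
      have he : 0 ≤ Real.exp t - 1 := by linarith [Real.one_le_exp ht0]
      calc ∏ n, mgf ((E n).indicator (1 : Ω → ℝ)) P t
          ≤ ∏ n, Real.exp ((Real.exp t - 1) * (P (E n)).toReal) := by
            refine Finset.prod_le_prod (fun n _ => mgf_nonneg) fun n _ => ?_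
            rw [poi_mgf (hE n) t, add_comm]
            exact Real.add_one_le_exp _
        _ = Real.exp ((Real.exp t - 1) * ∑ n, (P (E n)).toReal) := by
            rw [← Real.exp_sum, Finset.mul_sum]
        _ ≤ _ := Real.exp_le_exp.2 (mul_le_mul_of_nonneg_left hμ he)
    calc (P S).toReal ≤ Real.exp (-t * m) * ∏ n, mgf ((E n).indicator (1 : Ω → ℝ)) P t := h1
      _ ≤ Real.exp (-t * m) * Real.exp ((Real.exp t - 1) * μ) :=
          mul_le_mul_of_nonneg_left h2 (Real.exp_pos _).le
      _ ≤ Real.exp (-t * m) * Real.exp m := by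
          refine mul_le_mul_of_nonneg_left (Real.exp_le_exp.2 ?_) (Real.exp_pos _).le
          rw [het, sub_mul, div_mul_cancel₀ _ h0.ne', one_mul]
          linarith
      _ = (Real.exp 1 * μ / m) ^ m := by
          have e1 : Real.exp (-t * m) = (μ / m) ^ m := by
            rw [mul_comm, Real.exp_nat_mul, Real.exp_neg, het, inv_div]
          have e2 : Real.exp (m : ℝ) = Real.exp 1 ^ m := by
            rw [← Real.exp_nat_mul, mul_one]
          rw [e1, e2, ← mul_pow]
          congr 1
          ring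

end Pool.Agent.N282.PM
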