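import Pool.Agent.N282.PM.Stm

/-!
# Project PM: the sampling theorem from the level sets (helper394, for helper282)
-/

set_option autoImplicit false

open MeasureTheory Filter Topology Classical

namespace Pool.Agent.N282.PM

theorem smp_pt (R : ℕ) (x : ℝ) (hx0 : 0 ≤ x) (hx : x ≤ R) :
    x ^ 2 ≤ 1 + ∑ j ∈ Finset.range (Nat.log 2 R + 1), if (2 : ℝ) ^ j ≤ x then (4 : ℝ) ^ (j + 1) else 0 := by
  have hnn : ∀ j ∈ Finset.range (Nat.log 2 R + 1), (0 : ℝ) ≤ if (2 : ℝ) ^ j ≤ x then (4 : ℝ) ^ (j + 1) else 0 := by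
    intro j _
    split_ifs <;> positivity
  rcases lt_or_ge x 1 with h1 | h1
  · have h2 := Finset.sum_nonneg hnn
    nlinarith
  · obtain ⟨k, hk⟩ : ∃ k, k = ⌊x⌋₊ := ⟨_, rfl⟩
    have hk1 : 1 ≤ k := by rw [hk]; exact Nat.le_floor (by exact_mod_cast h1)
    have hkx : (k : ℝ) ≤ x := by rw [hk]; exact Nat.floor_le hx0
    have hxk : x < k + 1 := by rw [hk]; exact Nat.lt_floor_add_one x
    have hkR : k ≤ R := by exact_mod_cast hkx.trans hx
    have h2 : (2 : ℝ) ^ (Nat.log 2 k) ≤ x := by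
      have h3 : 2 ^ (Nat.log 2 k) ≤ k := Nat.pow_log_le_self 2 (by omega)
      have h4 : ((2 ^ (Nat.log 2 k) : ℕ) : ℝ) ≤ k := by exact_mod_cast h3
      push_cast at h4
      linarith
    have h3 : x < (2 : ℝ) ^ (Nat.log 2 k + 1) := by
      have h4 : k < 2 ^ (Nat.log 2 k + 1) := Nat.lt_pow_succ_log_self (by norm_num) k
      have h5 : ((k + 1 : ℕ) : ℝ) ≤ ((2 ^ (Nat.log 2 k + 1) : ℕ) : ℝ) := by exact_mod_cast h4
      push_cast at h5
      linarith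
    have h4 : x ^ 2 ≤ (4 : ℝ) ^ (Nat.log 2 k + 1) := by
      have h5 : (4 : ℝ) ^ (Nat.log 2 k + 1) = ((2 : ℝ) ^ (Nat.log 2 k + 1)) ^ 2 := by
        rw [← pow_mul, mul_comm, pow_mul]
        norm_num
      rw [h5]
      exact pow_le_pow_left₀ hx0 h3.le 2
    have h5 := Finset.single_le_sum hnn (Finset.mem_range.2
      (Nat.lt_succ_of_le (Nat.log_mono_right hkR)))
    rw [if_pos h2] at h5
    linarith

theorem smp_det {N : ℕ} (f : Fin N → ℝ) (hf0 : ∀ n, 0 ≤ f n) (R : ℕ) (hf : ∀ n, f n ≤ R)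
    (K : ℝ) (hK : ∀ j, j ∈ Finset.range (Nat.log 2 R + 1) →
      ((Finset.univ.filter fun n => (2 : ℝ) ^ j ≤ f n).card : ℝ) ≤ K / 4 ^ j) :
    ∑ n, f n ^ 2 ≤ N + (Nat.log 2 R + 1) * (4 * K) := by
  have h1 : ∑ n, f n ^ 2 ≤ ∑ n : Fin N, (1 + ∑ j ∈ Finset.range (Nat.log 2 R + 1),
      if (2 : ℝ) ^ j ≤ f n then (4 : ℝ) ^ (j + 1) else 0) :=
    Finset.sum_le_sum fun n _ => smp_pt R (f n) (hf0 n) (hf n)
  refine h1.trans ?_
  rw [Finset.sum_add_distrib, Finset.sum_comm]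
  have h2 : ∑ _n : Fin N, (1 : ℝ) = N := by simp
  rw [h2]
  have h3 : ∀ j ∈ Finset.range (Nat.log 2 R + 1),
      (∑ n : Fin N, if (2 : ℝ) ^ j ≤ f n then (4 : ℝ) ^ (j + 1) else 0) ≤ 4 * K := by
    intro j hj
    rw [← Finset.sum_filter, Finset.sum_const, nsmul_eq_mul]
    calc ((Finset.univ.filter fun n => (2 : ℝ) ^ j ≤ f n).card : ℝ) * 4 ^ (j + 1)
        ≤ (K / 4 ^ j) * 4 ^ (j + 1) := mul_le_mul_of_nonneg_right (hK j hj) (by positivity)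
      _ = 4 * K := by
          rw [pow_succ]
          field_simp
  have h4 := Finset.sum_le_sum h3
  rw [Finset.sum_const, Finset.card_range, nsmul_eq_mul] at h4
  push_cast at h4
  linarith

/-- the number of dyadic levels -/
theorem smp_log {R : ℕ} {Λ : ℝ} (hΛ : 1 ≤ Λ) (hR : (R : ℝ) ≤ Real.exp Λ) :
    (Nat.log 2 R : ℝ) + 1 ≤ 3 * Λ := by
  rcases Nat.eq_zero_or_pos R with h0 | h0
  · rw [h0]
    simp
    linarith
  · have h1 : ((2 ^ (Nat.log 2 R) : ℕ) : ℝ) ≤ R := by exact_mod_cast Nat.pow_log_le_self 2 (by omega)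
    push_cast at h1
    have h2 : (Nat.log 2 R : ℝ) * Real.log 2 ≤ Λ := by
      rw [← Real.log_pow, ← Real.log_exp Λ]
      exact Real.log_le_log (by positivity) (h1.trans hR)
    have h3 := Real.log_two_gt_d9
    have h4 : (0 : ℝ) ≤ Nat.log 2 R := Nat.cast_nonneg _
    nlinarith

/-- **The sampling theorem.** -/
theorem t_SMP (h : S_LEV) : S_SMP := by
  refine ⟨15601, by norm_num, ?_⟩
  intro ι _ Ω _ P _ N Y M Λ hYm hYi hY1 hM hNM hΛ hι hN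
  obtain ⟨E, hEd⟩ : ∃ E : ℕ × ℕ → Set Ω, E = fun x => {ω | ∃ A : Finset ι, A.card = x.1 ∧
      (∑ n, ∫ ω', ‖∑ t ∈ A, Y n ω' t‖ ^ 2 ∂P) ≤ M * (x.1 : ℕ) ∧
      1300 * Λ ^ 2 * (M + (x.1 : ℕ)) * (x.1 : ℕ) / 4 ^ x.2 ≤
        ((Finset.univ.filter fun n => (2 : ℝ) ^ x.2 ≤ ‖∑ t ∈ A, Y n ω t‖).card : ℝ)} := ⟨_, rfl⟩
  have hE : ∀ x : ℕ × ℕ, 2 ^ x.2 ≤ x.1 → P.real (E x) ≤ Real.exp (-(9 * Λ)) := by
    intro x hx
    rw [hEd]
    exact h ι inferInstance Ω inferInstance P inferInstance N Y M Λ x.1 x.2 hYm hYi hY1 hM hΛ hι hN hx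
  obtain ⟨I, hI⟩ : ∃ I : Finset (ℕ × ℕ), I = ((Finset.Icc 1 (Fintype.card ι)) ×ˢ
      (Finset.range (Nat.log 2 (Fintype.card ι) + 1))).filter fun x => 2 ^ x.2 ≤ x.1 := ⟨_, rfl⟩
  have hsub : {ω | ¬ ∀ A : Finset ι, (∑ n, ∫ ω', ‖∑ t ∈ A, Y n ω' t‖ ^ 2 ∂P) ≤ M * A.card →
      ∑ n, ‖∑ t ∈ A, Y n ω t‖ ^ 2 ≤ 15601 * Λ ^ 3 * (M + A.card) * A.card} ⊆ ⋃ x ∈ I, E x := by
    intro ω hω
    by_contra hcon
    apply hω
    intro A hA
    rcases Nat.eq_zero_or_pos A.card with h0 | h0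
    · rw [Finset.card_eq_zero] at h0
      rw [h0]
      simp
    · have hAc : A.card ≤ Fintype.card ι := Finset.card_le_univ A
      have hAe : (A.card : ℝ) ≤ Real.exp Λ := le_trans (by exact_mod_cast hAc) hι
      have hf : ∀ n : Fin N, ‖∑ t ∈ A, Y n ω t‖ ≤ (A.card : ℝ) := by
        intro n
        refine (norm_sum_le _ _).trans ?_
        calc ∑ t ∈ A, ‖Y n ω t‖ ≤ ∑ t ∈ A, (1 : ℝ) := Finset.sum_le_sum fun t _ => hY1 n ω t
          _ = A.card := by simp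
      have hlev : ∀ j, j ∈ Finset.range (Nat.log 2 A.card + 1) →
          ((Finset.univ.filter fun n => (2 : ℝ) ^ j ≤ ‖∑ t ∈ A, Y n ω t‖).card : ℝ) ≤
            (1300 * Λ ^ 2 * (M + A.card) * A.card) / 4 ^ j := by
        intro j hj
        by_contra hlt
        apply hcon
        rw [Finset.mem_range] at hj
        have h2 : 2 ^ j ≤ A.card :=
          (Nat.pow_le_pow_right (by norm_num) (by omega)).trans (Nat.pow_log_le_self 2 (by omega))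
        have hmem : (A.card, j) ∈ I := by
          rw [hI, Finset.mem_filter, Finset.mem_product, Finset.mem_Icc, Finset.mem_range]
          exact ⟨⟨⟨h0, hAc⟩, lt_of_lt_of_le hj (Nat.succ_le_succ (Nat.log_mono_right hAc))⟩, h2⟩
        refine Set.mem_biUnion hmem ?_
        rw [hEd]
        exact ⟨A, rfl, hA, (not_le.1 hlt).le⟩
      have h3 := smp_det (fun n => ‖∑ t ∈ A, Y n ω t‖) (fun n => norm_nonneg _) A.card hf _ hlev
      have h4 := smp_log hΛ hAe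
      have hA1 : (1 : ℝ) ≤ A.card := by exact_mod_cast h0
      obtain ⟨Z, hZ⟩ : ∃ Z : ℝ, Z = (M + A.card) * A.card := ⟨_, rfl⟩
      have hZM : M ≤ Z := by rw [hZ]; nlinarith
      have hZ0 : 0 ≤ Z := by linarith
      have hΛ3 : 1 ≤ Λ ^ 3 := one_le_pow₀ hΛ
      have h5 : ((Nat.log 2 A.card : ℝ) + 1) * (4 * (1300 * Λ ^ 2 * (M + A.card) * A.card)) ≤
          15600 * Λ ^ 3 * Z := by
        calc ((Nat.log 2 A.card : ℝ) + 1) * (4 * (1300 * Λ ^ 2 * (M + A.card) * A.card))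
            = ((Nat.log 2 A.card : ℝ) + 1) * (5200 * Λ ^ 2 * Z) := by rw [hZ]; ring
          _ ≤ (3 * Λ) * (5200 * Λ ^ 2 * Z) := mul_le_mul_of_nonneg_right h4 (by positivity)
          _ = _ := by ring
      have h6 : (N : ℝ) ≤ Λ ^ 3 * Z := by
        calc (N : ℝ) ≤ 1 * Z := by linarith
          _ ≤ Λ ^ 3 * Z := mul_le_mul_of_nonneg_right hΛ3 hZ0
      calc ∑ n, ‖∑ t ∈ A, Y n ω t‖ ^ 2
          ≤ N + ((Nat.log 2 A.card : ℝ) + 1) * (4 * (1300 * Λ ^ 2 * (M + A.card) * A.card)) := h3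
        _ ≤ Λ ^ 3 * Z + 15600 * Λ ^ 3 * Z := add_le_add h6 h5
        _ = 15601 * Λ ^ 3 * (M + A.card) * A.card := by rw [hZ]; ring
  have h1 : P.real {ω | ¬ ∀ A : Finset ι, (∑ n, ∫ ω', ‖∑ t ∈ A, Y n ω' t‖ ^ 2 ∂P) ≤ M * A.card →
      ∑ n, ‖∑ t ∈ A, Y n ω t‖ ^ 2 ≤ 15601 * Λ ^ 3 * (M + A.card) * A.card} ≤
      ∑ x ∈ I, P.real (E x) :=
    (measureReal_mono hsub (measure_ne_top P _)).trans (measureReal_biUnion_finset_le I E)
  have h2 : ∑ x ∈ I, P.real (E x) ≤ I.card * Real.exp (-(9 * Λ)) := by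
    rw [← nsmul_eq_mul]
    refine Finset.sum_le_card_nsmul _ _ _ fun x hx => hE x ?_
    rw [hI, Finset.mem_filter] at hx
    exact hx.2
  have h3 : (I.card : ℝ) ≤ Real.exp Λ * (3 * Λ) := by
    have h4 : I.card ≤ Fintype.card ι * (Nat.log 2 (Fintype.card ι) + 1) := by
      rw [hI]
      refine (Finset.card_filter_le _ _).trans ?_
      rw [Finset.card_product, Nat.card_Icc, Finset.card_range, Nat.add_sub_cancel]
    have h5 : (I.card : ℝ) ≤ (Fintype.card ι : ℝ) * ((Nat.log 2 (Fintype.card ι) : ℝ) + 1) := by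
      exact_mod_cast h4
    exact h5.trans (mul_le_mul hι (smp_log hΛ hι) (by positivity) (Real.exp_pos _).le)
  have h4 : 3 * Λ ≤ Real.exp (6 * Λ) := by
    have := Real.add_one_le_exp (6 * Λ)
    linarith
  calc (P {ω | ¬ ∀ A : Finset ι, (∑ n, ∫ ω', ‖∑ t ∈ A, Y n ω' t‖ ^ 2 ∂P) ≤ M * A.card →
      ∑ n, ‖∑ t ∈ A, Y n ω t‖ ^ 2 ≤ 15601 * Λ ^ 3 * (M + A.card) * A.card}).toReal
      ≤ ∑ x ∈ I, P.real (E x) := h1
    _ ≤ I.card * Real.exp (-(9 * Λ)) := h2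
    _ ≤ (Real.exp Λ * Real.exp (6 * Λ)) * Real.exp (-(9 * Λ)) :=
        mul_le_mul_of_nonneg_right
          (h3.trans (mul_le_mul_of_nonneg_left h4 (Real.exp_pos _).le)) (Real.exp_pos _).le
    _ = Real.exp (-(2 * Λ)) := by
        rw [← Real.exp_add, ← Real.exp_add]
        congr 1
        ring

end Pool.Agent.N282.PM
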