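import Pool.Agent.N282.PM.Stm

/-!
# Project PM (helper282), part WS (worker: helper477)
-/

set_option autoImplicit false

open MeasureTheory Filter Topology Classical

namespace Pool.Agent.N282.PM

theorem ws_norm_ph (t x : ℝ) : ‖ph t x‖ = 1 := by
  unfold ph
  have h : Complex.I * t * (Real.log x : ℂ) = ((t * Real.log x : ℝ) : ℂ) * Complex.I := by
    push_cast
    ring
  rw [h, Complex.norm_exp_ofReal_mul_I]

theorem ws_ph_neg (t x : ℝ) : ph (-t) x = (starRingEnd ℂ) (ph t x) := by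
  unfold ph
  rw [← Complex.exp_conj]
  congr 1
  rw [map_mul, map_mul, Complex.conj_I, Complex.conj_ofReal, Complex.conj_ofReal]
  push_cast
  ring

theorem ws_card (S : Finset ℝ) (T : ℝ) (hT : 0 ≤ T) (hS : ∀ t ∈ S, 0 ≤ t ∧ t ≤ T)
    (hsep : Sep 1 S) : (S.card : ℝ) ≤ T + 1 := by
  have hinj : Set.InjOn (fun t : ℝ => ⌊t⌋) S := by
    intro t ht u hu h
    by_contra hne
    have h1 := hsep t ht u hu hne
    have h2 : |t - u| < 1 := Int.abs_sub_lt_one_of_floor_eq_floor h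
    linarith
  have h1 : S.image (fun t : ℝ => ⌊t⌋) ⊆ Finset.Icc 0 ⌊T⌋ := by
    intro k hk
    rw [Finset.mem_image] at hk
    obtain ⟨t, ht, rfl⟩ := hk
    rw [Finset.mem_Icc]
    exact ⟨Int.floor_nonneg.2 (hS t ht).1, Int.floor_mono (hS t ht).2⟩
  have h2 := Finset.card_le_card h1
  rw [Finset.card_image_of_injOn hinj, Int.card_Icc] at h2
  have h3 : 0 ≤ ⌊T⌋ := Int.floor_nonneg.2 hT
  have h4 : ((⌊T⌋ + 1 - 0).toNat : ℤ) = ⌊T⌋ + 1 := by omega
  have h5 : (S.card : ℤ) ≤ ⌊T⌋ + 1 := by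
    rw [← h4]
    exact_mod_cast h2
  have h6 : (S.card : ℝ) ≤ (⌊T⌋ : ℝ) + 1 := by exact_mod_cast h5
  linarith [Int.floor_le T]

theorem t_WS : S_WS := by
  intro x hx ε κ hε hκ
  obtain ⟨C, hC, h⟩ := hx (ε * κ / 2) (1 / ε) (by positivity) (by positivity)
  obtain ⟨T₀, hT₀⟩ : ∃ T₀ : ℝ, T₀ = (2 * C) ^ (2 / ε) := ⟨_, rfl⟩
  have hT₀0 : 0 ≤ T₀ := by rw [hT₀]; positivity
  refine ⟨2 * C + (T₀ + 1), fun N T V hN hT hV hNT hNV a S ha hS hsep hlarge => ?_⟩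
  have hN1 : (1 : ℝ) ≤ N := by exact_mod_cast hN
  have hN0 : (0 : ℝ) < N := by linarith
  have hT0 : 0 < T := by linarith
  have hV2 : V ^ (-2 : ℤ) = (V ^ 2)⁻¹ := by
    rw [zpow_neg]
    norm_cast
  rw [hV2]
  have hTε : 1 ≤ T ^ ε := Real.one_le_rpow hT hε.le
  rcases S.eq_empty_or_nonempty with hSe | ⟨t₀, ht₀⟩
  · rw [hSe]
    simp only [Finset.card_empty, Nat.cast_zero]
    positivity
  obtain ⟨a', ha'⟩ : ∃ a' : ℕ → ℂ, ∀ n, a' n = (starRingEnd ℂ) (a n) := ⟨_, fun _ => rfl⟩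
  have hDP : ∀ t : ℝ, ‖DP x a' N t‖ = ‖∑ n ∈ Finset.Icc 1 N, a n * ph (-t) (x n)‖ := by
    intro t
    rw [← RCLike.norm_conj (∑ n ∈ Finset.Icc 1 N, a n * ph (-t) (x n)), map_sum]
    unfold DP
    congr 1
    refine Finset.sum_congr rfl fun n _ => ?_
    rw [map_mul, ws_ph_neg, Complex.conj_conj, ha']
  have ha'2 : ∑ n ∈ Finset.Icc 1 N, ‖a' n‖ ^ 2 ≤ N := by
    refine le_trans (le_of_eq ?_) ha
    refine Finset.sum_congr rfl fun n _ => ?_
    rw [ha', RCLike.norm_conj]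
  -- Cauchy-Schwarz
  have hVN : V ≤ N := by
    have h1 := hlarge t₀ ht₀
    have h2 : ‖∑ n ∈ Finset.Icc 1 N, a n * ph (-t₀) (x n)‖ ≤ ∑ n ∈ Finset.Icc 1 N, ‖a n‖ := by
      refine (norm_sum_le _ _).trans (le_of_eq ?_)
      refine Finset.sum_congr rfl fun n _ => ?_
      rw [norm_mul, ws_norm_ph, mul_one]
    have h3 : (∑ n ∈ Finset.Icc 1 N, ‖a n‖) ^ 2 ≤ (N : ℝ) ^ 2 := by
      have h4 := sq_sum_le_card_mul_sum_sq (s := Finset.Icc 1 N) (f := fun n => ‖a n‖)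
      rw [Nat.card_Icc, Nat.add_sub_cancel] at h4
      refine h4.trans ?_
      rw [sq]
      exact mul_le_mul_of_nonneg_left ha hN0.le
    have h4 : ∑ n ∈ Finset.Icc 1 N, ‖a n‖ ≤ N :=
      (pow_le_pow_iff_left₀ (Finset.sum_nonneg fun _ _ => norm_nonneg _) hN0.le two_ne_zero).1 h3
    linarith
  have hV2N : V ^ 2 ≤ (N : ℝ) ^ 2 := pow_le_pow_left₀ hV.le hVN 2
  have hTN : T ≤ (N : ℝ) ^ (1 / ε) := by
    have h1 : T ^ ε ≤ N := by
      have h2 : N * T ^ ε ≤ (N : ℝ) * N := by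
        rw [← sq]
        exact hNV.trans hV2N
      exact le_of_mul_le_mul_left h2 hN0
    have h2 : T = (T ^ ε) ^ (1 / ε) := by
      rw [← Real.rpow_mul hT0.le, mul_one_div_cancel hε.ne', Real.rpow_one]
    rw [h2]
    exact Real.rpow_le_rpow (Real.rpow_nonneg hT0.le _) h1 (by positivity)
  have h1 := h N hN S (fun t ht => ⟨(hS t ht).1, (hS t ht).2.trans hTN⟩) hsep a'
  have h2 : (S.card : ℝ) * V ^ 2 ≤ ∑ t ∈ S, ‖DP x a' N t‖ ^ 2 := by
    rw [← nsmul_eq_mul, ← Finset.sum_const]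
    refine Finset.sum_le_sum fun t ht => ?_
    rw [hDP]
    exact pow_le_pow_left₀ hV.le (hlarge t ht) 2
  have hNT2 : (N : ℝ) ^ (ε * κ / 2) ≤ T ^ (ε / 2) := by
    have h3 : (N : ℝ) ^ (ε * κ / 2) = ((N : ℝ) ^ κ) ^ (ε / 2) := by
      rw [← Real.rpow_mul hN0.le]
      congr 1
      ring
    rw [h3]
    exact Real.rpow_le_rpow (Real.rpow_nonneg hN0.le _) hNT (by positivity)
  have hS0 : (0 : ℝ) ≤ S.card := Nat.cast_nonneg _
  have h3 : (S.card : ℝ) * V ^ 2 ≤ C * N * T ^ (ε / 2) * (N + S.card) := by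
    refine h2.trans (h1.trans ?_)
    have h4 : C * (N : ℝ) ^ (ε * κ / 2) * (N + S.card) * ∑ n ∈ Finset.Icc 1 N, ‖a' n‖ ^ 2 ≤
        C * T ^ (ε / 2) * (N + S.card) * N := by
      refine mul_le_mul ?_ ha'2 (Finset.sum_nonneg fun _ _ => by positivity) (by positivity)
      refine mul_le_mul_of_nonneg_right ?_ (by positivity)
      exact mul_le_mul_of_nonneg_left hNT2 hC.le
    refine h4.trans (le_of_eq ?_)
    ring
  have hTT : T ^ (ε / 2) ≤ T ^ ε := Real.rpow_le_rpow_of_exponent_le hT (by linarith)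
  have hV20 : 0 < V ^ 2 := by positivity
  by_cases hcase : C * N * T ^ (ε / 2) ≤ V ^ 2 / 2
  · have h4 : (S.card : ℝ) * V ^ 2 ≤ 2 * (C * N * T ^ (ε / 2) * N) := by
      nlinarith [mul_le_mul_of_nonneg_right hcase hS0]
    have h5 : (S.card : ℝ) ≤ 2 * C * (N : ℝ) ^ 2 * (V ^ 2)⁻¹ * T ^ (ε / 2) := by
      refine le_of_mul_le_mul_right ?_ hV20
      refine h4.trans (le_of_eq ?_)
      field_simp
    calc (S.card : ℝ) ≤ 2 * C * (N : ℝ) ^ 2 * (V ^ 2)⁻¹ * T ^ (ε / 2) := h5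
      _ ≤ 2 * C * (N : ℝ) ^ 2 * (V ^ 2)⁻¹ * T ^ ε := mul_le_mul_of_nonneg_left hTT (by positivity)
      _ ≤ (2 * C + (T₀ + 1)) * (N : ℝ) ^ 2 * (V ^ 2)⁻¹ * T ^ ε := by
          refine mul_le_mul_of_nonneg_right ?_ (by positivity)
          refine mul_le_mul_of_nonneg_right ?_ (by positivity)
          refine mul_le_mul_of_nonneg_right ?_ (by positivity)
          linarith
  · push Not at hcase
    have h4 : T ^ (ε / 2) < 2 * C := by
      have h5 : N * T ^ ε < 2 * (C * N * T ^ (ε / 2)) := by linarith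
      have h6 : T ^ ε = T ^ (ε / 2) * T ^ (ε / 2) := by
        rw [← Real.rpow_add hT0]
        congr 1
        ring
      rw [h6] at h5
      have h7 : 0 < N * T ^ (ε / 2) := by positivity
      have h8 : (N * T ^ (ε / 2)) * T ^ (ε / 2) < (N * T ^ (ε / 2)) * (2 * C) := by nlinarith
      exact lt_of_mul_lt_mul_left h8 h7.le
    have h5 : T ≤ T₀ := by
      rw [hT₀]
      have h6 : T = (T ^ (ε / 2)) ^ (2 / ε) := by
        rw [← Real.rpow_mul hT0.le]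
        have : ε / 2 * (2 / ε) = 1 := by field_simp
        rw [this, Real.rpow_one]
      rw [h6]
      exact Real.rpow_le_rpow (Real.rpow_nonneg hT0.le _) h4.le (by positivity)
    have h6 := ws_card S T hT0.le hS hsep
    have h7 : 1 ≤ (N : ℝ) ^ 2 * (V ^ 2)⁻¹ := by
      rw [← div_eq_mul_inv, one_le_div hV20]
      exact hV2N
    have h8 : 1 ≤ (N : ℝ) ^ 2 * (V ^ 2)⁻¹ * T ^ ε := one_le_mul_of_one_le_of_one_le h7 hTε
    calc (S.card : ℝ) ≤ T₀ + 1 := by linarith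
      _ ≤ (2 * C + (T₀ + 1)) * ((N : ℝ) ^ 2 * (V ^ 2)⁻¹ * T ^ ε) := by nlinarith
      _ = _ := by ring

end Pool.Agent.N282.PM
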