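import Pool.Agent.N282.PM.Dev
import Pool.Agent.N282.PM.Mau
import Pool.Agent.N282.PM.Poi
import Pool.Agent.N282.PM.Lev
import Pool.Agent.N282.PM.Smp
import Pool.Agent.N282.PM.Dya
import Pool.Agent.N282.PM.Dual
import Pool.Agent.N282.PM.Loc
import Pool.Agent.N282.PM.Bes
import Pool.Agent.N282.PM.Main
import Pool.Agent.N282.PM.As
import Pool.Agent.N282.PM.Lvq
import Pool.Agent.N282.PM.Lq
import Pool.Agent.N282.PM.Ws

/-!
# Project PM: assembly (helper282)
-/

set_option autoImplicit false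

namespace Pool.Agent.N282.PM

theorem a_MAIN : S_MAIN := t_MAIN (t_SMP (t_LEV t_MAU t_POI)) t_DYA t_DUAL (t_BES t_LOC)

theorem a_AS : S_AS := t_AS a_MAIN

end Pool.Agent.N282.PM
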