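import Pool.Agent.N282.PM.Stm

/-!
# Generalised integers: sums supported on the integers with a large prime factor (helper282)
-/

set_option autoImplicit false

open MeasureTheory Filter Topology Classical

namespace Pool.Agent.N282.PM

/-- the completely multiplicative extension of the values at the primes -/
noncomputable def mz (x : ℕ → ℝ) (n : ℕ) : ℝ := n.factorization.prod fun p k => x p ^ k

theorem Beu_mz_mul (x : ℕ → ℝ) (m n : ℕ) (hm : m ≠ 0) (hn : n ≠ 0) : mz x (m * n) = mz x m * mz x n := by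
  unfold mz
  rw [Nat.factorization_mul hm hn, Finsupp.prod_add_index']
  · intro p; exact pow_zero _
  · intro p a b; exact pow_add _ _ _

theorem Beu_mz_prime (x : ℕ → ℝ) (p : ℕ) (hp : p.Prime) : mz x p = x p := by
  unfold mz
  rw [hp.factorization, Finsupp.prod_single_index (h := fun p k => x p ^ k) (pow_zero _), pow_one]

theorem Beu_mz_pos (x : ℕ → ℝ) (hx : ∀ p : ℕ, p.Prime → 0 < x p) (n : ℕ) : 0 < mz x n := by
  unfold mz
  refine Finset.prod_pos fun p hp => ?_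
  exact pow_pos (hx p (Nat.prime_of_mem_primeFactors hp)) _

theorem Beu_ph_mul (t x y : ℝ) (hx : 0 < x) (hy : 0 < y) : ph t (x * y) = ph t x * ph t y := by
  unfold ph
  rw [Real.log_mul hx.ne' hy.ne', ← Complex.exp_add]
  congr 1
  push_cast
  ring

theorem Beu_norm_ph (t x : ℝ) : ‖ph t x‖ = 1 := by
  unfold ph
  have h : Complex.I * t * (Real.log x : ℂ) = ((t * Real.log x : ℝ) : ℂ) * Complex.I := by
    push_cast
    ring
  rw [h, Complex.norm_exp_ofReal_mul_I]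

/-- the fibres of `n ↦ n / p(n)` -/
theorem Beu_fib {E : Type} [AddCommMonoid E] (N : ℕ) (D : ℕ → Prop) (pf : ℕ → ℕ)
    (h1 : ∀ n, n ∈ Finset.Icc 1 N → D n → pf n ∣ n ∧ 1 ≤ pf n) (F : ℕ → E) (m : ℕ) (hm : 1 ≤ m) :
    ∑ n ∈ ((Finset.Icc 1 N).filter D).filter (fun n => n / pf n = m), F n =
      ∑ k ∈ Finset.Icc 1 (N / m), if (m * k ∈ Finset.Icc 1 N ∧ D (m * k) ∧ pf (m * k) = k) then F (m * k) else 0 := by
  rw [← Finset.sum_filter]
  refine Finset.sum_nbij' (fun n => pf n) (fun k => m * k) ?_ ?_ ?_ ?_ ?_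
  · intro n hn
    rw [Finset.mem_filter, Finset.mem_filter] at hn
    obtain ⟨⟨hn1, hn2⟩, hn3⟩ := hn
    obtain ⟨hd, hp1⟩ := h1 n hn1 hn2
    have e : m * pf n = n := by rw [← hn3]; exact Nat.div_mul_cancel hd
    rw [Finset.mem_filter, Finset.mem_Icc]
    refine ⟨⟨hp1, ?_⟩, ?_⟩
    · rw [Nat.le_div_iff_mul_le (by omega), mul_comm, e]
      exact (Finset.mem_Icc.1 hn1).2
    · rw [e]
      exact ⟨hn1, hn2, rfl⟩
  · intro k hk
    rw [Finset.mem_filter, Finset.mem_Icc] at hk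
    obtain ⟨⟨hk1, hk2⟩, hk3, hk4, hk5⟩ := hk
    rw [Finset.mem_filter, Finset.mem_filter]
    refine ⟨⟨hk3, hk4⟩, ?_⟩
    rw [hk5]
    exact Nat.mul_div_cancel _ (by omega)
  · intro n hn
    rw [Finset.mem_filter, Finset.mem_filter] at hn
    obtain ⟨⟨hn1, hn2⟩, hn3⟩ := hn
    obtain ⟨hd, hp1⟩ := h1 n hn1 hn2
    show m * pf n = n
    rw [← hn3]
    exact Nat.div_mul_cancel hd
  · intro k hk
    rw [Finset.mem_filter] at hk
    exact hk.2.2.2
  · intro n hn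
    rw [Finset.mem_filter, Finset.mem_filter] at hn
    obtain ⟨⟨hn1, hn2⟩, hn3⟩ := hn
    obtain ⟨hd, hp1⟩ := h1 n hn1 hn2
    have e : m * pf n = n := by rw [← hn3]; exact Nat.div_mul_cancel hd
    show F n = F (m * pf n)
    rw [e]

/-- weighted Cauchy–Schwarz -/
theorem Beu_cs (M : Finset ℕ) (w : ℕ → ℝ) (hw : ∀ m ∈ M, 0 < w m) (z : ℕ → ℂ) :
    ‖∑ m ∈ M, z m‖ ^ 2 ≤ (∑ m ∈ M, w m) * ∑ m ∈ M, ‖z m‖ ^ 2 / w m := by
  have h1 : ‖∑ m ∈ M, z m‖ ≤ ∑ m ∈ M, ‖z m‖ := norm_sum_le _ _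
  have h2 : (∑ m ∈ M, ‖z m‖) ^ 2 ≤ (∑ m ∈ M, w m) * ∑ m ∈ M, ‖z m‖ ^ 2 / w m := by
    refine Finset.sum_sq_le_sum_mul_sum_of_sq_le_mul M (fun m hm => (hw m hm).le)
      (fun m hm => div_nonneg (sq_nonneg _) (hw m hm).le) (fun m hm => le_of_eq ?_)
    have := (hw m hm).ne'
    field_simp
  exact (pow_le_pow_left₀ (norm_nonneg _) h1 2).trans h2

theorem Beu_harm (N : ℕ) (hN : 1 ≤ N) : ∑ m ∈ Finset.Icc 1 N, (N : ℝ) / m ≤ N * (1 + Real.log N) := by
  have h := harmonic_le_one_add_log N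
  have e : ((harmonic N : ℚ) : ℝ) = ∑ m ∈ Finset.Icc 1 N, (1 : ℝ) / m := by
    rw [harmonic_eq_sum_Icc]
    push_cast
    refine Finset.sum_congr rfl fun m _ => ?_
    rw [one_div]
  rw [e] at h
  calc ∑ m ∈ Finset.Icc 1 N, (N : ℝ) / m = N * ∑ m ∈ Finset.Icc 1 N, (1 : ℝ) / m := by
        rw [Finset.mul_sum]
        refine Finset.sum_congr rfl fun m _ => ?_
        ring
    _ ≤ _ := mul_le_mul_of_nonneg_left h (by positivity)

theorem Beu_main (x : ℕ → ℝ) (hx : Good x) (hpos : ∀ p : ℕ, p.Prime → 0 < x p) (ε A θ : ℝ) (hε : 0 < ε)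
    (hA : 0 < A) (hθ : 0 < θ) : ∃ C : ℝ, 0 < C ∧ ∀ (N : ℕ) (Q : ℝ), 1 ≤ N → (N : ℝ) ^ θ ≤ Q →
      ∀ S : Finset ℝ, (∀ t ∈ S, 0 ≤ t ∧ t ≤ (N : ℝ) ^ A) → Sep 1 S → ∀ a : ℕ → ℂ,
        (∀ n ∈ Finset.Icc 1 N, a n ≠ 0 → ∃ p : ℕ, p.Prime ∧ p ∣ n ∧ Q < p) →
          ∑ t ∈ S, ‖DP (mz x) a N t‖ ^ 2 ≤
            C * (N : ℝ) ^ ε * (N + N / Q * S.card) * ∑ n ∈ Finset.Icc 1 N, ‖a n‖ ^ 2 := by
  obtain ⟨C, hC, h⟩ := hx (ε / 2) (A / θ) (by positivity) (by positivity)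
  refine ⟨C * (1 + 2 / ε), by positivity, ?_⟩
  intro N Q hN hQ S hS hsep a hsupp
  have hN1 : (1 : ℝ) ≤ N := by exact_mod_cast hN
  have hN0 : (0 : ℝ) < N := by linarith
  have hQ1 : 1 ≤ Q := (Real.one_le_rpow hN1 hθ.le).trans hQ
  have hQ0 : 0 < Q := by linarith
  obtain ⟨D, hD⟩ : ∃ D : ℕ → Prop, ∀ n, D n ↔ a n ≠ 0 := ⟨fun n => a n ≠ 0, fun _ => Iff.rfl⟩
  obtain ⟨pf, hpf⟩ : ∃ pf : ℕ → ℕ, ∀ n ∈ Finset.Icc 1 N, D n → (pf n).Prime ∧ pf n ∣ n ∧ Q < pf n := by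
    refine ⟨fun n => if hn : n ∈ Finset.Icc 1 N ∧ a n ≠ 0 then (hsupp n hn.1 hn.2).choose else 1, ?_⟩
    intro n hn1 hn2
    rw [hD] at hn2
    have := (hsupp n hn1 hn2).choose_spec
    simpa only [dif_pos (show n ∈ Finset.Icc 1 N ∧ a n ≠ 0 from ⟨hn1, hn2⟩)] using this
  have hfib1 : ∀ n, n ∈ Finset.Icc 1 N → D n → pf n ∣ n ∧ 1 ≤ pf n :=
    fun n hn1 hn2 => ⟨(hpf n hn1 hn2).2.1, (hpf n hn1 hn2).1.one_lt.le⟩
  set M : Finset ℕ := (Finset.Icc 1 N).filter fun m => (m : ℝ) * Q ≤ N with hM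
  have hMm : ∀ m ∈ M, 1 ≤ m ∧ m ≤ N ∧ (m : ℝ) * Q ≤ N := by
    intro m hm
    rw [hM, Finset.mem_filter, Finset.mem_Icc] at hm
    exact ⟨hm.1.1, hm.1.2, hm.2⟩
  have hmaps : ∀ n ∈ (Finset.Icc 1 N).filter D, n / pf n ∈ M := by
    intro n hn
    rw [Finset.mem_filter] at hn
    obtain ⟨hn1, hn2⟩ := hn
    obtain ⟨hp, hd, hq⟩ := hpf n hn1 hn2
    have e : n / pf n * pf n = n := Nat.div_mul_cancel hd
    have hn1' := Finset.mem_Icc.1 hn1
    rw [hM, Finset.mem_filter, Finset.mem_Icc]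
    refine ⟨⟨?_, (Nat.div_le_self _ _).trans hn1'.2⟩, ?_⟩
    · by_contra h0
      have : n / pf n = 0 := Nat.lt_one_iff.1 (not_le.1 h0)
      rw [this, zero_mul] at e
      omega
    · calc ((n / pf n : ℕ) : ℝ) * Q ≤ ((n / pf n : ℕ) : ℝ) * pf n :=
            mul_le_mul_of_nonneg_left hq.le (Nat.cast_nonneg _)
        _ = n := by rw [← Nat.cast_mul, e]
        _ ≤ N := by exact_mod_cast hn1'.2
  set c : ℕ → ℕ → ℂ := fun m k =>
    if (m * k ∈ Finset.Icc 1 N ∧ D (m * k) ∧ pf (m * k) = k) then a (m * k) else 0 with hc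
  -- decomposition
  have hdec : ∀ t : ℝ, DP (mz x) a N t = ∑ m ∈ M, ph t (mz x m) * DP x (c m) (N / m) t := by
    intro t
    unfold DP
    have e1 : ∑ n ∈ Finset.Icc 1 N, a n * ph t (mz x n) =
        ∑ n ∈ (Finset.Icc 1 N).filter D, a n * ph t (mz x n) := by
      rw [Finset.sum_filter]
      refine Finset.sum_congr rfl fun n _ => ?_
      by_cases h0 : a n = 0
      · rw [h0]; simp
      · rw [if_pos ((hD n).2 h0)]
    rw [e1, ← Finset.sum_fiberwise_of_maps_to hmaps]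
    refine Finset.sum_congr rfl fun m hm => ?_
    rw [Beu_fib N D pf hfib1 (fun n => a n * ph t (mz x n)) m (hMm m hm).1, Finset.mul_sum]
    refine Finset.sum_congr rfl fun k hk => ?_
    simp only [hc]
    split_ifs with hcond
    · obtain ⟨h1, h2, h3⟩ := hcond
      have hkp : k.Prime := by have := (hpf _ h1 h2).1; rwa [h3] at this
      have hm0 : m ≠ 0 := by have := (hMm m hm).1; omega
      rw [Beu_mz_mul x m k hm0 hkp.ne_zero, Beu_mz_prime x k hkp, Beu_ph_mul t _ _ (Beu_mz_pos x hpos m) (hpos k hkp)]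
      ring
    · simp
  have hcoef : ∑ m ∈ M, ∑ k ∈ Finset.Icc 1 (N / m), ‖c m k‖ ^ 2 ≤ ∑ n ∈ Finset.Icc 1 N, ‖a n‖ ^ 2 := by
    have e1 : ∑ n ∈ (Finset.Icc 1 N).filter D, ‖a n‖ ^ 2 ≤ ∑ n ∈ Finset.Icc 1 N, ‖a n‖ ^ 2 :=
      Finset.sum_le_sum_of_subset_of_nonneg (Finset.filter_subset _ _) fun _ _ _ => sq_nonneg _
    refine le_trans (le_of_eq ?_) e1
    rw [← Finset.sum_fiberwise_of_maps_to hmaps]
    refine Finset.sum_congr rfl fun m hm => ?_
    rw [Beu_fib N D pf hfib1 (fun n => ‖a n‖ ^ 2) m (hMm m hm).1]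
    refine Finset.sum_congr rfl fun k hk => ?_
    simp only [hc]
    split_ifs with hcond
    · rfl
    · simp
  -- one m
  set w : ℕ → ℝ := fun m => (N : ℝ) / m + S.card with hw
  have hw0 : ∀ m ∈ M, 0 < w m := by
    intro m hm
    have h1 : (0 : ℝ) < m := by exact_mod_cast (hMm m hm).1
    have : (0 : ℝ) ≤ S.card := Nat.cast_nonneg _
    have h2 : 0 < (N : ℝ) / m := by positivity
    simp only [hw]
    linarith
  have hone : ∀ m ∈ M, ∑ t ∈ S, ‖DP x (c m) (N / m) t‖ ^ 2 ≤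
      C * (N : ℝ) ^ (ε / 2) * w m * ∑ k ∈ Finset.Icc 1 (N / m), ‖c m k‖ ^ 2 := by
    intro m hm
    obtain ⟨hm1, hmN, hmQ⟩ := hMm m hm
    have hm0 : (0 : ℝ) < m := by exact_mod_cast hm1
    by_cases hex : ∃ k ∈ Finset.Icc 1 (N / m), c m k ≠ 0
    · obtain ⟨k, hk, hck⟩ := hex
      simp only [hc] at hck
      split_ifs at hck with hcond
      · obtain ⟨h1, h2, h3⟩ := hcond
        have hq := (hpf _ h1 h2).2.2
        rw [h3] at hq
        rw [Finset.mem_Icc] at hk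
        have hk2 : (k : ℝ) ≤ ((N / m : ℕ) : ℝ) := by exact_mod_cast hk.2
        have hNm : (N : ℝ) ^ θ ≤ ((N / m : ℕ) : ℝ) := hQ.trans (hq.le.trans hk2)
        have hNm1 : 1 ≤ N / m := hk.1.trans hk.2
        have hT : (N : ℝ) ^ A ≤ ((N / m : ℕ) : ℝ) ^ (A / θ) := by
          calc (N : ℝ) ^ A = ((N : ℝ) ^ θ) ^ (A / θ) := by
                rw [← Real.rpow_mul hN0.le]
                congr 1
                field_simp
            _ ≤ _ := Real.rpow_le_rpow (Real.rpow_nonneg hN0.le _) hNm (by positivity)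
        have h4 := h (N / m) hNm1 S (fun t ht => ⟨(hS t ht).1, (hS t ht).2.trans hT⟩) hsep (c m)
        refine h4.trans ?_
        refine mul_le_mul_of_nonneg_right ?_ (Finset.sum_nonneg fun _ _ => sq_nonneg _)
        have h5 : ((N / m : ℕ) : ℝ) ≤ (N : ℝ) / m := Nat.cast_div_le
        have h6 : ((N / m : ℕ) : ℝ) ≤ N := by exact_mod_cast Nat.div_le_self _ _
        refine mul_le_mul ?_ (by simp only [hw]; linarith) (by positivity) (by positivity)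
        refine mul_le_mul_of_nonneg_left ?_ hC.le
        exact Real.rpow_le_rpow (Nat.cast_nonneg _) h6 (by positivity)
      · exact absurd rfl hck
    · push Not at hex
      have h0 : ∀ t, DP x (c m) (N / m) t = 0 := by
        intro t
        unfold DP
        refine Finset.sum_eq_zero fun k hk => ?_
        rw [hex k hk, zero_mul]
      simp only [h0]
      have : 0 ≤ C * (N : ℝ) ^ (ε / 2) * w m * ∑ k ∈ Finset.Icc 1 (N / m), ‖c m k‖ ^ 2 := by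
        have := (hw0 m hm).le
        have h3 : 0 ≤ ∑ k ∈ Finset.Icc 1 (N / m), ‖c m k‖ ^ 2 := Finset.sum_nonneg fun _ _ => sq_nonneg _
        positivity
      simpa using this
  -- the sum of the weights
  have hwsum : ∑ m ∈ M, w m ≤ (1 + Real.log N) * (N + N / Q * S.card) := by
    have hS0 : (0 : ℝ) ≤ S.card := Nat.cast_nonneg _
    have hl : 0 ≤ Real.log N := Real.log_nonneg hN1
    have e1 : ∑ m ∈ M, w m = ∑ m ∈ M, (N : ℝ) / m + M.card * S.card := by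
      simp only [hw]
      rw [Finset.sum_add_distrib, Finset.sum_const, nsmul_eq_mul]
    have e2 : ∑ m ∈ M, (N : ℝ) / m ≤ ∑ m ∈ Finset.Icc 1 N, (N : ℝ) / m :=
      Finset.sum_le_sum_of_subset_of_nonneg (Finset.filter_subset _ _) fun _ _ _ => by positivity
    have e3 : (M.card : ℝ) ≤ N / Q := by
      have hsub : M ⊆ Finset.Icc 1 ⌊(N : ℝ) / Q⌋₊ := by
        intro m hm
        rw [Finset.mem_Icc]
        refine ⟨(hMm m hm).1, Nat.le_floor ?_⟩
        rw [le_div_iff₀ hQ0]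
        exact (hMm m hm).2.2
      have := Finset.card_le_card hsub
      rw [Nat.card_Icc, Nat.add_sub_cancel] at this
      calc (M.card : ℝ) ≤ (⌊(N : ℝ) / Q⌋₊ : ℝ) := by exact_mod_cast this
        _ ≤ _ := Nat.floor_le (by positivity)
    rw [e1]
    have e4 := Beu_harm N hN
    have e5 : (M.card : ℝ) * S.card ≤ N / Q * S.card := mul_le_mul_of_nonneg_right e3 hS0
    have e6 : 0 ≤ (N : ℝ) / Q * S.card := by positivity
    nlinarith [mul_nonneg hl e6]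
  have hlog : 1 + Real.log N ≤ (1 + 2 / ε) * (N : ℝ) ^ (ε / 2) := by
    have h1 := Real.log_le_rpow_div hN0.le (ε := ε / 2) (by positivity)
    have h2 : 1 ≤ (N : ℝ) ^ (ε / 2) := Real.one_le_rpow hN1 (by positivity)
    have h3 : (N : ℝ) ^ (ε / 2) / (ε / 2) = 2 / ε * (N : ℝ) ^ (ε / 2) := by field_simp
    rw [h3] at h1
    nlinarith
  have hA2 : 0 ≤ ∑ n ∈ Finset.Icc 1 N, ‖a n‖ ^ 2 := Finset.sum_nonneg fun _ _ => sq_nonneg _
  calc ∑ t ∈ S, ‖DP (mz x) a N t‖ ^ 2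
      = ∑ t ∈ S, ‖∑ m ∈ M, ph t (mz x m) * DP x (c m) (N / m) t‖ ^ 2 :=
        Finset.sum_congr rfl fun t _ => by rw [hdec t]
    _ ≤ ∑ t ∈ S, (∑ m ∈ M, w m) * ∑ m ∈ M, ‖DP x (c m) (N / m) t‖ ^ 2 / w m := by
        refine Finset.sum_le_sum fun t _ => ?_
        refine (Beu_cs M w hw0 _).trans (le_of_eq ?_)
        congr 1
        refine Finset.sum_congr rfl fun m _ => ?_
        rw [norm_mul, Beu_norm_ph, one_mul]
    _ = (∑ m ∈ M, w m) * ∑ m ∈ M, (∑ t ∈ S, ‖DP x (c m) (N / m) t‖ ^ 2) / w m := by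
        rw [← Finset.mul_sum, Finset.sum_comm]
        congr 1
        refine Finset.sum_congr rfl fun m _ => ?_
        rw [Finset.sum_div]
    _ ≤ (∑ m ∈ M, w m) * ∑ m ∈ M, C * (N : ℝ) ^ (ε / 2) * ∑ k ∈ Finset.Icc 1 (N / m), ‖c m k‖ ^ 2 := by
        refine mul_le_mul_of_nonneg_left ?_ (Finset.sum_nonneg fun m hm => (hw0 m hm).le)
        refine Finset.sum_le_sum fun m hm => ?_
        rw [div_le_iff₀ (hw0 m hm)]
        refine (hone m hm).trans (le_of_eq ?_)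
        ring
    _ ≤ (∑ m ∈ M, w m) * (C * (N : ℝ) ^ (ε / 2) * ∑ n ∈ Finset.Icc 1 N, ‖a n‖ ^ 2) := by
        rw [← Finset.mul_sum]
        refine mul_le_mul_of_nonneg_left ?_ (Finset.sum_nonneg fun m hm => (hw0 m hm).le)
        exact mul_le_mul_of_nonneg_left hcoef (by positivity)
    _ ≤ ((1 + 2 / ε) * (N : ℝ) ^ (ε / 2) * (N + N / Q * S.card)) *
          (C * (N : ℝ) ^ (ε / 2) * ∑ n ∈ Finset.Icc 1 N, ‖a n‖ ^ 2) := by
        refine mul_le_mul_of_nonneg_right ?_ (by positivity)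
        refine hwsum.trans (mul_le_mul_of_nonneg_right hlog (by positivity))
    _ = C * (1 + 2 / ε) * ((N : ℝ) ^ (ε / 2) * (N : ℝ) ^ (ε / 2)) * (N + N / Q * S.card) *
          ∑ n ∈ Finset.Icc 1 N, ‖a n‖ ^ 2 := by ring
    _ = _ := by
        rw [← Real.rpow_add hN0]
        congr 3
        ring_nf

end Pool.Agent.N282.PM
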