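import Pool.Agent.N282.PM.Beu
import Pool.Agent.N282.PM.Lq
import Pool.Agent.N282.PM.Ws

/-!
# Generalised integers: large values and moments (helper282)
-/

set_option autoImplicit false

open MeasureTheory Filter Topology Classical

namespace Pool.Agent.N282.PM

/-- the block `[N, 2N]`, integers `t` -/
theorem Beu_block (x : ℕ → ℝ) (hx : Good x) (hpos : ∀ p : ℕ, p.Prime → 0 < x p) (ε A θ : ℝ) (hε : 0 < ε)
    (hA : 0 < A) (hθ : 0 < θ) :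
    ∃ C : ℝ, 0 < C ∧ ∀ N : ℕ, 2 ≤ N → ∀ W : Finset ℤ, (∀ t ∈ W, 0 ≤ t ∧ (t : ℝ) ≤ (N : ℝ) ^ A) →
      ∀ b : ℕ → ℂ, ∑ n ∈ Finset.Icc N (2 * N), ‖b n‖ ^ 2 ≤ N + 1 →
        (∀ n ∈ Finset.Icc N (2 * N), b n ≠ 0 → ∃ p : ℕ, p.Prime ∧ p ∣ n ∧ (N : ℝ) ^ θ < p) →
        ∑ t ∈ W, ‖∑ n ∈ Finset.Icc N (2 * N), b n * ph t (mz x n)‖ ^ 2 ≤
          C * (N : ℝ) ^ (2 - θ + ε) * ((N : ℝ) ^ θ + W.card) := by
  obtain ⟨C, hC, h⟩ := Beu_main x hx hpos ε A (θ / 2) hε hA (by positivity)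
  refine ⟨4 * 2 ^ ε * C, by positivity, fun N hN W hW b hb hsupp => ?_⟩
  have hN2 : (2 : ℝ) ≤ N := by exact_mod_cast hN
  have hN1 : (1 : ℝ) ≤ N := by linarith
  have hN0 : (0 : ℝ) < N := by linarith
  obtain ⟨a, ha⟩ : ∃ a : ℕ → ℂ, ∀ n, a n = if n ∈ Finset.Icc N (2 * N) then b n else 0 :=
    ⟨_, fun _ => rfl⟩
  obtain ⟨S, hS⟩ : ∃ S : Finset ℝ, S = W.image (fun t : ℤ => (t : ℝ)) := ⟨_, rfl⟩
  have hinj : Function.Injective (fun t : ℤ => (t : ℝ)) := Int.cast_injective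
  have hSc : S.card = W.card := by rw [hS]; exact Finset.card_image_of_injective _ hinj
  have hsub : Finset.Icc N (2 * N) ⊆ Finset.Icc 1 (2 * N) := Finset.Icc_subset_Icc_left (by omega)
  have hDP : ∀ t : ℝ, DP (mz x) a (2 * N) t = ∑ n ∈ Finset.Icc N (2 * N), b n * ph t (mz x n) := by
    intro t
    unfold DP
    rw [← Finset.sum_subset hsub]
    · refine Finset.sum_congr rfl fun n hn => ?_
      rw [ha, if_pos hn]
    · intro n _ hn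
      rw [ha, if_neg hn, zero_mul]
  have hsum : ∑ n ∈ Finset.Icc 1 (2 * N), ‖a n‖ ^ 2 = ∑ n ∈ Finset.Icc N (2 * N), ‖b n‖ ^ 2 := by
    rw [← Finset.sum_subset hsub]
    · refine Finset.sum_congr rfl fun n hn => ?_
      rw [ha, if_pos hn]
    · intro n _ hn
      rw [ha, if_neg hn, norm_zero]
      norm_num
  have hQ : ((2 * N : ℕ) : ℝ) ^ (θ / 2) ≤ (N : ℝ) ^ θ := by
    have h1 : ((2 * N : ℕ) : ℝ) ≤ (N : ℝ) ^ (2 : ℝ) := by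
      rw [Real.rpow_two]
      push_cast
      nlinarith
    calc ((2 * N : ℕ) : ℝ) ^ (θ / 2) ≤ ((N : ℝ) ^ (2 : ℝ)) ^ (θ / 2) :=
          Real.rpow_le_rpow (Nat.cast_nonneg _) h1 (by positivity)
      _ = (N : ℝ) ^ θ := by
          rw [← Real.rpow_mul hN0.le]
          congr 1
          ring
  have h1 := h (2 * N) ((N : ℝ) ^ θ) (by omega) hQ S (by
      intro t ht
      rw [hS, Finset.mem_image] at ht
      obtain ⟨s, hs, rfl⟩ := ht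
      obtain ⟨h2, h3⟩ := hW s hs
      refine ⟨by exact_mod_cast h2, h3.trans ?_⟩
      refine Real.rpow_le_rpow hN0.le ?_ hA.le
      push_cast
      linarith) (by
      intro t ht u hu htu
      rw [hS, Finset.mem_image] at ht hu
      obtain ⟨s, hs, rfl⟩ := ht
      obtain ⟨r, hr, rfl⟩ := hu
      have h2 : s ≠ r := fun h3 => htu (by rw [h3])
      have h3 : 1 ≤ |s - r| := Int.one_le_abs (sub_ne_zero.2 h2)
      exact_mod_cast h3) a (by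
      intro n _ hn0
      rw [ha] at hn0
      split_ifs at hn0 with hn
      · exact hsupp n hn hn0
      · exact absurd rfl hn0)
  rw [hsum, hSc] at h1
  simp only [hDP] at h1
  rw [hS, Finset.sum_image (fun _ _ _ _ h2 => hinj h2)] at h1
  refine h1.trans ?_
  have h2 : (((2 * N : ℕ) : ℝ)) ^ ε = 2 ^ ε * (N : ℝ) ^ ε := by
    push_cast
    exact Real.mul_rpow (by norm_num) hN0.le
  rw [h2]
  have hθ0 : 0 < (N : ℝ) ^ θ := Real.rpow_pos_of_pos hN0 _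
  have h3 : (N : ℝ) ^ (2 - θ + ε) * (N : ℝ) ^ θ = N * N * (N : ℝ) ^ ε := by
    rw [← Real.rpow_add hN0]
    have : (2 - θ + ε + θ) = 1 + 1 + ε := by ring
    rw [this, Real.rpow_add hN0, Real.rpow_add hN0, Real.rpow_one]
  have h3' : (N : ℝ) ^ (2 - θ + ε) = N * N * (N : ℝ) ^ ε / (N : ℝ) ^ θ := by
    rw [eq_div_iff hθ0.ne', h3]
  have h4 : (((2 * N : ℕ) : ℝ) + ((2 * N : ℕ) : ℝ) / (N : ℝ) ^ θ * W.card) =
      2 * (N + N / (N : ℝ) ^ θ * W.card) := by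
    push_cast
    ring
  have h5 : ∑ n ∈ Finset.Icc N (2 * N), ‖b n‖ ^ 2 ≤ 2 * (N : ℝ) := by linarith
  have h7 : (0 : ℝ) ≤ ∑ n ∈ Finset.Icc N (2 * N), ‖b n‖ ^ 2 :=
    Finset.sum_nonneg fun _ _ => by positivity
  rw [h4]
  calc C * (2 ^ ε * (N : ℝ) ^ ε) * (2 * (N + N / (N : ℝ) ^ θ * W.card)) *
        ∑ n ∈ Finset.Icc N (2 * N), ‖b n‖ ^ 2
      ≤ C * (2 ^ ε * (N : ℝ) ^ ε) * (2 * (N + N / (N : ℝ) ^ θ * W.card)) * (2 * (N : ℝ)) := by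
        refine mul_le_mul_of_nonneg_left h5 ?_
        positivity
    _ = _ := by
        rw [h3']
        field_simp
        ring

theorem Beu_LV (x : ℕ → ℝ) (hx : Good x) (hpos : ∀ p : ℕ, p.Prime → 0 < x p) (A θ σ ε : ℝ) (hA : 0 < A)
    (hθ : 0 < θ) (hσ : 1 - θ / 2 < σ) (hε : 0 < ε) : ∃ C : ℝ, ∀ (N : ℕ) (T : ℝ), 2 ≤ N → T ≤ (N : ℝ) ^ A →
      ∀ (b : ℕ → ℂ) (W : Finset ℤ), ∑ n ∈ Finset.Icc N (2 * N), ‖b n‖ ^ 2 ≤ N + 1 →
        (∀ n ∈ Finset.Icc N (2 * N), b n ≠ 0 → ∃ p : ℕ, p.Prime ∧ p ∣ n ∧ (N : ℝ) ^ θ < p) →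
        (∀ t ∈ W, 0 ≤ t ∧ (t : ℝ) ≤ T ∧ (N : ℝ) ^ σ < ‖∑ n ∈ Finset.Icc N (2 * N), b n * ph t (mz x n)‖) →
          (W.card : ℝ) ≤ C * (N : ℝ) ^ (2 - 2 * σ + ε) := by
  obtain ⟨δ, hδ⟩ : ∃ δ : ℝ, δ = min ε (2 * σ - 2 + θ) / 2 := ⟨_, rfl⟩
  have hδ0 : 0 < δ := by
    rw [hδ]
    have : 0 < min ε (2 * σ - 2 + θ) := lt_min hε (by linarith)
    linarith
  have hδε : δ ≤ ε := by
    rw [hδ]
    have h1 := min_le_left ε (2 * σ - 2 + θ)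
    have : 0 < min ε (2 * σ - 2 + θ) := lt_min hε (by linarith)
    linarith
  have hδσ : δ ≤ (2 * σ - 2 + θ) / 2 := by
    rw [hδ]
    have h1 := min_le_right ε (2 * σ - 2 + θ)
    linarith
  obtain ⟨K, hK, h⟩ := Beu_block x hx hpos δ A θ hδ0 hA hθ
  obtain ⟨ξ, hξ⟩ : ∃ ξ : ℝ, ξ = 2 * σ - 2 + θ - δ := ⟨_, rfl⟩
  have hξ0 : 0 < ξ := by rw [hξ]; linarith
  obtain ⟨N₀, hN₀⟩ : ∃ N₀ : ℝ, N₀ = (2 * K + 1) ^ (1 / ξ) := ⟨_, rfl⟩
  have hN₀1 : 1 ≤ N₀ := by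
    rw [hN₀]
    exact Real.one_le_rpow (by linarith) (by positivity)
  obtain ⟨κ, hκ⟩ : ∃ κ : ℝ, κ = 2 - 2 * σ + ε := ⟨_, rfl⟩
  refine ⟨2 * K + (N₀ ^ A + 1) * N₀ ^ |κ|, fun N T hN hT b W hb hsupp hW => ?_⟩
  have hN2 : (2 : ℝ) ≤ N := by exact_mod_cast hN
  have hN1 : (1 : ℝ) ≤ N := by linarith
  have hN0 : (0 : ℝ) < N := by linarith
  rw [← hκ]
  have hpκ : 0 < (N : ℝ) ^ κ := Real.rpow_pos_of_pos hN0 _
  have hP : 0 ≤ (N₀ ^ A + 1) * N₀ ^ |κ| := by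
    have : 0 < N₀ := by linarith
    positivity
  rcases W.eq_empty_or_nonempty with hWe | hWne
  · rw [hWe]
    simp only [Finset.card_empty, Nat.cast_zero]
    positivity
  obtain ⟨t₀, ht₀⟩ := hWne
  have hT0 : 0 ≤ T := by
    have h1 := hW t₀ ht₀
    have h2 : (0 : ℝ) ≤ t₀ := by exact_mod_cast h1.1
    linarith [h1.2.1]
  have h1 := h N hN W (fun t ht => ⟨(hW t ht).1, (hW t ht).2.1.trans hT⟩) b hb hsupp
  have h2 : (W.card : ℝ) * (N : ℝ) ^ (2 * σ) ≤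
      ∑ t ∈ W, ‖∑ n ∈ Finset.Icc N (2 * N), b n * ph t (mz x n)‖ ^ 2 := by
    rw [← nsmul_eq_mul, ← Finset.sum_const]
    refine Finset.sum_le_sum fun t ht => ?_
    have h3 : (N : ℝ) ^ (2 * σ) = ((N : ℝ) ^ σ) ^ 2 := by
      rw [mul_comm, Real.rpow_mul hN0.le]
      norm_num
    rw [h3]
    exact pow_le_pow_left₀ (Real.rpow_nonneg hN0.le _) (hW t ht).2.2.le 2
  have h3 := h2.trans h1
  have hW0 : (0 : ℝ) ≤ W.card := Nat.cast_nonneg _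
  by_cases hcase : K * (N : ℝ) ^ (2 - θ + δ) ≤ (N : ℝ) ^ (2 * σ) / 2
  · have h4 : (W.card : ℝ) * (N : ℝ) ^ (2 * σ) ≤ 2 * (K * (N : ℝ) ^ (2 - θ + δ) * (N : ℝ) ^ θ) := by
      nlinarith [mul_le_mul_of_nonneg_right hcase hW0]
    have h5 : (N : ℝ) ^ (2 - θ + δ) * (N : ℝ) ^ θ = (N : ℝ) ^ (2 - 2 * σ + δ) * (N : ℝ) ^ (2 * σ) := by
      rw [← Real.rpow_add hN0, ← Real.rpow_add hN0]
      congr 1
      ring
    have h6 : (W.card : ℝ) ≤ 2 * K * (N : ℝ) ^ (2 - 2 * σ + δ) := by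
      have h7 : 0 < (N : ℝ) ^ (2 * σ) := Real.rpow_pos_of_pos hN0 _
      refine le_of_mul_le_mul_right ?_ h7
      calc (W.card : ℝ) * (N : ℝ) ^ (2 * σ) ≤ 2 * (K * (N : ℝ) ^ (2 - θ + δ) * (N : ℝ) ^ θ) := h4
        _ = 2 * K * ((N : ℝ) ^ (2 - θ + δ) * (N : ℝ) ^ θ) := by ring
        _ = _ := by rw [h5]; ring
    have h7 : (N : ℝ) ^ (2 - 2 * σ + δ) ≤ (N : ℝ) ^ κ :=
      Real.rpow_le_rpow_of_exponent_le hN1 (by rw [hκ]; linarith)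
    calc (W.card : ℝ) ≤ 2 * K * (N : ℝ) ^ (2 - 2 * σ + δ) := h6
      _ ≤ 2 * K * (N : ℝ) ^ κ := mul_le_mul_of_nonneg_left h7 (by positivity)
      _ ≤ _ := mul_le_mul_of_nonneg_right (by linarith) hpκ.le
  · push Not at hcase
    have h4 : (N : ℝ) ^ ξ < 2 * K := by
      have h5 : (N : ℝ) ^ (2 * σ) = (N : ℝ) ^ ξ * (N : ℝ) ^ (2 - θ + δ) := by
        rw [← Real.rpow_add hN0]
        congr 1
        rw [hξ]
        ring
      rw [h5] at hcase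
      have h6 : 0 < (N : ℝ) ^ (2 - θ + δ) := Real.rpow_pos_of_pos hN0 _
      have h7 : (N : ℝ) ^ ξ * (N : ℝ) ^ (2 - θ + δ) < 2 * K * (N : ℝ) ^ (2 - θ + δ) := by linarith
      exact lt_of_mul_lt_mul_right h7 h6.le
    have h5 : (N : ℝ) ≤ N₀ := by
      rw [hN₀]
      have h6 : (N : ℝ) = ((N : ℝ) ^ ξ) ^ (1 / ξ) := by
        rw [← Real.rpow_mul hN0.le, mul_one_div_cancel hξ0.ne', Real.rpow_one]
      rw [h6]
      refine Real.rpow_le_rpow (Real.rpow_nonneg hN0.le _) ?_ (by positivity)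
      linarith
    have h6 : (W.card : ℝ) ≤ N₀ ^ A + 1 := by
      have h7 := lvq_card W T hT0 (fun t ht => ⟨(hW t ht).1, (hW t ht).2.1⟩)
      have h8 : (N : ℝ) ^ A ≤ N₀ ^ A := Real.rpow_le_rpow hN0.le h5 hA.le
      linarith
    have h7 : 1 ≤ N₀ ^ |κ| * (N : ℝ) ^ κ := by
      have h8 : (N : ℝ) ^ (-|κ|) ≤ (N : ℝ) ^ κ :=
        Real.rpow_le_rpow_of_exponent_le hN1 (neg_abs_le κ)
      have h9 : (N : ℝ) ^ |κ| ≤ N₀ ^ |κ| := Real.rpow_le_rpow hN0.le h5 (abs_nonneg κ)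
      have h10 : (N : ℝ) ^ |κ| * (N : ℝ) ^ (-|κ|) = 1 := by
        rw [← Real.rpow_add hN0, add_neg_cancel, Real.rpow_zero]
      calc (1 : ℝ) = (N : ℝ) ^ |κ| * (N : ℝ) ^ (-|κ|) := h10.symm
        _ ≤ N₀ ^ |κ| * (N : ℝ) ^ κ :=
            mul_le_mul h9 h8 (Real.rpow_nonneg hN0.le _) (Real.rpow_nonneg (by linarith) _)
    calc (W.card : ℝ) ≤ N₀ ^ A + 1 := h6
      _ ≤ (N₀ ^ A + 1) * (N₀ ^ |κ| * (N : ℝ) ^ κ) :=
          le_mul_of_one_le_right (by have : 0 < N₀ := by linarith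
                                     positivity) h7
      _ = (N₀ ^ A + 1) * N₀ ^ |κ| * (N : ℝ) ^ κ := by ring
      _ ≤ _ := mul_le_mul_of_nonneg_right (by linarith) hpκ.le

theorem Beu_lqgen (B L q : ℝ) (hB : 0 ≤ B) (hL : 0 ≤ L) (hq : 2 ≤ q) (T : ℕ) (S : Finset ℤ)
    (hS : S.card = T) (D : ℤ → ℝ) (hD : ∀ t, 0 ≤ D t)
    (h : ∀ W ⊆ S, ∑ t ∈ W, D t ^ 2 ≤ B * (L + W.card)) :
    ∑ t ∈ S, (D t ^ 2) ^ (q / 2) ≤ (2 * B) ^ (q / 2) * (L ^ (q / 2) * (1 + Real.log T) + T) := by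
  have hp1 : 1 ≤ q / 2 := by linarith
  have hp0 : 0 ≤ q / 2 := by linarith
  refine (lq_induct B L (q / 2) hB hL hp0 T S D hS (fun t _ => hD t) h).trans ?_
  have h3 : ∀ k ∈ Finset.range T, (B * (L / ((k + 1 : ℕ) : ℝ) + 1)) ^ (q / 2) ≤
      (2 * B) ^ (q / 2) * (L ^ (q / 2) * (((k + 1 : ℕ) : ℝ))⁻¹ + 1) := by
    intro k _
    have hk : (1 : ℝ) ≤ ((k + 1 : ℕ) : ℝ) := by exact_mod_cast Nat.succ_pos k
    have hk0 : (0 : ℝ) < ((k + 1 : ℕ) : ℝ) := by linarith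
    rw [Real.mul_rpow hB (by positivity), Real.mul_rpow (by norm_num) hB]
    have h4 := lq_add (L / ((k + 1 : ℕ) : ℝ)) (q / 2) (by positivity) hp0
    have h5 : (L / ((k + 1 : ℕ) : ℝ)) ^ (q / 2) ≤ L ^ (q / 2) * (((k + 1 : ℕ) : ℝ))⁻¹ := by
      rw [Real.div_rpow hL hk0.le, div_eq_mul_inv]
      refine mul_le_mul_of_nonneg_left ?_ (by positivity)
      refine inv_anti₀ hk0 ?_
      calc ((k + 1 : ℕ) : ℝ) = ((k + 1 : ℕ) : ℝ) ^ (1 : ℝ) := (Real.rpow_one _).symm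
        _ ≤ _ := Real.rpow_le_rpow_of_exponent_le hk hp1
    calc B ^ (q / 2) * (L / ((k + 1 : ℕ) : ℝ) + 1) ^ (q / 2)
        ≤ B ^ (q / 2) * (2 ^ (q / 2) * ((L / ((k + 1 : ℕ) : ℝ)) ^ (q / 2) + 1)) :=
          mul_le_mul_of_nonneg_left h4 (by positivity)
      _ ≤ B ^ (q / 2) * (2 ^ (q / 2) * (L ^ (q / 2) * (((k + 1 : ℕ) : ℝ))⁻¹ + 1)) := by
          refine mul_le_mul_of_nonneg_left ?_ (by positivity)
          exact mul_le_mul_of_nonneg_left (by linarith) (by positivity)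
      _ = _ := by ring
  refine (Finset.sum_le_sum h3).trans ?_
  rw [← Finset.mul_sum, Finset.sum_add_distrib, ← Finset.mul_sum, Finset.sum_const,
    Finset.card_range, nsmul_eq_mul, mul_one]
  refine mul_le_mul_of_nonneg_left ?_ (by positivity)
  have := mul_le_mul_of_nonneg_left (lq_harm T) (show 0 ≤ L ^ (q / 2) by positivity)
  linarith

theorem Beu_LQ (x : ℕ → ℝ) (hx : Good x) (hpos : ∀ p : ℕ, p.Prime → 0 < x p) (q A θ ε : ℝ) (hq : 2 ≤ q)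
    (hA : 1 ≤ A) (hθ : 0 < θ) (hε : 0 < ε) : ∃ K : ℝ, ∀ N T : ℕ, 2 ≤ N → N ≤ T → (T : ℝ) ≤ (N : ℝ) ^ A →
      ∀ b : ℕ → ℂ, ∑ n ∈ Finset.Icc N (2 * N), ‖b n‖ ^ 2 ≤ N + 1 →
        (∀ n ∈ Finset.Icc N (2 * N), b n ≠ 0 → ∃ p : ℕ, p.Prime ∧ p ∣ n ∧ (N : ℝ) ^ θ < p) →
        ∑ t ∈ Finset.Icc 1 T, ‖∑ n ∈ Finset.Icc N (2 * N), b n * ph t (mz x n)‖ ^ q ≤
          K * (N : ℝ) ^ ε * ((N : ℝ) ^ q + (N : ℝ) ^ ((1 - θ / 2) * q) * T) := by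
  have hq0 : 0 < q := by linarith
  obtain ⟨C, hC, h⟩ := Beu_block x hx hpos (ε / q) A θ (by positivity) (by linarith) hθ
  refine ⟨(2 * C) ^ (q / 2) * (2 + 2 * A / ε), fun N T hN hNT hT b hb hsupp => ?_⟩
  have hN2 : (2 : ℝ) ≤ N := by exact_mod_cast hN
  have hN1 : (1 : ℝ) ≤ N := by linarith
  have hN0 : (0 : ℝ) < N := by linarith
  have hT1 : (1 : ℝ) ≤ T := by
    have : 1 ≤ T := by omega
    exact_mod_cast this
  obtain ⟨D, hD⟩ : ∃ D : ℤ → ℝ, ∀ t, D t = ‖∑ n ∈ Finset.Icc N (2 * N), b n * ph t (mz x n)‖ :=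
    ⟨_, fun _ => rfl⟩
  have hD0 : ∀ t, 0 ≤ D t := fun t => by rw [hD]; exact norm_nonneg _
  obtain ⟨S, hS⟩ : ∃ S : Finset ℤ, S = (Finset.Icc 1 T).image (fun t : ℕ => (t : ℤ)) := ⟨_, rfl⟩
  have hinj : Function.Injective (fun t : ℕ => (t : ℤ)) := Nat.cast_injective
  have hSc : S.card = T := by
    rw [hS, Finset.card_image_of_injective _ hinj, Nat.card_Icc]
    omega
  obtain ⟨B, hB⟩ : ∃ B : ℝ, B = C * (N : ℝ) ^ (2 - θ + ε / q) := ⟨_, rfl⟩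
  have hB0 : 0 ≤ B := by rw [hB]; positivity
  have h1 := Beu_lqgen B ((N : ℝ) ^ θ) q hB0 (by positivity) hq T S hSc D hD0 (by
    intro W hW
    have h2 := h N hN W (by
      intro t ht
      have h3 := hW ht
      rw [hS, Finset.mem_image] at h3
      obtain ⟨s, hs, rfl⟩ := h3
      refine ⟨by positivity, ?_⟩
      refine le_trans ?_ hT
      have h4 := (Finset.mem_Icc.1 hs).2
      exact_mod_cast h4) b hb hsupp
    rw [hB]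
    simpa only [hD] using h2)
  have h2 : ∑ t ∈ Finset.Icc 1 T, ‖∑ n ∈ Finset.Icc N (2 * N), b n * ph t (mz x n)‖ ^ q =
      ∑ t ∈ S, (D t ^ 2) ^ (q / 2) := by
    rw [hS, Finset.sum_image (fun _ _ _ _ h3 => hinj h3)]
    refine Finset.sum_congr rfl fun t _ => ?_
    have h3 : (D (t : ℤ) ^ 2) ^ (q / 2) = D (t : ℤ) ^ q := by
      rw [← Real.rpow_natCast (D (t : ℤ)) 2, ← Real.rpow_mul (hD0 _)]
      congr 1
      push_cast
      ring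
    rw [h3, hD]
    norm_num
  rw [h2]
  refine h1.trans ?_
  -- logarithms
  have hlogT : Real.log T ≤ A * Real.log N := by
    have h4 := Real.log_le_log (by linarith) hT
    rwa [Real.log_rpow hN0] at h4
  have hlogN : Real.log N ≤ (N : ℝ) ^ (ε / 2) / (ε / 2) :=
    Real.log_le_rpow_div hN0.le (by positivity)
  have hNε : 1 ≤ (N : ℝ) ^ (ε / 2) := Real.one_le_rpow hN1 (by positivity)
  have h4 : 1 + Real.log T ≤ (N : ℝ) ^ (ε / 2) * (2 + 2 * A / ε) := by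
    have h5 : A * Real.log N ≤ A * ((N : ℝ) ^ (ε / 2) / (ε / 2)) :=
      mul_le_mul_of_nonneg_left hlogN (by linarith)
    have h6 : A * ((N : ℝ) ^ (ε / 2) / (ε / 2)) = (N : ℝ) ^ (ε / 2) * (2 * A / ε) := by
      field_simp
    rw [h6] at h5
    nlinarith
  obtain ⟨L, hL⟩ : ∃ L : ℝ, L = (N : ℝ) ^ θ := ⟨_, rfl⟩
  have hL0 : 0 < L := by rw [hL]; positivity
  rw [← hL]
  have hLq : 0 < L ^ (q / 2) := by positivity
  have h5 : L ^ (q / 2) * (1 + Real.log T) + T ≤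
      (N : ℝ) ^ (ε / 2) * (2 + 2 * A / ε) * (L ^ (q / 2) + T) := by
    have h6 : L ^ (q / 2) * (1 + Real.log T) ≤
        L ^ (q / 2) * ((N : ℝ) ^ (ε / 2) * (2 + 2 * A / ε)) :=
      mul_le_mul_of_nonneg_left h4 (by positivity)
    have h7 : 1 ≤ (N : ℝ) ^ (ε / 2) * (2 + 2 * A / ε) := by
      have h8 : 0 ≤ 2 * A / ε := by positivity
      nlinarith
    have h8 : (T : ℝ) ≤ (N : ℝ) ^ (ε / 2) * (2 + 2 * A / ε) * T :=
      le_mul_of_one_le_left (by linarith) h7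
    nlinarith
  have h6 : (2 * B) ^ (q / 2) = (2 * C) ^ (q / 2) * ((N : ℝ) ^ ((1 - θ / 2) * q) * (N : ℝ) ^ (ε / 2)) := by
    have h7 : 2 * B = (2 * C) * (N : ℝ) ^ (2 - θ + ε / q) := by rw [hB]; ring
    rw [h7, Real.mul_rpow (by positivity) (by positivity), ← Real.rpow_mul hN0.le,
      ← Real.rpow_add hN0]
    congr 2
    field_simp
  rw [h6]
  have h7 : (N : ℝ) ^ ε = (N : ℝ) ^ (ε / 2) * (N : ℝ) ^ (ε / 2) := by
    rw [← Real.rpow_add hN0]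
    congr 1
    ring
  have h8 : (N : ℝ) ^ q = (N : ℝ) ^ ((1 - θ / 2) * q) * L ^ (q / 2) := by
    rw [hL, ← Real.rpow_mul hN0.le, ← Real.rpow_add hN0]
    congr 1
    ring
  rw [h7, h8]
  have h9 : 0 ≤ (2 * C) ^ (q / 2) * ((N : ℝ) ^ ((1 - θ / 2) * q) * (N : ℝ) ^ (ε / 2)) := by positivity
  refine (mul_le_mul_of_nonneg_left h5 h9).trans (le_of_eq ?_)
  ring

theorem Beu_WS (x : ℕ → ℝ) (hx : Good x) (hpos : ∀ p : ℕ, p.Prime → 0 < x p) (ε κ θ : ℝ) (hε : 0 < ε)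
    (hκ : 0 < κ) (hθ : 0 < θ) : ∃ C : ℝ, ∀ (N : ℕ) (T V : ℝ), 1 ≤ N → 1 ≤ T →
  0 < V → (N : ℝ) ^ κ ≤ T → (N : ℝ) ^ (2 - θ) * T ^ ε ≤ V ^ 2 → ∀ (a : ℕ → ℂ) (S : Finset ℝ),
    ∑ n ∈ Finset.Icc 1 N, ‖a n‖ ^ 2 ≤ N →
    (∀ n ∈ Finset.Icc 1 N, a n ≠ 0 → ∃ p : ℕ, p.Prime ∧ p ∣ n ∧ (N : ℝ) ^ θ < p) →
    (∀ t ∈ S, 0 ≤ t ∧ t ≤ T) → Sep 1 S →
    (∀ t ∈ S, V ≤ ‖∑ n ∈ Finset.Icc 1 N, a n * ph (-t) (mz x n)‖) →
      (S.card : ℝ) ≤ C * (N : ℝ) ^ 2 * V ^ (-2 : ℤ) * T ^ ε := by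
  obtain ⟨C, hC, h⟩ := Beu_main x hx hpos (ε * κ / 2) (θ / ε) θ (by positivity) (by positivity) hθ
  obtain ⟨T₀, hT₀⟩ : ∃ T₀ : ℝ, T₀ = (2 * C) ^ (2 / ε) := ⟨_, rfl⟩
  have hT₀0 : 0 ≤ T₀ := by rw [hT₀]; positivity
  refine ⟨2 * C + (T₀ + 1), fun N T V hN hT hV hNT hNV a S ha hsupp hS hsep hlarge => ?_⟩
  have hN1 : (1 : ℝ) ≤ N := by exact_mod_cast hN
  have hN0 : (0 : ℝ) < N := by linarith
  have hT0 : 0 < T := by linarith
  have hV2 : V ^ (-2 : ℤ) = (V ^ 2)⁻¹ := by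
    rw [zpow_neg]
    norm_cast
  rw [hV2]
  have hTε : 1 ≤ T ^ ε := Real.one_le_rpow hT hε.le
  have hNθ : 0 < (N : ℝ) ^ θ := Real.rpow_pos_of_pos hN0 _
  have hN2θ : 0 < (N : ℝ) ^ (2 - θ) := Real.rpow_pos_of_pos hN0 _
  have hsq : (N : ℝ) ^ (2 - θ) * (N : ℝ) ^ θ = (N : ℝ) ^ 2 := by
    rw [← Real.rpow_add hN0]
    have : 2 - θ + θ = (2 : ℝ) := by ring
    rw [this, Real.rpow_two]
  rcases S.eq_empty_or_nonempty with hSe | ⟨t₀, ht₀⟩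
  · rw [hSe]
    simp only [Finset.card_empty, Nat.cast_zero]
    positivity
  obtain ⟨a', ha'⟩ : ∃ a' : ℕ → ℂ, ∀ n, a' n = (starRingEnd ℂ) (a n) := ⟨_, fun _ => rfl⟩
  have hDP : ∀ t : ℝ, ‖DP (mz x) a' N t‖ = ‖∑ n ∈ Finset.Icc 1 N, a n * ph (-t) (mz x n)‖ := by
    intro t
    rw [← RCLike.norm_conj (∑ n ∈ Finset.Icc 1 N, a n * ph (-t) (mz x n)), map_sum]
    unfold DP
    congr 1
    refine Finset.sum_congr rfl fun n _ => ?_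
    rw [map_mul, ws_ph_neg, Complex.conj_conj, ha']
  have ha'2 : ∑ n ∈ Finset.Icc 1 N, ‖a' n‖ ^ 2 ≤ N := by
    refine le_trans (le_of_eq ?_) ha
    refine Finset.sum_congr rfl fun n _ => ?_
    rw [ha', RCLike.norm_conj]
  -- Cauchy-Schwarz
  have hVN : V ≤ N := by
    have h1 := hlarge t₀ ht₀
    have h2 : ‖∑ n ∈ Finset.Icc 1 N, a n * ph (-t₀) (mz x n)‖ ≤ ∑ n ∈ Finset.Icc 1 N, ‖a n‖ := by
      refine (norm_sum_le _ _).trans (le_of_eq ?_)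
      refine Finset.sum_congr rfl fun n _ => ?_
      rw [norm_mul, ws_norm_ph, mul_one]
    have h3 : (∑ n ∈ Finset.Icc 1 N, ‖a n‖) ^ 2 ≤ (N : ℝ) ^ 2 := by
      have h4 := sq_sum_le_card_mul_sum_sq (s := Finset.Icc 1 N) (f := fun n => ‖a n‖)
      rw [Nat.card_Icc, Nat.add_sub_cancel] at h4
      refine h4.trans ?_
      rw [sq]
      exact mul_le_mul_of_nonneg_left ha hN0.le
    have h4 : ∑ n ∈ Finset.Icc 1 N, ‖a n‖ ≤ N :=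
      (pow_le_pow_iff_left₀ (Finset.sum_nonneg fun _ _ => norm_nonneg _) hN0.le two_ne_zero).1 h3
    linarith
  have hV2N : V ^ 2 ≤ (N : ℝ) ^ 2 := pow_le_pow_left₀ hV.le hVN 2
  have hTN : T ≤ (N : ℝ) ^ (θ / ε) := by
    have h1 : T ^ ε ≤ (N : ℝ) ^ θ := by
      have h2 : (N : ℝ) ^ (2 - θ) * T ^ ε ≤ (N : ℝ) ^ (2 - θ) * (N : ℝ) ^ θ := by
        rw [hsq]
        exact hNV.trans hV2N
      exact le_of_mul_le_mul_left h2 hN2θ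
    have h2 : T = (T ^ ε) ^ (1 / ε) := by
      rw [← Real.rpow_mul hT0.le, mul_one_div_cancel hε.ne', Real.rpow_one]
    have h3 : (N : ℝ) ^ (θ / ε) = ((N : ℝ) ^ θ) ^ (1 / ε) := by
      rw [← Real.rpow_mul hN0.le]
      congr 1
      ring
    rw [h2, h3]
    exact Real.rpow_le_rpow (Real.rpow_nonneg hT0.le _) h1 (by positivity)
  have h1 := h N ((N : ℝ) ^ θ) hN le_rfl S (fun t ht => ⟨(hS t ht).1, (hS t ht).2.trans hTN⟩) hsep a' (by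
    intro n hn hn0
    refine hsupp n hn fun h0 => hn0 ?_
    rw [ha', h0, map_zero])
  have h2 : (S.card : ℝ) * V ^ 2 ≤ ∑ t ∈ S, ‖DP (mz x) a' N t‖ ^ 2 := by
    rw [← nsmul_eq_mul, ← Finset.sum_const]
    refine Finset.sum_le_sum fun t ht => ?_
    rw [hDP]
    exact pow_le_pow_left₀ hV.le (hlarge t ht) 2
  have hNT2 : (N : ℝ) ^ (ε * κ / 2) ≤ T ^ (ε / 2) := by
    have h3 : (N : ℝ) ^ (ε * κ / 2) = ((N : ℝ) ^ κ) ^ (ε / 2) := by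
      rw [← Real.rpow_mul hN0.le]
      congr 1
      ring
    rw [h3]
    exact Real.rpow_le_rpow (Real.rpow_nonneg hN0.le _) hNT (by positivity)
  have hS0 : (0 : ℝ) ≤ S.card := Nat.cast_nonneg _
  have e2 : (N : ℝ) * N = (N : ℝ) ^ (2 - θ) * (N : ℝ) ^ θ := by rw [hsq, sq]
  have h3 : (S.card : ℝ) * V ^ 2 ≤ C * (N : ℝ) ^ (2 - θ) * T ^ (ε / 2) * ((N : ℝ) ^ θ + S.card) := by
    refine h2.trans (h1.trans ?_)
    have h4 : C * (N : ℝ) ^ (ε * κ / 2) * (N + N / (N : ℝ) ^ θ * S.card) * ∑ n ∈ Finset.Icc 1 N, ‖a' n‖ ^ 2 ≤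
        C * T ^ (ε / 2) * (N + N / (N : ℝ) ^ θ * S.card) * N := by
      refine mul_le_mul ?_ ha'2 (Finset.sum_nonneg fun _ _ => by positivity) (by positivity)
      refine mul_le_mul_of_nonneg_right ?_ (by positivity)
      exact mul_le_mul_of_nonneg_left hNT2 hC.le
    refine h4.trans (le_of_eq ?_)
    have e3 : (N + N / (N : ℝ) ^ θ * S.card) * N = (N : ℝ) ^ (2 - θ) * ((N : ℝ) ^ θ + S.card) := by
      have : (N + N / (N : ℝ) ^ θ * S.card) * N = (N * N) / (N : ℝ) ^ θ * ((N : ℝ) ^ θ + S.card) := by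
        field_simp
      rw [this, e2]
      field_simp
    calc C * T ^ (ε / 2) * (N + N / (N : ℝ) ^ θ * S.card) * N
        = C * T ^ (ε / 2) * ((N + N / (N : ℝ) ^ θ * S.card) * N) := by ring
      _ = _ := by rw [e3]; ring
  have hTT : T ^ (ε / 2) ≤ T ^ ε := Real.rpow_le_rpow_of_exponent_le hT (by linarith)
  have hV20 : 0 < V ^ 2 := by positivity
  by_cases hcase : C * (N : ℝ) ^ (2 - θ) * T ^ (ε / 2) ≤ V ^ 2 / 2
  · have h4 : (S.card : ℝ) * V ^ 2 ≤ 2 * (C * (N : ℝ) ^ (2 - θ) * T ^ (ε / 2) * (N : ℝ) ^ θ) := by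
      nlinarith [mul_le_mul_of_nonneg_right hcase hS0]
    have h4' : (S.card : ℝ) * V ^ 2 ≤ 2 * (C * T ^ (ε / 2) * (N : ℝ) ^ 2) := by
      refine h4.trans (le_of_eq ?_)
      rw [← hsq]
      ring
    have h5 : (S.card : ℝ) ≤ 2 * C * (N : ℝ) ^ 2 * (V ^ 2)⁻¹ * T ^ (ε / 2) := by
      refine le_of_mul_le_mul_right ?_ hV20
      refine h4'.trans (le_of_eq ?_)
      field_simp
    calc (S.card : ℝ) ≤ 2 * C * (N : ℝ) ^ 2 * (V ^ 2)⁻¹ * T ^ (ε / 2) := h5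
      _ ≤ 2 * C * (N : ℝ) ^ 2 * (V ^ 2)⁻¹ * T ^ ε := mul_le_mul_of_nonneg_left hTT (by positivity)
      _ ≤ (2 * C + (T₀ + 1)) * (N : ℝ) ^ 2 * (V ^ 2)⁻¹ * T ^ ε := by
          refine mul_le_mul_of_nonneg_right ?_ (by positivity)
          refine mul_le_mul_of_nonneg_right ?_ (by positivity)
          refine mul_le_mul_of_nonneg_right ?_ (by positivity)
          linarith
  · push Not at hcase
    have h4 : T ^ (ε / 2) < 2 * C := by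
      have h5 : (N : ℝ) ^ (2 - θ) * T ^ ε < 2 * (C * (N : ℝ) ^ (2 - θ) * T ^ (ε / 2)) := by linarith
      have h6 : T ^ ε = T ^ (ε / 2) * T ^ (ε / 2) := by
        rw [← Real.rpow_add hT0]
        congr 1
        ring
      rw [h6] at h5
      have h7 : 0 < (N : ℝ) ^ (2 - θ) * T ^ (ε / 2) := by positivity
      have h8 : ((N : ℝ) ^ (2 - θ) * T ^ (ε / 2)) * T ^ (ε / 2) <
          ((N : ℝ) ^ (2 - θ) * T ^ (ε / 2)) * (2 * C) := by nlinarith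
      exact lt_of_mul_lt_mul_left h8 h7.le
    have h5 : T ≤ T₀ := by
      rw [hT₀]
      have h6 : T = (T ^ (ε / 2)) ^ (2 / ε) := by
        rw [← Real.rpow_mul hT0.le]
        have : ε / 2 * (2 / ε) = 1 := by field_simp
        rw [this, Real.rpow_one]
      rw [h6]
      exact Real.rpow_le_rpow (Real.rpow_nonneg hT0.le _) h4.le (by positivity)
    have h6 := ws_card S T hT0.le hS hsep
    have h7 : 1 ≤ (N : ℝ) ^ 2 * (V ^ 2)⁻¹ := by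
      rw [← div_eq_mul_inv, one_le_div hV20]
      exact hV2N
    have h8 : 1 ≤ (N : ℝ) ^ 2 * (V ^ 2)⁻¹ * T ^ ε := one_le_mul_of_one_le_of_one_le h7 hTε
    calc (S.card : ℝ) ≤ T₀ + 1 := by linarith
      _ ≤ (2 * C + (T₀ + 1)) * ((N : ℝ) ^ 2 * (V ^ 2)⁻¹ * T ^ ε) := by nlinarith
      _ = _ := by ring

end Pool.Agent.N282.PM
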