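import Mathlib

/-!
# Project PM: Dirichlet polynomials with perturbed frequencies, definitions (helper282)
-/

set_option autoImplicit false

open MeasureTheory Filter Topology Classical

namespace Pool.Agent.N282.PM

/-- `x ^ (i t)` -/
noncomputable def ph (t x : ℝ) : ℂ := Complex.exp (Complex.I * t * Real.log x)

/-- the Dirichlet polynomial `∑_{n ≤ N} a_n x_n ^ (i t)` -/
noncomputable def DP (x : ℕ → ℝ) (a : ℕ → ℂ) (N : ℕ) (t : ℝ) : ℂ := ∑ n ∈ Finset.Icc 1 N, a n * ph t (x n)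

/-- `κ`-separated sets -/
def Sep (κ : ℝ) (S : Finset ℝ) : Prop := ∀ t ∈ S, ∀ u ∈ S, t ≠ u → κ ≤ |t - u|

/-- the points `y_n + δ_n U_n` -/
noncomputable def pt {Ω : Type} (y δ : ℕ → ℝ) (U : ℕ → Ω → ℝ) (ω : Ω) (n : ℕ) : ℝ := y n + δ n * U n ω

/-- `y_1, …, y_N` are at least `1`, at most `m N`, and at most `m` of them lie in an interval of length `1` -/
def Spread (y : ℕ → ℝ) (m : ℝ) (N : ℕ) : Prop :=
  (∀ n ∈ Finset.Icc 1 N, 1 ≤ y n ∧ y n ≤ m * N) ∧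
  ∀ z : ℝ, (((Finset.Icc 1 N).filter fun n => z ≤ y n ∧ y n < z + 1).card : ℝ) ≤ m

/-- the large sieve inequality of the quality of Montgomery's conjecture, for all coefficients, all `T ≤ N ^ A` and
all `1`-separated sets in `[0, T]` -/
def Good (x : ℕ → ℝ) : Prop := ∀ ε A : ℝ, 0 < ε → 0 < A → ∃ C : ℝ, 0 < C ∧ ∀ N : ℕ, 1 ≤ N → ∀ S : Finset ℝ,
  (∀ t ∈ S, 0 ≤ t ∧ t ≤ (N : ℝ) ^ A) → Sep 1 S → ∀ a : ℕ → ℂ,
    ∑ t ∈ S, ‖DP x a N t‖ ^ 2 ≤ C * (N : ℝ) ^ ε * (N + S.card) * ∑ n ∈ Finset.Icc 1 N, ‖a n‖ ^ 2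

end Pool.Agent.N282.PM
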