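import Pool.Agent.N282.PM.Stm

/-!
# Project PM: final forms (helper282)
-/

set_option autoImplicit false

open MeasureTheory Filter Topology Classical

namespace Pool.Agent.N282.PM

theorem spread_id (N : ℕ) : Spread (fun n => (n : ℝ)) 1 N := by
  constructor
  · intro n hn
    rw [Finset.mem_Icc] at hn
    constructor
    · show (1 : ℝ) ≤ (n : ℝ)
      exact_mod_cast hn.1
    · show (n : ℝ) ≤ 1 * (N : ℝ)
      rw [one_mul]
      exact_mod_cast hn.2
  · intro z
    have h1 : ((Finset.Icc 1 N).filter fun n : ℕ => z ≤ (n : ℝ) ∧ (n : ℝ) < z + 1).card ≤ 1 := by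
      rw [Finset.card_le_one]
      intro a ha b hb
      rw [Finset.mem_filter] at ha hb
      obtain ⟨-, a1, a2⟩ := ha
      obtain ⟨-, b1, b2⟩ := hb
      have h2 : (a : ℝ) < b + 1 := by linarith
      have h3 : (b : ℝ) < a + 1 := by linarith
      have h4 : a < b + 1 := by exact_mod_cast h2
      have h5 : b < a + 1 := by exact_mod_cast h3
      omega
    exact_mod_cast h1

/-- large values, one `N`, all sizes of the perturbation -/
theorem DV_one (h : S_MAIN) (A : ℝ) (hA : 0 < A) : ∃ C : ℝ, 0 < C ∧ ∀ (Ω : Type) (_ : MeasurableSpace Ω)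
    (P : Measure Ω) (_ : IsProbabilityMeasure P) (U : ℕ → Ω → ℝ), (∀ n, Measurable (U n)) →
    ProbabilityTheory.iIndepFun U P → (∀ n, P.map (U n) = volume.restrict (Set.Icc 0 1)) →
    ∀ (N : ℕ) (δ : ℝ), 2 ≤ N → 0 < δ → δ ≤ 1 →
    (P {ω | ¬ ∀ (b : ℕ → ℂ) (V : ℝ) (W : Finset ℝ), (∀ t ∈ W, 0 ≤ t ∧ t ≤ (N : ℝ) ^ A) → Sep 1 W →
      C * (Real.log N) ^ 5 * ∑ n ∈ Finset.Icc N (2 * N), ‖b n‖ ^ 2 ≤ V ^ 2 → 0 < V →
      (∀ t ∈ W, V ≤ ‖∑ n ∈ Finset.Icc N (2 * N), b n * ph t (n + δ * U n ω)‖) →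
        (W.card : ℝ) ≤ C * (Real.log N) ^ 5 * (N / δ) * (∑ n ∈ Finset.Icc N (2 * N), ‖b n‖ ^ 2) / V ^ 2}).toReal ≤
      (N : ℝ) ^ (-A) := by
  obtain ⟨C, hC, hM⟩ := h A hA
  refine ⟨128 * C, by positivity, ?_⟩
  intro Ω _ P _ U hm hi hU N δ hN hδ hδ1
  have hN2 : (2 : ℝ) ≤ N := by exact_mod_cast hN
  have hM' := hM Ω _ P inferInstance U (fun n => (n : ℝ)) (fun _ => δ) δ 1 (2 * N) hm hi hU (by omega) hδ le_rfl
    (spread_id _) (fun n _ => ⟨le_rfl, hδ1⟩)
  refine le_trans (ENNReal.toReal_mono (measure_ne_top P _) (measure_mono ?_)) (hM'.trans ?_)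
  · intro ω hω
    rw [Set.mem_ofPred_eq] at hω ⊢
    refine fun hgood => hω ?_
    intro b V W hW hsep hV hV0 hD
    set G := ∑ n ∈ Finset.Icc N (2 * N), ‖b n‖ ^ 2 with hG
    have hG0 : 0 ≤ G := Finset.sum_nonneg fun _ _ => sq_nonneg _
    let a : ℕ → ℂ := fun n => if n ∈ Finset.Icc N (2 * N) then b n else 0
    have hsub : Finset.Icc N (2 * N) ⊆ Finset.Icc 1 (2 * N) := Finset.Icc_subset_Icc_left (by omega)
    have e1 : ∑ n ∈ Finset.Icc 1 (2 * N), ‖a n‖ ^ 2 = G := by
      rw [hG, ← Finset.sum_subset hsub]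
      · refine Finset.sum_congr rfl fun n hn => ?_
        simp only [a, if_pos hn]
      · intro n _ hn
        simp only [a, if_neg hn]
        simp
    have e2 : ∀ t, DP (pt (fun n => (n : ℝ)) (fun _ => δ) U ω) a (2 * N) t =
        ∑ n ∈ Finset.Icc N (2 * N), b n * ph t (n + δ * U n ω) := by
      intro t
      unfold DP pt
      rw [← Finset.sum_subset hsub]
      · refine Finset.sum_congr rfl fun n hn => ?_
        simp only [a, if_pos hn]
      · intro n _ hn
        simp only [a, if_neg hn, zero_mul]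
    have hW' : ∀ t ∈ W, 0 ≤ t ∧ t ≤ ((2 * N : ℕ) : ℝ) ^ A := by
      intro t ht
      refine ⟨(hW t ht).1, (hW t ht).2.trans ?_⟩
      refine Real.rpow_le_rpow (by linarith) ?_ hA.le
      push_cast
      linarith
    have h1 := hgood W hW' hsep a
    rw [e1] at h1
    simp only [e2] at h1
    have h2 : (W.card : ℝ) * V ^ 2 ≤ ∑ t ∈ W, ‖∑ n ∈ Finset.Icc N (2 * N), b n * ph t (n + δ * U n ω)‖ ^ 2 := by
      rw [← nsmul_eq_mul, ← Finset.sum_const]
      refine Finset.sum_le_sum fun t ht => ?_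
      exact pow_le_pow_left₀ hV0.le (hD t ht) 2
    have hlog : Real.log ((2 * N : ℕ) : ℝ) ≤ 2 * Real.log N := by
      push_cast
      rw [Real.log_mul (by norm_num) (by linarith)]
      have : Real.log 2 ≤ Real.log N := Real.log_le_log (by norm_num) hN2
      linarith
    have hlog0 : 0 < Real.log N := Real.log_pos (by linarith)
    have hlog' : 0 ≤ Real.log ((2 * N : ℕ) : ℝ) := Real.log_nonneg (by push_cast; linarith)
    have h3 : Real.log ((2 * N : ℕ) : ℝ) ^ 5 ≤ 32 * Real.log N ^ 5 := by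
      calc _ ≤ (2 * Real.log N) ^ 5 := pow_le_pow_left₀ hlog' hlog 5
        _ = 32 * Real.log N ^ 5 := by ring
    set L := Real.log N ^ 5 with hL
    have hL0 : 0 ≤ L := by positivity
    have hW0 : (0 : ℝ) ≤ W.card := Nat.cast_nonneg _
    have hNd : 0 ≤ (N : ℝ) / δ := by positivity
    have h4 : (W.card : ℝ) * V ^ 2 ≤ 32 * C * L * (2 * (N / δ) + W.card) * G := by
      refine h2.trans (h1.trans ?_)
      refine mul_le_mul_of_nonneg_right ?_ hG0
      have e3 : ((2 * N : ℕ) : ℝ) / δ = 2 * (N / δ) := by push_cast; ring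
      rw [e3, one_pow, mul_one]
      refine mul_le_mul_of_nonneg_right ?_ (by positivity)
      calc C * Real.log ((2 * N : ℕ) : ℝ) ^ 5 ≤ C * (32 * L) := mul_le_mul_of_nonneg_left h3 hC.le
        _ = 32 * C * L := by ring
    have h5 : 32 * C * L * G * W.card ≤ V ^ 2 / 2 * W.card := by
      refine mul_le_mul_of_nonneg_right ?_ hW0
      have : 0 ≤ C * L * G := by positivity
      nlinarith
    have h6 : (W.card : ℝ) * V ^ 2 ≤ 128 * C * L * (N / δ) * G := by nlinarith
    rw [le_div_iff₀ (by positivity)]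
    exact h6
  · refine Real.rpow_le_rpow_of_nonpos (by linarith) ?_ (by linarith)
    push_cast
    linarith

end Pool.Agent.N282.PM
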